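import Pool.Agent.Work.MP_392c8e_co.Defs

/-!
# On the sphere, cochains without sums around faces are coboundaries
-/

namespace Pool.Agent.Sub392

open Finset

variable {V : Type} [Fintype V] [DecidableEq V] {G : SimpleGraph V} [DecidableRel G.Adj]

/-- Darts going up in a fixed numbering of the vertices: one dart for every edge. -/
def Up (G : SimpleGraph V) : Type :=
  {d : G.Dart // (Fintype.equivFin V d.fst : ℕ) < Fintype.equivFin V d.snd}

noncomputable instance : DecidableEq (Up G) := Classical.decEq _

noncomputable instance : Fintype (Up G) := by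
  classical
  exact inferInstanceAs (Fintype {d : G.Dart // (Fintype.equivFin V d.fst : ℕ) <
    Fintype.equivFin V d.snd})

omit [DecidableEq V] [DecidableRel G.Adj] in
theorem up_or (d : G.Dart) : (Fintype.equivFin V d.fst : ℕ) < Fintype.equivFin V d.snd ∨
    (Fintype.equivFin V d.symm.fst : ℕ) < Fintype.equivFin V d.symm.snd := by
  have h : d.fst ≠ d.snd := d.adj.ne
  have h2 : (Fintype.equivFin V d.fst : ℕ) ≠ Fintype.equivFin V d.snd := fun h3 =>
    h ((Fintype.equivFin V).injective (Fin.ext h3))
  rcases lt_or_gt_of_ne h2 with h4 | h4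
  · exact Or.inl h4
  · exact Or.inr h4

theorem sum_dart {A : Type*} [AddCommMonoid A] (F : G.Dart → A) :
    ∑ d, F d = ∑ e : Up G, (F e.1 + F e.1.symm) := by
  classical
  have h1 : ∑ e : Up G, F e.1 = ∑ d ∈ univ.filter
      (fun d : G.Dart => (Fintype.equivFin V d.fst : ℕ) < Fintype.equivFin V d.snd), F d := by
    refine (Finset.sum_bij (fun (e : Up G) _ => e.1) ?_ ?_ ?_ ?_)
    · intro e _
      simpa using e.2
    · intro a _ b _ h
      exact Subtype.ext h
    · intro d hd
      exact ⟨⟨d, by simpa using hd⟩, mem_univ _, rfl⟩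
    · intro e _
      rfl
  have h2 : ∑ e : Up G, F e.1.symm = ∑ d ∈ univ.filter
      (fun d : G.Dart => ¬ (Fintype.equivFin V d.fst : ℕ) < Fintype.equivFin V d.snd), F d := by
    refine (Finset.sum_bij (fun (e : Up G) _ => e.1.symm) ?_ ?_ ?_ ?_)
    · intro e _
      have := e.2
      simp only [mem_filter, mem_univ, true_and, not_lt]
      exact this.le
    · intro a _ b _ h
      exact Subtype.ext (by simpa using congrArg SimpleGraph.Dart.symm h)
    · intro d hd
      have h3 : ¬ (Fintype.equivFin V d.fst : ℕ) < Fintype.equivFin V d.snd := by simpa using hd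
      exact ⟨⟨d.symm, (up_or d).resolve_left h3⟩, mem_univ _, by simp⟩
    · intro e _
      rfl
  rw [sum_add_distrib, h1, h2, sum_filter_add_sum_filter_not]

theorem card_up : Fintype.card (Up G) = #G.edgeFinset := by
  have h := sum_dart (G := G) (fun _ => (1 : ℕ))
  simp only [sum_const, card_univ, smul_eq_mul, mul_one] at h
  have h2 := G.dart_card_eq_twice_card_edges
  omega

/-! ### faces -/

theorem Rot.fst_next (R : Rot G) (d : G.Dart) : (R.next d).fst = d.snd := by
  show (R.rot d.symm).fst = d.snd
  rw [R.fst_rot]
  rfl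

theorem Rot.face_next (R : Rot G) (d : G.Dart) : R.face (R.next d) = R.face d :=
  Quotient.sound ((Equiv.Perm.SameCycle.refl R.next d).apply_left)

theorem Rot.rot_eq (R : Rot G) (d : G.Dart) : R.rot d = R.next d.symm := by
  show R.rot d = R.rot d.symm.symm
  rw [SimpleGraph.Dart.symm_symm]

theorem Rot.face_surj (R : Rot G) : Function.Surjective R.face := Quotient.mk_surjective

/-- A function on the darts which is invariant under the two permutations is constant. -/
theorem Rot.const (R : Rot G) (hG : G.Connected) {A : Type*} (h : G.Dart → A)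
    (h1 : ∀ d, h (R.next d) = h d) (h2 : ∀ d, h d.symm = h d) (d d' : G.Dart) : h d = h d' := by
  have hr : ∀ d, h (R.rot d) = h d := fun d => by rw [R.rot_eq, h1, h2]
  have hz : ∀ (n : ℕ) d, h ((R.rot ^ n) d) = h d := by
    intro n
    induction n with
    | zero => intro d; rfl
    | succ n ih =>
      intro d
      rw [pow_succ, Equiv.Perm.mul_apply, ih, hr]
  have hv : ∀ d d' : G.Dart, d.fst = d'.fst → h d = h d' := by
    intro a b hab
    obtain ⟨i, hi⟩ := R.cyc a b hab
    cases i with
    | ofNat n =>
      rw [Int.ofNat_eq_natCast, zpow_natCast] at hi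
      rw [← hi, hz]
    | negSucc n =>
      rw [zpow_negSucc] at hi
      have : a = (R.rot ^ (n + 1)) b := by
        rw [← hi]
        simp
      rw [this, hz]
  have key : ∀ v w : V, G.Reachable v w → ∀ a b : G.Dart, a.fst = v → b.fst = w → h a = h b := by
    intro v w hvw
    obtain ⟨p⟩ := hvw
    induction p with
    | nil =>
      intro a b ha hb
      exact hv a b (ha.trans hb.symm)
    | @cons u v w huv p ih =>
      intro a b ha hb
      have e1 : h a = h ⟨(u, v), huv⟩ := hv _ _ ha
      have e2 : h (⟨(u, v), huv⟩ : G.Dart) = h (⟨(u, v), huv⟩ : G.Dart).symm := (h2 _).symm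
      rw [e1, e2]
      exact ih _ _ rfl hb
  exact key d.fst d'.fst (hG.preconnected _ _) d d' rfl rfl

/-! ### the two incidence matrices -/

section

variable (k : Type) [Field k]

open Classical in
/-- faces and edges -/
noncomputable def Rot.matB (R : Rot G) : Matrix R.Face (Up G) k := fun f e =>
  (if R.face e.1 = f then 1 else 0) - (if R.face e.1.symm = f then 1 else 0)

variable (G) in
/-- vertices and edges -/
noncomputable def matA : Matrix V (Up G) k := fun v e =>
  (if e.1.snd = v then 1 else 0) - (if e.1.fst = v then 1 else 0)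

variable {k}

theorem matA_mulVec (p : V → k) (e : Up G) :
    ((matA G k).transpose.mulVec p) e = p e.1.snd - p e.1.fst := by
  simp [Matrix.mulVec, dotProduct, matA, sub_mul, sum_sub_distrib]

theorem Rot.matB_mulVec_transpose (R : Rot G) (g : R.Face → k) (e : Up G) :
    ((R.matB k).transpose.mulVec g) e = g (R.face e.1) - g (R.face e.1.symm) := by
  simp [Matrix.mulVec, dotProduct, Rot.matB, sub_mul, sum_sub_distrib]

open Classical in
theorem Rot.matB_mulVec (R : Rot G) (x : G.Dart → k) (hx : ∀ d, x d.symm = -x d) (f : R.Face) :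
    ((R.matB k).mulVec fun e => x e.1) f = ∑ d with R.face d = f, x d := by
  rw [sum_filter, sum_dart]
  simp only [Matrix.mulVec, dotProduct, Rot.matB]
  refine sum_congr rfl fun e _ => ?_
  rw [hx]
  split_ifs <;> simp

open Classical in
theorem Rot.sum_face_coboundary (R : Rot G) (p : V → k) (f : R.Face) :
    ∑ d with R.face d = f, (p d.snd - p d.fst) = 0 := by
  rw [sum_sub_distrib, sub_eq_zero]
  refine Finset.sum_bij (fun d _ => R.next d) ?_ ?_ ?_ ?_
  · intro d hd
    simp only [mem_filter, mem_univ, true_and] at hd ⊢
    rw [R.face_next, hd]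
  · intro a _ b _ h
    exact R.next.injective h
  · intro d hd
    refine ⟨R.next.symm d, ?_, by simp⟩
    simp only [mem_filter, mem_univ, true_and] at hd ⊢
    have := R.face_next (R.next.symm d)
    rw [Equiv.apply_symm_apply] at this
    rw [← this, hd]
  · intro d _
    rw [R.fst_next]

theorem ker_A (hG : G.Connected) :
    LinearMap.ker ((matA G k).transpose.mulVecLin) = Submodule.span k {fun _ => (1 : k)} := by
  ext p
  rw [LinearMap.mem_ker, Submodule.mem_span_singleton]
  constructor
  · intro h
    have h1 : ∀ d : G.Dart, p d.fst = p d.snd := by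
      intro d
      rcases up_or d with h2 | h2
      · have := congrFun h ⟨d, h2⟩
        rw [Matrix.mulVecLin_apply, matA_mulVec] at this
        exact (sub_eq_zero.1 this).symm
      · have := congrFun h ⟨d.symm, h2⟩
        rw [Matrix.mulVecLin_apply, matA_mulVec] at this
        exact sub_eq_zero.1 this
    obtain ⟨v0⟩ := hG.nonempty
    refine ⟨p v0, ?_⟩
    funext v
    obtain ⟨w⟩ := hG.preconnected v0 v
    have : p v0 = p v := by
      induction w with
      | nil => rfl
      | @cons a b c hab w ih => exact (h1 ⟨(a, b), hab⟩).trans ih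
    simpa using this
  · rintro ⟨a, rfl⟩
    funext e
    rw [Matrix.mulVecLin_apply, matA_mulVec]
    simp

theorem Rot.ker_B (R : Rot G) (hG : G.Connected) (hne : Nonempty G.Dart) :
    LinearMap.ker ((R.matB k).transpose.mulVecLin) = Submodule.span k {fun _ => (1 : k)} := by
  ext g
  rw [LinearMap.mem_ker, Submodule.mem_span_singleton]
  constructor
  · intro h
    have h1 : ∀ d : G.Dart, g (R.face d.symm) = g (R.face d) := by
      intro d
      rcases up_or d with h2 | h2
      · have := congrFun h ⟨d, h2⟩
        rw [Matrix.mulVecLin_apply, R.matB_mulVec_transpose] at this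
        exact (sub_eq_zero.1 this).symm
      · have := congrFun h ⟨d.symm, h2⟩
        rw [Matrix.mulVecLin_apply, R.matB_mulVec_transpose] at this
        simpa using sub_eq_zero.1 this
    obtain ⟨d0⟩ := hne
    refine ⟨g (R.face d0), ?_⟩
    funext f
    obtain ⟨d, rfl⟩ := R.face_surj f
    have := R.const hG (fun d => g (R.face d)) (fun d => by rw [R.face_next]) h1 d0 d
    simpa using this
  · rintro ⟨a, rfl⟩
    funext e
    rw [Matrix.mulVecLin_apply, R.matB_mulVec_transpose]
    simp

theorem finrank_span_one (X : Type) [Fintype X] [Nonempty X] :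
    Module.finrank k (Submodule.span k {(fun _ => (1 : k) : X → k)}) = 1 := by
  refine finrank_span_singleton ?_
  intro h
  obtain ⟨x⟩ := ‹Nonempty X›
  exact one_ne_zero (congrFun h x)

/-- **Exactness.**  Antisymmetric functions on the darts with zero sums around all faces come from
functions on the vertices. -/
theorem Rot.exact (R : Rot G) (hP : R.Plane) (x : G.Dart → k) (hx : ∀ d, x d.symm = -x d)
    (h0 : ∀ f, ∑ d with R.face d = f, x d = 0) : ∃ p : V → k, ∀ d, x d = p d.snd - p d.fst := by
  classical
  obtain ⟨hG, hE⟩ := hP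
  by_cases hne : Nonempty G.Dart
  swap
  · exact ⟨0, fun d => absurd ⟨d⟩ hne⟩
  haveI : Nonempty V := hG.nonempty
  haveI : Nonempty R.Face := hne.map R.face
  have hAk : Module.finrank k (LinearMap.ker ((matA G k).transpose.mulVecLin)) = 1 := by
    rw [ker_A hG]; exact finrank_span_one V
  have hBk : Module.finrank k (LinearMap.ker ((R.matB k).transpose.mulVecLin)) = 1 := by
    rw [R.ker_B hG hne]; exact finrank_span_one R.Face
  have hA := LinearMap.finrank_range_add_finrank_ker ((matA G k).transpose.mulVecLin)
  have hB := LinearMap.finrank_range_add_finrank_ker ((R.matB k).transpose.mulVecLin)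
  have hB2 := LinearMap.finrank_range_add_finrank_ker ((R.matB k).mulVecLin)
  rw [hAk, Module.finrank_fintype_fun_eq_card] at hA
  rw [hBk, Module.finrank_fintype_fun_eq_card] at hB
  rw [Module.finrank_fintype_fun_eq_card, card_up] at hB2
  have hrk : Module.finrank k (LinearMap.range ((R.matB k).mulVecLin)) =
      Module.finrank k (LinearMap.range ((R.matB k).transpose.mulVecLin)) :=
    (Matrix.rank_transpose (R.matB k)).symm
  have hle : LinearMap.range ((matA G k).transpose.mulVecLin) ≤
      LinearMap.ker ((R.matB k).mulVecLin) := by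
    rintro _ ⟨p, rfl⟩
    rw [LinearMap.mem_ker]
    funext f
    have e1 : (matA G k).transpose.mulVecLin p = fun e : Up G => (fun d : G.Dart =>
        p d.snd - p d.fst) e.1 := by
      funext e
      rw [Matrix.mulVecLin_apply, matA_mulVec]
    rw [e1, Matrix.mulVecLin_apply, R.matB_mulVec (fun d : G.Dart => p d.snd - p d.fst)
      (fun d => by simp), R.sum_face_coboundary]
    rfl
  have heq : LinearMap.range ((matA G k).transpose.mulVecLin) =
      LinearMap.ker ((R.matB k).mulVecLin) :=
    Submodule.eq_of_le_of_finrank_eq hle (by omega)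
  have hmem : (fun e : Up G => x e.1) ∈ LinearMap.ker ((R.matB k).mulVecLin) := by
    rw [LinearMap.mem_ker]
    funext f
    rw [Matrix.mulVecLin_apply, R.matB_mulVec x hx, h0]
    rfl
  rw [← heq] at hmem
  obtain ⟨p, hp⟩ := hmem
  refine ⟨p, fun d => ?_⟩
  rcases up_or d with h2 | h2
  · have := congrFun hp ⟨d, h2⟩
    rw [Matrix.mulVecLin_apply, matA_mulVec] at this
    exact this.symm
  · have := congrFun hp ⟨d.symm, h2⟩
    rw [Matrix.mulVecLin_apply, matA_mulVec] at this
    simp only [hx] at this
    have h3 : x d = -(p d.symm.snd - p d.symm.fst) := by rw [this, neg_neg]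
    rw [h3]
    simp

end

end Pool.Agent.Sub392
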