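import Pool.Agent.Work.MP_392c8e_co.Colour

/-!
# Cuts, parities and classes of faces
-/

namespace Pool.Agent.Sub392

open Finset

variable {V : Type} [Fintype V] [DecidableEq V] {G : SimpleGraph V} [DecidableRel G.Adj]

theorem Rot.face_rot (R : Rot G) (d : G.Dart) : R.face (R.rot d) = R.face d.symm := by
  rw [R.rot_eq, R.face_next]

theorem sameCycle_inv {α β : Type*} {f : Equiv.Perm α} {h : α → β} (hh : ∀ d, h (f d) = h d)
    {a b : α} (hab : f.SameCycle a b) : h a = h b := by
  have hz : ∀ (n : ℕ) d, h ((f ^ n) d) = h d := by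
    intro n
    induction n with
    | zero => intro d; rfl
    | succ n ih =>
      intro d
      rw [pow_succ, Equiv.Perm.mul_apply, ih, hh]
  obtain ⟨i, hi⟩ := hab
  cases i with
  | ofNat n =>
    rw [Int.ofNat_eq_natCast, zpow_natCast] at hi
    rw [← hi, hz]
  | negSucc n =>
    rw [zpow_negSucc] at hi
    have : a = (f ^ (n + 1)) b := by
      rw [← hi]
      simp
    rw [this, hz]

/-! ### sets of edges, one dart for each -/

/-- the degree of a vertex in a set of edges -/
def dgA (A : Finset G.Dart) (v : V) : ℕ := #{d ∈ A | d.fst = v} + #{d ∈ A | d.snd = v}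

omit [DecidableRel G.Adj] in
theorem sum_dgA (A : Finset G.Dart) : ∑ v, dgA A v = 2 * #A := by
  simp only [dgA]
  rw [sum_add_distrib, ← card_eq_sum_card_fiberwise (f := fun d : G.Dart => d.fst)
    (fun _ _ => mem_univ _), ← card_eq_sum_card_fiberwise (f := fun d : G.Dart => d.snd)
    (fun _ _ => mem_univ _)]
  ring

omit [Fintype V] [DecidableRel G.Adj] in
theorem dgA_eq (A : Finset G.Dart) (v : V) : dgA A v = #{d ∈ A | d.fst = v ∨ d.snd = v} := by
  rw [dgA, filter_or, card_union_of_disjoint]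
  rw [disjoint_filter]
  intro d _ h1 h2
  exact d.adj.ne (h1.trans h2.symm)

omit [Fintype V] [DecidableRel G.Adj] in
/-- A nonempty set of edges with even degrees in a triangle-free graph has at least four edges. -/
theorem four_le (hG : G.CliqueFree 3) {A : Finset G.Dart} (hA : ∀ d ∈ A, d.symm ∉ A)
    (he : ∀ v, Even (dgA A v)) (hne : A.Nonempty) : 4 ≤ #A := by
  classical
  set E : Finset (Sym2 V) := A.image SimpleGraph.Dart.edge with hE
  have hinj : ∀ d ∈ A, ∀ d' ∈ A, d.edge = d'.edge → d = d' := by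
    intro d hd d' hd' h
    rcases SimpleGraph.dart_edge_eq_iff d d' |>.1 h with h | h
    · exact h
    · exact absurd hd (by rw [h]; exact hA _ hd')
  have hcard : #E = #A := card_image_of_injOn hinj
  have hadj : ∀ a b : V, s(a, b) ∈ E → G.Adj a b := by
    intro a b hab
    obtain ⟨d, _, hd⟩ := mem_image.1 hab
    have := d.edge_mem
    rw [hd] at this
    exact this
  have hstep : ∀ a b : V, s(a, b) ∈ E → ∃ c, c ≠ a ∧ s(b, c) ∈ E := by
    intro a b hab
    obtain ⟨d, hd, hde⟩ := mem_image.1 hab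
    have hdb : d ∈ {d ∈ A | d.fst = b ∨ d.snd = b} := by
      rw [mem_filter]
      refine ⟨hd, ?_⟩
      have h1 : s(d.fst, d.snd) = s(a, b) := hde
      rcases Sym2.eq_iff.1 h1 with h | h
      · exact Or.inr h.2
      · exact Or.inl h.1
    have h2 : 1 < #{d ∈ A | d.fst = b ∨ d.snd = b} := by
      have h3 := he b
      rw [dgA_eq] at h3
      have h4 : 0 < #{d ∈ A | d.fst = b ∨ d.snd = b} := card_pos.2 ⟨d, hdb⟩
      obtain ⟨k, hk⟩ := h3
      omega
    obtain ⟨d', hd', hne'⟩ := exists_mem_ne h2 d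
    rw [mem_filter] at hd'
    rcases hd'.2 with h | h
    · refine ⟨d'.snd, ?_, mem_image.2 ⟨d', hd'.1, ?_⟩⟩
      · intro h5
        refine hne' (hinj _ hd'.1 _ hd ?_)
        rw [hde]
        show s(d'.fst, d'.snd) = s(a, b)
        rw [h, h5, Sym2.eq_swap]
      · show s(d'.fst, d'.snd) = _
        rw [h]
    · refine ⟨d'.fst, ?_, mem_image.2 ⟨d', hd'.1, ?_⟩⟩
      · intro h5
        refine hne' (hinj _ hd'.1 _ hd ?_)
        rw [hde]
        show s(d'.fst, d'.snd) = s(a, b)
        rw [h, h5]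
      · show s(d'.fst, d'.snd) = _
        rw [h, Sym2.eq_swap]
  have htri : ∀ a b c : V, G.Adj a b → G.Adj b c → G.Adj c a → False := by
    intro a b c h1 h2 h3
    exact hG _ (SimpleGraph.is3Clique_triple_iff.2 ⟨h1, h3.symm, h2⟩)
  obtain ⟨d0, hd0⟩ := hne
  have h1 : s(d0.fst, d0.snd) ∈ E := mem_image.2 ⟨d0, hd0, rfl⟩
  generalize d0.fst = u at h1
  generalize d0.snd = v at h1
  obtain ⟨w, hwu, h2⟩ := hstep _ _ h1
  obtain ⟨x, hxv, h3⟩ := hstep _ _ h2
  obtain ⟨y, hyw, h4⟩ := hstep _ _ h3
  have a1 := hadj _ _ h1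
  have a2 := hadj _ _ h2
  have a3 := hadj _ _ h3
  have a4 := hadj _ _ h4
  have hxu : x ≠ u := by
    rintro rfl
    exact htri _ _ _ a1 a2 a3
  have hyv : y ≠ v := by
    rintro rfl
    exact htri _ _ _ a2 a3 a4
  have hsub : ({s(u, v), s(v, w), s(w, x), s(x, y)} : Finset (Sym2 V)) ⊆ E := by
    intro e he
    simp only [mem_insert, mem_singleton] at he
    rcases he with rfl | rfl | rfl | rfl <;> assumption
  have hc : #({s(u, v), s(v, w), s(w, x), s(x, y)} : Finset (Sym2 V)) = 4 := by
    have n1 := a1.ne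
    have n2 := a2.ne
    have n3 := a3.ne
    have n4 := a4.ne
    rw [card_insert_of_notMem, card_insert_of_notMem, card_insert_of_notMem, card_singleton]
    · simp only [mem_singleton, Sym2.eq_iff, not_or, not_and]
      exact ⟨fun h => absurd h n3, fun h => absurd h.symm hyw⟩
    · simp only [mem_insert, mem_singleton, Sym2.eq_iff, not_or, not_and]
      exact ⟨⟨fun h => absurd h n2, fun h => absurd h.symm hxv⟩,
        ⟨fun h => absurd h.symm hxv, fun h => absurd h.symm hyv⟩⟩
    · simp only [mem_insert, mem_singleton, Sym2.eq_iff, not_or, not_and]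
      exact ⟨⟨fun h => absurd h n1, fun h => absurd h.symm hwu⟩,
        ⟨fun h => absurd h.symm hwu, fun h => absurd h.symm hxu⟩,
        ⟨fun h => absurd h.symm hxu, fun _ h => hxv h.symm⟩⟩
  rw [← hcard, ← hc]
  exact card_le_card hsub

/-! ### classes of faces -/

section

variable {κ : Type} [DecidableEq κ]

/-- the edges between two classes of faces -/
noncomputable def Rot.cl (R : Rot G) (q : R.Face → κ) (i j : κ) : Finset G.Dart :=
  {d | q (R.face d) = i ∧ q (R.face d.symm) = j}

/-- their number -/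
noncomputable def Rot.eN (R : Rot G) (q : R.Face → κ) (i j : κ) : ℕ := #(R.cl q i j)

/-- The vertex `v` lies on a face of the class `i`. -/
def Rot.Sees (R : Rot G) (q : R.Face → κ) (v : V) (i : κ) : Prop :=
  ∃ d : G.Dart, d.fst = v ∧ q (R.face d) = i

theorem Rot.mem_cl (R : Rot G) (q : R.Face → κ) {i j : κ} {d : G.Dart} :
    d ∈ R.cl q i j ↔ q (R.face d) = i ∧ q (R.face d.symm) = j := by
  simp [Rot.cl]

theorem Rot.cl_anti (R : Rot G) (q : R.Face → κ) {i j : κ} (hij : i ≠ j) :
    ∀ d ∈ R.cl q i j, d.symm ∉ R.cl q i j := by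
  intro d hd h
  rw [R.mem_cl] at hd h
  exact hij (hd.1.symm.trans ((congrArg _ (congrArg _ (SimpleGraph.Dart.symm_symm d).symm)).trans
    h.2))

theorem Rot.eN_symm (R : Rot G) (q : R.Face → κ) (i j : κ) : R.eN q i j = R.eN q j i := by
  refine card_bij (fun d _ => d.symm) ?_ ?_ ?_
  · intro d hd
    rw [R.mem_cl] at hd ⊢
    rw [SimpleGraph.Dart.symm_symm]
    exact ⟨hd.2, hd.1⟩
  · intro a _ b _ h
    simpa using congrArg SimpleGraph.Dart.symm h
  · intro d hd
    rw [R.mem_cl] at hd
    refine ⟨d.symm, ?_, SimpleGraph.Dart.symm_symm d⟩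
    rw [R.mem_cl, SimpleGraph.Dart.symm_symm]
    exact ⟨hd.2, hd.1⟩

/-- the edges at `v`, in the order of the rotation -/
theorem Rot.dgA_cl (R : Rot G) (q : R.Face → κ) (i j : κ) (v : V) :
    dgA (R.cl q i j) v =
      #{d : G.Dart | d.fst = v ∧ q (R.face d) = i ∧ q (R.face (R.rot d)) = j} +
      #{d : G.Dart | d.fst = v ∧ q (R.face d) = j ∧ q (R.face (R.rot d)) = i} := by
  rw [dgA]
  congr 1
  · congr 1
    ext d
    simp only [mem_filter, mem_univ, true_and, Rot.cl, R.face_rot]
    tauto
  · refine card_bij (fun d _ => d.symm) ?_ ?_ ?_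
    · intro d hd
      simp only [mem_filter, mem_univ, true_and, Rot.cl, R.face_rot] at hd ⊢
      rw [SimpleGraph.Dart.symm_symm]
      exact ⟨hd.2, hd.1.2, hd.1.1⟩
    · intro a _ b _ h
      simpa using congrArg SimpleGraph.Dart.symm h
    · intro d hd
      simp only [mem_filter, mem_univ, true_and, R.face_rot] at hd
      refine ⟨d.symm, ?_, SimpleGraph.Dart.symm_symm d⟩
      simp only [mem_filter, mem_univ, true_and, Rot.cl]
      rw [SimpleGraph.Dart.symm_symm]
      exact ⟨⟨hd.2.2, hd.2.1⟩, hd.1⟩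

/-- If `v` does not see both classes and a third one, the number of edges at `v` between the two
classes is even. -/
theorem Rot.dg_even (R : Rot G) (q : R.Face → κ) {i j : κ} (hij : i ≠ j) {v : V}
    (h : ¬ (R.Sees q v i ∧ R.Sees q v j ∧ ∃ k, k ≠ i ∧ k ≠ j ∧ R.Sees q v k)) :
    Even (dgA (R.cl q i j) v) := by
  rw [R.dgA_cl]
  by_cases hi : R.Sees q v i
  swap
  · have h1 : ∀ d : G.Dart, d.fst = v → q (R.face d) ≠ i := fun d hd h2 => hi ⟨d, hd, h2⟩
    have h2 : #{d : G.Dart | d.fst = v ∧ q (R.face d) = i ∧ q (R.face (R.rot d)) = j} = 0 := by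
      rw [card_eq_zero, filter_eq_empty_iff]
      intro d _ h3
      exact h1 d h3.1 h3.2.1
    have h3 : #{d : G.Dart | d.fst = v ∧ q (R.face d) = j ∧ q (R.face (R.rot d)) = i} = 0 := by
      rw [card_eq_zero, filter_eq_empty_iff]
      intro d _ h3
      exact h1 (R.rot d) ((R.fst_rot d).trans h3.1) h3.2.2
    rw [h2, h3]
    exact Even.zero
  by_cases hj : R.Sees q v j
  swap
  · have h1 : ∀ d : G.Dart, d.fst = v → q (R.face d) ≠ j := fun d hd h2 => hj ⟨d, hd, h2⟩
    have h2 : #{d : G.Dart | d.fst = v ∧ q (R.face d) = i ∧ q (R.face (R.rot d)) = j} = 0 := by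
      rw [card_eq_zero, filter_eq_empty_iff]
      intro d _ h3
      exact h1 (R.rot d) ((R.fst_rot d).trans h3.1) h3.2.2
    have h3 : #{d : G.Dart | d.fst = v ∧ q (R.face d) = j ∧ q (R.face (R.rot d)) = i} = 0 := by
      rw [card_eq_zero, filter_eq_empty_iff]
      intro d _ h3
      exact h1 d h3.1 h3.2.1
    rw [h2, h3]
    exact Even.zero
  have hall : ∀ d : G.Dart, d.fst = v → q (R.face d) = i ∨ q (R.face d) = j := by
    intro d hd
    by_contra hc
    push Not at hc
    exact h ⟨hi, hj, _, hc.1, hc.2, d, hd, rfl⟩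
  have e1 : #{d : G.Dart | d.fst = v ∧ q (R.face d) = i} =
      #{d : G.Dart | d.fst = v ∧ q (R.face d) = i ∧ q (R.face (R.rot d)) = j} +
      #{d : G.Dart | d.fst = v ∧ q (R.face d) = i ∧ q (R.face (R.rot d)) = i} := by
    rw [← card_union_of_disjoint]
    · congr 1
      ext d
      simp only [mem_filter, mem_univ, true_and, mem_union]
      constructor
      · rintro ⟨h1, h2⟩
        rcases hall (R.rot d) ((R.fst_rot d).trans h1) with h3 | h3
        · exact Or.inr ⟨h1, h2, h3⟩
        · exact Or.inl ⟨h1, h2, h3⟩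
      · rintro (⟨h1, h2, _⟩ | ⟨h1, h2, _⟩) <;> exact ⟨h1, h2⟩
    · rw [disjoint_filter]
      rintro d _ ⟨_, _, h1⟩ ⟨_, _, h2⟩
      exact hij (h2.symm.trans h1)
  have e2 : #{d : G.Dart | d.fst = v ∧ q (R.face (R.rot d)) = i} =
      #{d : G.Dart | d.fst = v ∧ q (R.face d) = j ∧ q (R.face (R.rot d)) = i} +
      #{d : G.Dart | d.fst = v ∧ q (R.face d) = i ∧ q (R.face (R.rot d)) = i} := by
    rw [← card_union_of_disjoint]
    · congr 1
      ext d
      simp only [mem_filter, mem_univ, true_and, mem_union]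
      constructor
      · rintro ⟨h1, h2⟩
        rcases hall d h1 with h3 | h3
        · exact Or.inr ⟨h1, h3, h2⟩
        · exact Or.inl ⟨h1, h3, h2⟩
      · rintro (⟨h1, _, h2⟩ | ⟨h1, _, h2⟩) <;> exact ⟨h1, h2⟩
    · rw [disjoint_filter]
      rintro d _ ⟨_, h1, _⟩ ⟨_, h2, _⟩
      exact hij (h2.symm.trans h1)
  have e3 : #{d : G.Dart | d.fst = v ∧ q (R.face (R.rot d)) = i} =
      #{d : G.Dart | d.fst = v ∧ q (R.face d) = i} := by
    refine card_bij (fun d _ => R.rot d) ?_ ?_ ?_
    · intro d hd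
      simp only [mem_filter, mem_univ, true_and] at hd ⊢
      exact ⟨(R.fst_rot d).trans hd.1, hd.2⟩
    · intro a _ b _ h
      exact R.rot.injective h
    · intro d hd
      simp only [mem_filter, mem_univ, true_and] at hd
      refine ⟨R.rot.symm d, ?_, by simp⟩
      simp only [mem_filter, mem_univ, true_and, Equiv.apply_symm_apply]
      have := R.fst_rot (R.rot.symm d)
      rw [Equiv.apply_symm_apply] at this
      exact ⟨this.symm.trans hd.1, hd.2⟩
  have e4 : #{d : G.Dart | d.fst = v ∧ q (R.face d) = i ∧ q (R.face (R.rot d)) = j} =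
      #{d : G.Dart | d.fst = v ∧ q (R.face d) = j ∧ q (R.face (R.rot d)) = i} := by omega
  rw [e4]
  exact ⟨_, rfl⟩

/-- A vertex of degree three which sees three classes has one edge between any two of them. -/
theorem Rot.dg_one (R : Rot G) (q : R.Face → κ) {i j k : κ} (hij : i ≠ j) (hik : i ≠ k)
    (hjk : j ≠ k) {v : V} (hdeg : G.degree v ≤ 3) (hi : R.Sees q v i) (hj : R.Sees q v j)
    (hk : R.Sees q v k) : dgA (R.cl q i j) v = 1 := by
  obtain ⟨x, hx, hxi⟩ := hi
  obtain ⟨y, hy, hyj⟩ := hj
  obtain ⟨z, hz, hzk⟩ := hk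
  have hxy : x ≠ y := by rintro rfl; exact hij (hxi.symm.trans hyj)
  have hxz : x ≠ z := by rintro rfl; exact hik (hxi.symm.trans hzk)
  have hyz : y ≠ z := by rintro rfl; exact hjk (hyj.symm.trans hzk)
  have hD : ({d : G.Dart | d.fst = v} : Finset G.Dart) = {x, y, z} := by
    symm
    apply eq_of_subset_of_card_le
    · intro d hd
      simp only [mem_insert, mem_singleton] at hd
      rcases hd with rfl | rfl | rfl <;> simpa
    · rw [G.dart_fst_fiber_card_eq_degree v, card_insert_of_notMem (by simp [hxy, hxz]),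
        card_insert_of_notMem (by simp [hyz]), card_singleton]
      exact hdeg
  have hmem : ∀ d : G.Dart, d.fst = v ↔ d = x ∨ d = y ∨ d = z := by
    intro d
    have := Finset.ext_iff.1 hD d
    simpa using this
  have hcyc : ∀ a b : G.Dart, a.fst = v → b.fst = v → R.rot.SameCycle a b :=
    fun a b ha hb => R.cyc a b (ha.trans hb.symm)
  have hfix : ∀ a b : G.Dart, a.fst = v → b.fst = v → a ≠ b → R.rot a ≠ a := by
    intro a b ha hb hab h
    exact hab ((hcyc a b ha hb).eq_of_left h)
  have hpair : ∀ a b c : G.Dart, a.fst = v → c.fst = v → a ≠ c → b ≠ c →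
      R.rot a = b → R.rot b ≠ a := by
    intro a b c ha hc hac hbc h1 h2
    have hh : ∀ d, (fun d => (d = a ∨ d = b)) (R.rot d) = (fun d => (d = a ∨ d = b)) d := by
      intro d
      simp only [eq_iff_iff]
      constructor
      · rintro (h | h)
        · right; exact R.rot.injective (h.trans h2.symm)
        · left; exact R.rot.injective (h.trans h1.symm)
      · rintro (rfl | rfl)
        · right; exact h1
        · left; exact h2
    have := sameCycle_inv (h := fun d => (d = a ∨ d = b)) hh (hcyc a c ha hc)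
    simp only [true_or, eq_iff_iff, true_iff] at this
    rcases this with h | h
    · exact hac h.symm
    · exact hbc h.symm
  have hrx : R.rot x = x ∨ R.rot x = y ∨ R.rot x = z := (hmem _).1 ((R.fst_rot x).trans hx)
  have hry : R.rot y = x ∨ R.rot y = y ∨ R.rot y = z := (hmem _).1 ((R.fst_rot y).trans hy)
  have hrz : R.rot z = x ∨ R.rot z = y ∨ R.rot z = z := (hmem _).1 ((R.fst_rot z).trans hz)
  have hx' := hfix x y hx hy hxy
  have hy' := hfix y x hy hx hxy.symm
  have hz' := hfix z x hz hx hxz.symm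
  rw [R.dgA_cl]
  have hcases : (R.rot x = y ∧ R.rot y = z ∧ R.rot z = x) ∨
      (R.rot x = z ∧ R.rot z = y ∧ R.rot y = x) := by
    rcases hrx with h | h | h
    · exact absurd h hx'
    · left
      have h1 : R.rot y = z := by
        rcases hry with h2 | h2 | h2
        · exact absurd h2 (hpair x y z hx hz hxz hyz h)
        · exact absurd h2 hy'
        · exact h2
      refine ⟨h, h1, ?_⟩
      rcases hrz with h2 | h2 | h2
      · exact h2
      · exact absurd (R.rot.injective (h2.trans h.symm)) hxz.symm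
      · exact absurd h2 hz'
    · right
      have h1 : R.rot z = y := by
        rcases hrz with h2 | h2 | h2
        · exact absurd h2 (hpair x z y hx hy hxy hyz.symm h)
        · exact h2
        · exact absurd h2 hz'
      refine ⟨h, h1, ?_⟩
      rcases hry with h2 | h2 | h2
      · exact h2
      · exact absurd h2 hy'
      · exact absurd (R.rot.injective (h2.trans h.symm)) hxy.symm
  rcases hcases with ⟨h1, h2, h3⟩ | ⟨h1, h2, h3⟩
  · have f1 : ({d : G.Dart | d.fst = v ∧ q (R.face d) = i ∧ q (R.face (R.rot d)) = j} :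
        Finset G.Dart) = {x} := by
      ext d
      simp only [mem_filter, mem_univ, true_and, mem_singleton]
      constructor
      · rintro ⟨h4, h5, h6⟩
        rcases (hmem d).1 h4 with rfl | rfl | rfl
        · rfl
        · exact absurd (h5.symm.trans hyj) hij
        · exact absurd (h5.symm.trans hzk) hik
      · rintro rfl
        exact ⟨hx, hxi, by rw [h1]; exact hyj⟩
    have f2 : ({d : G.Dart | d.fst = v ∧ q (R.face d) = j ∧ q (R.face (R.rot d)) = i} :
        Finset G.Dart) = ∅ := by
      rw [filter_eq_empty_iff]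
      rintro d _ ⟨h4, h5, h6⟩
      rcases (hmem d).1 h4 with rfl | rfl | rfl
      · exact hij (hxi.symm.trans h5)
      · rw [h2] at h6
        exact hik (h6.symm.trans hzk)
      · exact hjk (h5.symm.trans hzk)
    rw [f1, f2]
    rfl
  · have f1 : ({d : G.Dart | d.fst = v ∧ q (R.face d) = j ∧ q (R.face (R.rot d)) = i} :
        Finset G.Dart) = {y} := by
      ext d
      simp only [mem_filter, mem_univ, true_and, mem_singleton]
      constructor
      · rintro ⟨h4, h5, h6⟩
        rcases (hmem d).1 h4 with rfl | rfl | rfl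
        · exact absurd (hxi.symm.trans h5) hij
        · rfl
        · exact absurd (h5.symm.trans hzk) hjk
      · rintro rfl
        exact ⟨hy, hyj, by rw [h3]; exact hxi⟩
    have f2 : ({d : G.Dart | d.fst = v ∧ q (R.face d) = i ∧ q (R.face (R.rot d)) = j} :
        Finset G.Dart) = ∅ := by
      rw [filter_eq_empty_iff]
      rintro d _ ⟨h4, h5, h6⟩
      rcases (hmem d).1 h4 with rfl | rfl | rfl
      · rw [h1] at h6
        exact hjk (h6.symm.trans hzk)
      · exact hij (h5.symm.trans hyj)
      · exact hik (h5.symm.trans hzk)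
    rw [f1, f2]
    rfl

/-- A nonempty set of edges between two classes which has even degrees has at least 4 elements. -/
theorem Rot.eN_zero_or (R : Rot G) (hG : G.CliqueFree 3) (q : R.Face → κ) {i j : κ} (hij : i ≠ j)
    (h : ∀ v, Even (dgA (R.cl q i j) v)) : R.eN q i j = 0 ∨ 4 ≤ R.eN q i j := by
  rcases (R.cl q i j).eq_empty_or_nonempty with h1 | h1
  · left
    rw [Rot.eN, h1]
    rfl
  · right
    exact four_le hG (R.cl_anti q hij) h h1

theorem Rot.eN_pos (R : Rot G) (q : R.Face → κ) {i j : κ} {v : V} (h : dgA (R.cl q i j) v ≠ 0) :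
    R.eN q i j ≠ 0 := by
  intro h1
  apply h
  rw [Rot.eN, card_eq_zero] at h1
  rw [h1]
  rfl

end

/-! ### cuts -/

theorem Rot.cut_eN (R : Rot G) (S : Finset R.Face) :
    R.cut S = R.eN (fun f => decide (f ∈ S)) true false := by
  rw [Rot.cut, Rot.eN, Rot.cl]
  congr 1
  ext d
  simp

theorem Rot.cut_zero_or (R : Rot G) (hG : G.CliqueFree 3) (S : Finset R.Face) :
    R.cut S = 0 ∨ 4 ≤ R.cut S := by
  rw [R.cut_eN]
  refine R.eN_zero_or hG _ (by decide) fun v => R.dg_even _ (by decide) ?_
  rintro ⟨_, _, k, h1, h2, _⟩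
  cases k
  · exact h2 rfl
  · exact h1 rfl

theorem Rot.cut_zero (R : Rot G) (hc : G.Connected) {S : Finset R.Face} (h : R.cut S = 0) :
    S = ∅ ∨ S = univ := by
  have h1 : ∀ d : G.Dart, R.face d ∈ S → R.face d.symm ∈ S := by
    intro d hd
    by_contra h2
    rw [Rot.cut, card_eq_zero, filter_eq_empty_iff] at h
    exact h (mem_univ d) ⟨hd, h2⟩
  have h2 : ∀ d : G.Dart, (R.face d.symm ∈ S) = (R.face d ∈ S) := by
    intro d
    refine propext ⟨fun h3 => ?_, h1 d⟩
    have := h1 _ h3
    rwa [SimpleGraph.Dart.symm_symm] at this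
  have h3 := R.const hc (fun d => R.face d ∈ S) (fun d => by rw [R.face_next]) h2
  by_cases h4 : S = ∅
  · exact Or.inl h4
  · right
    obtain ⟨f, hf⟩ := nonempty_iff_ne_empty.2 h4
    obtain ⟨d, rfl⟩ := R.face_surj f
    rw [eq_univ_iff_forall]
    intro g
    obtain ⟨d', rfl⟩ := R.face_surj g
    rw [← h3 d d']
    exact hf

theorem Rot.cut_compl (R : Rot G) (S : Finset R.Face) : R.cut Sᶜ = R.cut S := by
  rw [R.cut_eN, R.cut_eN, R.eN_symm]
  rw [Rot.eN, Rot.eN]
  congr 1
  ext d
  simp only [Rot.mem_cl, mem_compl, decide_eq_true_eq, decide_eq_false_iff_not, not_not]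

/-- the odd faces -/
noncomputable def Rot.odd (R : Rot G) : Finset R.Face := {f | Odd (R.size f)}

theorem Rot.cut_parity (R : Rot G) (S : Finset R.Face) : Even (R.cut S + #(S ∩ R.odd)) := by
  have h1 : ∑ f ∈ S, R.size f = #{d : G.Dart | R.face d ∈ S} := by
    simp only [Rot.size]
    rw [card_eq_sum_card_fiberwise (f := R.face) (t := S)]
    · refine sum_congr rfl fun f hf => ?_
      congr 1
      ext d
      simp only [mem_filter, mem_univ, true_and]
      exact ⟨fun h => ⟨by rw [h]; exact hf, h⟩, fun h => h.2⟩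
    · intro d hd
      simpa using hd
  have h2 : #{d : G.Dart | R.face d ∈ S} =
      R.cut S + #{d : G.Dart | R.face d ∈ S ∧ R.face d.symm ∈ S} := by
    rw [Rot.cut, ← card_union_of_disjoint]
    · congr 1
      ext d
      simp only [mem_filter, mem_univ, true_and, mem_union]
      tauto
    · rw [disjoint_filter]
      intro d _ h3 h4
      exact h3.2 h4.2
  have h3 : Even #{d : G.Dart | R.face d ∈ S ∧ R.face d.symm ∈ S} := by
    rw [card_filter, sum_dart]
    refine even_sum _ fun e _ => ?_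
    rw [SimpleGraph.Dart.symm_symm]
    by_cases h4 : R.face e.1 ∈ S <;> by_cases h5 : R.face e.1.symm ∈ S <;> simp [h4, h5]
  have h4 : Even (∑ f ∈ S, R.size f + #(S ∩ R.odd)) := by
    have h5 : #(S ∩ R.odd) = ∑ f ∈ S, if Odd (R.size f) then 1 else 0 := by
      rw [← card_filter]
      congr 1
      ext f
      simp [Rot.odd]
    rw [h5, ← sum_add_distrib]
    refine even_sum _ fun f _ => ?_
    by_cases h6 : Odd (R.size f)
    · rw [if_pos h6]
      exact h6.add_one
    · rw [if_neg h6, add_zero]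
      exact Nat.not_odd_iff_even.1 h6
  rw [h1, h2] at h4
  rw [Nat.even_iff] at *
  omega

theorem Rot.cut_univ (R : Rot G) : R.cut univ = 0 := by
  rw [Rot.cut, card_eq_zero, filter_eq_empty_iff]
  intro d _ h
  exact h.2 (mem_univ _)

/-- the number of odd faces is even -/
theorem Rot.even_odd (R : Rot G) : Even #R.odd := by
  have := R.cut_parity univ
  rwa [R.cut_univ, zero_add, univ_inter] at this

/-- A set with an odd number of odd faces is left by at least five edges. -/
theorem Rot.five_le (R : Rot G) (hG : G.CliqueFree 3) {S : Finset R.Face}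
    (h : Odd #(S ∩ R.odd)) : 5 ≤ R.cut S ∧ Odd (R.cut S) := by
  have h1 := R.cut_parity S
  have h2 := R.cut_zero_or hG S
  rw [Nat.even_iff] at h1
  rw [Nat.odd_iff] at h ⊢
  omega

theorem Rot.four_le_cut (R : Rot G) (hG : G.CliqueFree 3) (hc : G.Connected) {S : Finset R.Face}
    (h1 : S ≠ ∅) (h2 : S ≠ univ) : 4 ≤ R.cut S := by
  rcases R.cut_zero_or hG S with h3 | h3
  · rcases R.cut_zero hc h3 with h4 | h4
    · exact absurd h4 h1
    · exact absurd h4 h2
  · exact h3

end Pool.Agent.Sub392
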