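import Pool.Agent.Work.MP_392c8e_co.Facts

/-!
# Two and three sets of faces
-/

namespace Pool.Agent.Sub392

open Finset

variable {V : Type} [Fintype V] [DecidableEq V] {G : SimpleGraph V} [DecidableRel G.Adj]

section

variable {κ : Type} [DecidableEq κ]

theorem Rot.cut_q [Fintype κ] (R : Rot G) (q : R.Face → κ) (S : Finset R.Face) (T : Finset κ)
    (hS : ∀ f, f ∈ S ↔ q f ∈ T) : R.cut S = ∑ i ∈ T, ∑ j ∈ Tᶜ, R.eN q i j := by
  have h1 : ({d : G.Dart | R.face d ∈ S ∧ R.face d.symm ∉ S} : Finset G.Dart) =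
      ({d : G.Dart | q (R.face d) ∈ T ∧ q (R.face d.symm) ∉ T} : Finset G.Dart) := by
    ext d
    simp only [mem_filter, mem_univ, true_and, hS]
  rw [Rot.cut, h1, card_eq_sum_card_fiberwise
    (f := fun d : G.Dart => (q (R.face d), q (R.face d.symm))) (t := T ×ˢ Tᶜ), sum_product]
  · refine sum_congr rfl fun i hi => sum_congr rfl fun j hj => ?_
    rw [Rot.eN, Rot.cl]
    congr 1
    ext d
    simp only [mem_filter, mem_univ, true_and, Prod.mk.injEq]
    constructor
    · exact fun h => h.2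
    · rintro ⟨rfl, rfl⟩
      exact ⟨⟨hi, by simpa using hj⟩, rfl, rfl⟩
  · intro d hd
    simpa using hd

omit [DecidableEq κ] in
theorem Rot.sees3 [DecidableEq κ] (R : Rot G) (hd : ∀ v, G.degree v ≤ 3) (q : R.Face → κ)
    {i j k : κ} (hij : i ≠ j) (hik : i ≠ k) (hjk : j ≠ k) {v : V} (hi : R.Sees q v i)
    (hj : R.Sees q v j) (hk : R.Sees q v k) :
    R.eN q i j ≠ 0 ∧ R.eN q i k ≠ 0 ∧ R.eN q j k ≠ 0 := by
  refine ⟨R.eN_pos q (v := v) ?_, R.eN_pos q (v := v) ?_, R.eN_pos q (v := v) ?_⟩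
  · rw [R.dg_one q hij hik hjk (hd v) hi hj hk]
    exact one_ne_zero
  · rw [R.dg_one q hik hij hjk.symm (hd v) hi hk hj]
    exact one_ne_zero
  · rw [R.dg_one q hjk hij.symm hik.symm (hd v) hj hk hi]
    exact one_ne_zero

/-- If no vertex can see a third class, the number of edges is zero or at least four. -/
theorem Rot.even_of (R : Rot G) (hG : G.CliqueFree 3) (hd : ∀ v, G.degree v ≤ 3)
    (q : R.Face → κ) {i j k l : κ} (hij : i ≠ j) (hik : i ≠ k) (hil : i ≠ l) (hjk : j ≠ k)
    (hjl : j ≠ l) (hall : ∀ m, m = i ∨ m = j ∨ m = k ∨ m = l)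
    (h1 : R.eN q i k = 0 ∨ R.eN q j k = 0) (h2 : R.eN q i l = 0 ∨ R.eN q j l = 0) :
    R.eN q i j = 0 ∨ 4 ≤ R.eN q i j := by
  refine R.eN_zero_or hG q hij fun v => R.dg_even q hij ?_
  rintro ⟨hi, hj, m, hmi, hmj, hm⟩
  rcases hall m with rfl | rfl | rfl | rfl
  · exact hmi rfl
  · exact hmj rfl
  · have := R.sees3 hd q hij hik hjk hi hj hm
    omega
  · have := R.sees3 hd q hij hil hjl hi hj hm
    omega

theorem Rot.cross0 (R : Rot G) (hG : G.CliqueFree 3) (hd : ∀ v, G.degree v ≤ 3)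
    (q : R.Face → κ) {a b c d : κ} (hab : a ≠ b) (hac : a ≠ c) (had : a ≠ d) (hbc : b ≠ c)
    (hbd : b ≠ d) (hcd : c ≠ d) (hall : ∀ m, m = a ∨ m = b ∨ m = c ∨ m = d)
    (h1 : R.eN q a d = 0) (h2 : R.eN q b c = 0) :
    (R.eN q a b = 0 ∨ 4 ≤ R.eN q a b) ∧ (R.eN q a c = 0 ∨ 4 ≤ R.eN q a c) ∧
      (R.eN q b d = 0 ∨ 4 ≤ R.eN q b d) ∧ (R.eN q c d = 0 ∨ 4 ≤ R.eN q c d) := by
  have h1' : R.eN q d a = 0 := by rw [R.eN_symm, h1]
  have h2' : R.eN q c b = 0 := by rw [R.eN_symm, h2]
  refine ⟨?_, ?_, ?_, ?_⟩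
  · exact R.even_of hG hd q hab hac had hbc hbd hall (Or.inr h2) (Or.inl h1)
  · exact R.even_of hG hd q hac hab had hbc.symm hcd
      (fun m => by rcases hall m with h | h | h | h <;> simp [h]) (Or.inr h2') (Or.inl h1)
  · exact R.even_of hG hd q hbd hbc hab.symm hcd.symm had.symm
      (fun m => by rcases hall m with h | h | h | h <;> simp [h]) (Or.inl h2) (Or.inr h1')
  · exact R.even_of hG hd q hcd hbc.symm hac.symm hbd.symm had.symm
      (fun m => by rcases hall m with h | h | h | h <;> simp [h]) (Or.inl h2') (Or.inr h1')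

omit [Fintype V] [DecidableRel G.Adj] in
theorem dgA_insert {A : Finset G.Dart} {x : G.Dart} (hx : x ∉ A) (v : V) :
    dgA (insert x A) v = dgA A v + ((if x.fst = v then 1 else 0) + (if x.snd = v then 1 else 0)) := by
  rw [dgA, dgA, filter_insert, filter_insert]
  have hn : ∀ p : G.Dart → Prop, ∀ [DecidablePred p], x ∉ A.filter p := by
    intro p _ h
    exact hx (mem_filter.1 h).1
  by_cases h1 : x.fst = v
  · rw [if_pos h1, if_pos h1, card_insert_of_notMem (hn _)]
    by_cases h2 : x.snd = v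
    · rw [if_pos h2, if_pos h2, card_insert_of_notMem (hn _)]
      omega
    · rw [if_neg h2, if_neg h2]
      omega
  · rw [if_neg h1, if_neg h1]
    by_cases h2 : x.snd = v
    · rw [if_pos h2, if_pos h2, card_insert_of_notMem (hn _)]
      omega
    · rw [if_neg h2, if_neg h2]
      omega

omit [Fintype V] [DecidableRel G.Adj] in
theorem dgA_single (x : G.Dart) (v : V) :
    dgA {x} v = ((if x.fst = v then 1 else 0) + (if x.snd = v then 1 else 0)) := by
  have := dgA_insert (A := (∅ : Finset G.Dart)) (x := x) (by simp) v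
  rw [insert_empty_eq] at this
  rw [this]
  simp [dgA]

/-- One edge between the classes `a`, `d` and none between `b`, `c`: the odd vertices of the edges
between `a` and `b` are the ends of the edge which see `b`. -/
theorem Rot.odd_ab (R : Rot G) (hd : ∀ v, G.degree v ≤ 3)
    (q : R.Face → κ) {a b c d : κ} (hab : a ≠ b) (hac : a ≠ c) (had : a ≠ d) (hbc : b ≠ c)
    (hbd : b ≠ d) (hall : ∀ m, m = a ∨ m = b ∨ m = c ∨ m = d)
    {x : G.Dart} (hx : R.cl q a d = {x}) (h2 : R.eN q b c = 0) (v : V)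
    (ho : ¬ Even (dgA (R.cl q a b) v)) : (x.fst = v ∨ x.snd = v) ∧ R.Sees q v b := by
  by_contra hc
  refine ho (R.dg_even q hab ?_)
  rintro ⟨ha, hb, m, hma, hmb, hm⟩
  refine hc ⟨?_, hb⟩
  rcases hall m with rfl | rfl | rfl | rfl
  · exact absurd rfl hma
  · exact absurd rfl hmb
  · exact absurd h2 (R.sees3 hd q hab hac hbc ha hb hm).2.2
  · have h3 := R.dg_one q had hab hbd.symm (hd v) ha hm hb
    rw [hx, dgA_single] at h3
    by_contra h4
    push Not at h4
    rw [if_neg h4.1, if_neg h4.2] at h3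
    exact absurd h3 (by norm_num)

/-- The ends of the only edge between `a` and `d` see `b` or `c` (not both). -/
theorem Rot.end_sees (R : Rot G) (hd : ∀ v, G.degree v ≤ 3)
    (q : R.Face → κ) {a b c d : κ} (hab : a ≠ b) (hac : a ≠ c) (had : a ≠ d) (hbc : b ≠ c)
    (hbd : b ≠ d) (hcd : c ≠ d) (hall : ∀ m, m = a ∨ m = b ∨ m = c ∨ m = d)
    {x : G.Dart} (hx : R.cl q a d = {x}) (h2 : R.eN q b c = 0) {v : V}
    (hv : x.fst = v ∨ x.snd = v) : R.Sees q v a ∧ R.Sees q v d ∧
      ((R.Sees q v b ∧ ¬ R.Sees q v c) ∨ (R.Sees q v c ∧ ¬ R.Sees q v b)) := by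
  have h1 : ¬ Even (dgA (R.cl q a d) v) := by
    rw [hx, dgA_single]
    rcases hv with h | h
    · have h3 : x.snd ≠ v := fun h4 => x.adj.ne (h.trans h4.symm)
      rw [if_pos h, if_neg h3]
      decide
    · have h3 : x.fst ≠ v := fun h4 => x.adj.ne (h4.trans h.symm)
      rw [if_pos h, if_neg h3]
      decide
  have h3 : R.Sees q v a ∧ R.Sees q v d ∧ ∃ k, k ≠ a ∧ k ≠ d ∧ R.Sees q v k := by
    by_contra h4
    exact h1 (R.dg_even q had h4)
  obtain ⟨ha, hdd, m, hma, hmd, hm⟩ := h3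
  refine ⟨ha, hdd, ?_⟩
  have h5 : R.Sees q v b → R.Sees q v c → False := fun h6 h7 =>
    (R.sees3 hd q hab hac hbc ha h6 h7).2.2 h2
  rcases hall m with rfl | rfl | rfl | rfl
  · exact absurd rfl hma
  · exact Or.inl ⟨hm, fun h => h5 hm h⟩
  · exact Or.inr ⟨hm, fun h => h5 h hm⟩
  · exact absurd rfl hmd

/-- If both ends of the only edge between `a` and `d` see `b`. -/
theorem Rot.three_le (R : Rot G) (hG : G.CliqueFree 3) (hd : ∀ v, G.degree v ≤ 3)
    (q : R.Face → κ) {a b c d : κ} (hab : a ≠ b) (hac : a ≠ c) (had : a ≠ d) (hbc : b ≠ c)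
    (hbd : b ≠ d) (hall : ∀ m, m = a ∨ m = b ∨ m = c ∨ m = d)
    {x : G.Dart} (hx : R.cl q a d = {x}) (h2 : R.eN q b c = 0)
    (hs : ∀ v, x.fst = v ∨ x.snd = v → R.Sees q v a ∧ R.Sees q v b ∧ R.Sees q v d) :
    3 ≤ R.eN q a b := by
  have hxm : q (R.face x) = a ∧ q (R.face x.symm) = d := by
    rw [← R.mem_cl, hx]
    exact mem_singleton_self x
  have hxA : x ∉ R.cl q a b := by
    rw [R.mem_cl]
    rintro ⟨_, h⟩
    exact hbd (h.symm.trans hxm.2)
  have h4 : 4 ≤ #(insert x (R.cl q a b)) := by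
    refine four_le hG ?_ ?_ ⟨x, mem_insert_self _ _⟩
    · intro y hy
      rw [mem_insert] at hy ⊢
      rcases hy with rfl | hy
      · rw [R.mem_cl]
        rintro (h | ⟨h, _⟩)
        · exact SimpleGraph.Dart.symm_ne y h
        · exact had (h.symm.trans hxm.2)
      · rintro (h | h)
        · rw [R.mem_cl, h] at hy
          exact hab (hxm.1.symm.trans hy.2)
        · exact R.cl_anti q hab y hy h
    · intro v
      rw [dgA_insert hxA]
      by_cases hv : x.fst = v ∨ x.snd = v
      · have h3 : ((if x.fst = v then 1 else 0) + (if x.snd = v then 1 else 0)) = 1 := by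
          rcases hv with h | h
          · have h3 : x.snd ≠ v := fun h4 => x.adj.ne (h.trans h4.symm)
            rw [if_pos h, if_neg h3]
          · have h3 : x.fst ≠ v := fun h4 => x.adj.ne (h4.trans h.symm)
            rw [if_pos h, if_neg h3]
        obtain ⟨s1, s2, s3⟩ := hs v hv
        rw [h3, R.dg_one q hab had hbd (hd v) s1 s2 s3]
        decide
      · have h3 : Even (dgA (R.cl q a b) v) := by
          by_contra h4
          exact hv (R.odd_ab hd q hab hac had hbc hbd hall hx h2 v h4).1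
        push Not at hv
        rw [if_neg hv.1, if_neg hv.2]
        simpa using h3
  rw [card_insert_of_notMem hxA] at h4
  rw [Rot.eN]
  omega

theorem Rot.cross1 (R : Rot G) (hG : G.CliqueFree 3) (hd : ∀ v, G.degree v ≤ 3)
    (q : R.Face → κ) {a b c d : κ} (hab : a ≠ b) (hac : a ≠ c) (had : a ≠ d) (hbc : b ≠ c)
    (hbd : b ≠ d) (hcd : c ≠ d) (hall : ∀ m, m = a ∨ m = b ∨ m = c ∨ m = d)
    (h1 : R.eN q a d = 1) (h2 : R.eN q b c = 0) :
    (3 ≤ R.eN q a b ∧ 3 ≤ R.eN q b d ∧ (R.eN q a c = 0 ∨ 4 ≤ R.eN q a c) ∧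
      (R.eN q c d = 0 ∨ 4 ≤ R.eN q c d)) ∨
    (3 ≤ R.eN q a c ∧ 3 ≤ R.eN q c d ∧ (R.eN q a b = 0 ∨ 4 ≤ R.eN q a b) ∧
      (R.eN q b d = 0 ∨ 4 ≤ R.eN q b d)) := by
  obtain ⟨x, hx⟩ := card_eq_one.1 h1
  have h2' : R.eN q c b = 0 := by rw [R.eN_symm, h2]
  have hall' : ∀ m, m = d ∨ m = b ∨ m = c ∨ m = a := fun m => by
    rcases hall m with h | h | h | h <;> simp [h]
  have hallc : ∀ m, m = a ∨ m = c ∨ m = b ∨ m = d := fun m => by
    rcases hall m with h | h | h | h <;> simp [h]
  have hallc' : ∀ m, m = d ∨ m = c ∨ m = b ∨ m = a := fun m => by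
    rcases hall m with h | h | h | h <;> simp [h]
  have hx' : R.cl q d a = {x.symm} := by
    ext y
    have h3 : y ∈ R.cl q d a ↔ y.symm ∈ R.cl q a d := by
      rw [R.mem_cl, R.mem_cl, SimpleGraph.Dart.symm_symm]
      tauto
    rw [h3, hx, mem_singleton, mem_singleton]
    constructor
    · intro h
      rw [← h, SimpleGraph.Dart.symm_symm]
    · intro h
      rw [h, SimpleGraph.Dart.symm_symm]
  have hends : ∀ v, (x.symm.fst = v ∨ x.symm.snd = v) ↔ (x.fst = v ∨ x.snd = v) := by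
    intro v
    show (x.snd = v ∨ x.fst = v) ↔ _
    tauto
  have hE : ∀ {v}, (x.fst = v ∨ x.snd = v) → _ := fun {v} hv =>
    R.end_sees hd q hab hac had hbc hbd hcd hall hx h2 (v := v) hv
  -- both ends see `b` or none
  have key : ∀ u w, (x.fst = u ∧ x.snd = w ∨ x.fst = w ∧ x.snd = u) → R.Sees q u b →
      ¬ R.Sees q w b → False := by
    intro u w huw hu hw
    have hue : x.fst = u ∨ x.snd = u := by tauto
    have h3 : Even (∑ v, dgA (R.cl q a b) v) := by
      rw [sum_dgA]
      exact even_two_mul _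
    rw [even_sum_iff_even_card_odd] at h3
    have hs : ({v | Odd (dgA (R.cl q a b) v)} : Finset V) = {u} := by
      ext v
      simp only [mem_filter, mem_univ, true_and, mem_singleton]
      constructor
      · intro h
        obtain ⟨h4, h5⟩ := R.odd_ab hd q hab hac had hbc hbd hall hx h2 v
          (Nat.not_even_iff_odd.2 h)
        have h6 : v = u ∨ v = w := by
          rcases huw with ⟨rfl, rfl⟩ | ⟨rfl, rfl⟩ <;> rcases h4 with h | h <;> simp [h]
        rcases h6 with h6 | h6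
        · exact h6
        · rw [h6] at h5
          exact absurd h5 hw
      · rintro rfl
        obtain ⟨s1, s2, _⟩ := hE hue
        rw [R.dg_one q hab had hbd (hd _) s1 hu s2]
        exact odd_one
    rw [hs, card_singleton] at h3
    exact absurd h3 (by decide)
  by_cases hb : R.Sees q x.fst b
  · left
    have hb2 : R.Sees q x.snd b := by
      by_contra h
      exact key _ _ (Or.inl ⟨rfl, rfl⟩) hb h
    have hee : ∀ v, (x.fst = v ∨ x.snd = v) → R.Sees q v a ∧ R.Sees q v b ∧ R.Sees q v d ∧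
        ¬ R.Sees q v c := by
      intro v hv
      obtain ⟨s1, s2, s3⟩ := hE hv
      have hvb : R.Sees q v b := by
        rcases hv with rfl | rfl
        · exact hb
        · exact hb2
      refine ⟨s1, hvb, s2, ?_⟩
      rcases s3 with s3 | s3
      · exact s3.2
      · exact absurd hvb s3.2
    refine ⟨?_, ?_, ?_, ?_⟩
    · exact R.three_le hG hd q hab hac had hbc hbd hall hx h2 fun v hv =>
        ⟨(hee v hv).1, (hee v hv).2.1, (hee v hv).2.2.1⟩
    · rw [R.eN_symm]
      exact R.three_le hG hd q hbd.symm hcd.symm had.symm hbc hab.symm hall' hx' h2 fun v hv =>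
        ⟨(hee v ((hends v).1 hv)).2.2.1, (hee v ((hends v).1 hv)).2.1, (hee v ((hends v).1 hv)).1⟩
    · refine R.eN_zero_or hG q hac fun v => ?_
      by_contra h
      obtain ⟨h4, h5⟩ := R.odd_ab hd q hac hab had hbc.symm hcd hallc hx h2' v h
      exact (hee v h4).2.2.2 h5
    · rw [R.eN_symm]
      refine R.eN_zero_or hG q hcd.symm fun v => ?_
      by_contra h
      obtain ⟨h4, h5⟩ := R.odd_ab hd q hcd.symm hbd.symm had.symm hbc.symm hac.symm hallc' hx'
        h2' v h
      exact (hee v ((hends v).1 h4)).2.2.2 h5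
  · right
    have hb2 : ¬ R.Sees q x.snd b := by
      intro h
      exact key _ _ (Or.inr ⟨rfl, rfl⟩) h hb
    have hee : ∀ v, (x.fst = v ∨ x.snd = v) → R.Sees q v a ∧ R.Sees q v c ∧ R.Sees q v d ∧
        ¬ R.Sees q v b := by
      intro v hv
      obtain ⟨s1, s2, s3⟩ := hE hv
      have hvb : ¬ R.Sees q v b := by
        rcases hv with rfl | rfl
        · exact hb
        · exact hb2
      refine ⟨s1, ?_, s2, hvb⟩
      rcases s3 with s3 | s3
      · exact absurd s3.1 hvb
      · exact s3.1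
    refine ⟨?_, ?_, ?_, ?_⟩
    · exact R.three_le hG hd q hac hab had hbc.symm hcd hallc hx h2' fun v hv =>
        ⟨(hee v hv).1, (hee v hv).2.1, (hee v hv).2.2.1⟩
    · rw [R.eN_symm]
      exact R.three_le hG hd q hcd.symm hbd.symm had.symm hbc.symm hac.symm hallc' hx' h2'
        fun v hv => ⟨(hee v ((hends v).1 hv)).2.2.1, (hee v ((hends v).1 hv)).2.1,
          (hee v ((hends v).1 hv)).1⟩
    · refine R.eN_zero_or hG q hab fun v => ?_
      by_contra h
      obtain ⟨h4, h5⟩ := R.odd_ab hd q hab hac had hbc hbd hall hx h2 v h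
      exact (hee v h4).2.2.2 h5
    · rw [R.eN_symm]
      refine R.eN_zero_or hG q hbd.symm fun v => ?_
      by_contra h
      obtain ⟨h4, h5⟩ := R.odd_ab hd q hbd.symm hcd.symm had.symm hbc hab.symm hall' hx' h2 v h
      exact (hee v ((hends v).1 h4)).2.2.2 h5

end

theorem Rot.cut_up (R : Rot G) (S : Finset R.Face) : R.cut S = ∑ e : Up G,
    ((if R.face e.1 ∈ S ∧ R.face e.1.symm ∉ S then 1 else 0) +
      (if R.face e.1.symm ∈ S ∧ R.face e.1 ∉ S then 1 else 0)) := by
  rw [Rot.cut, card_filter, sum_dart]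
  refine sum_congr rfl fun e _ => ?_
  rw [SimpleGraph.Dart.symm_symm]

/-- The three-set lemma: the cells of odd weight. -/
theorem Rot.three_sets (R : Rot G) (A B C : Finset R.Face) :
    R.cut (A ∩ B ∩ C) + R.cut (A \ (B ∪ C)) + R.cut (B \ (A ∪ C)) + R.cut (C \ (A ∪ B)) ≤
      R.cut A + R.cut B + R.cut C := by
  simp only [R.cut_up, ← sum_add_distrib]
  refine sum_le_sum fun e _ => ?_
  generalize R.face e.1 = x
  generalize R.face e.1.symm = y
  by_cases h1 : x ∈ A <;> by_cases h2 : x ∈ B <;> by_cases h3 : x ∈ C <;>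
  by_cases h4 : y ∈ A <;> by_cases h5 : y ∈ B <;> by_cases h6 : y ∈ C <;>
  simp [h1, h2, h3, h4, h5, h6]

/-- The three-set lemma: the cells of even weight. -/
theorem Rot.three_sets' (R : Rot G) (A B C : Finset R.Face) :
    R.cut ((A ∩ B) \ C) + R.cut ((A ∩ C) \ B) + R.cut ((B ∩ C) \ A) + R.cut (A ∪ B ∪ C) ≤
      R.cut A + R.cut B + R.cut C := by
  simp only [R.cut_up, ← sum_add_distrib]
  refine sum_le_sum fun e _ => ?_
  generalize R.face e.1 = x
  generalize R.face e.1.symm = y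
  by_cases h1 : x ∈ A <;> by_cases h2 : x ∈ B <;> by_cases h3 : x ∈ C <;>
  by_cases h4 : y ∈ A <;> by_cases h5 : y ∈ B <;> by_cases h6 : y ∈ C <;>
  simp [h1, h2, h3, h4, h5, h6]

/-- zero or at least four -/
def Zf (n : ℕ) : Prop := n = 0 ∨ 4 ≤ n

/-- Two sets of faces cut the sphere into four parts. -/
theorem Rot.cross (R : Rot G) (hG : G.CliqueFree 3) (hd : ∀ v, G.degree v ≤ 3)
    (A B : Finset R.Face) : ∃ e12 e13 e14 e23 e24 e34 : ℕ,
    R.cut A = e13 + e14 + e23 + e24 ∧ R.cut B = e12 + e14 + e23 + e34 ∧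
    R.cut (A ∩ B) = e12 + e13 + e14 ∧ R.cut (A \ B) = e12 + e23 + e24 ∧
    R.cut (B \ A) = e13 + e23 + e34 ∧ R.cut (A ∪ B) = e14 + e24 + e34 ∧
    (e14 + e23 = 0 → Zf e12 ∧ Zf e13 ∧ Zf e24 ∧ Zf e34) ∧
    (e14 = 1 → e23 = 0 → (3 ≤ e12 ∧ 3 ≤ e24 ∧ Zf e13 ∧ Zf e34) ∨
      (3 ≤ e13 ∧ 3 ≤ e34 ∧ Zf e12 ∧ Zf e24)) ∧
    (e23 = 1 → e14 = 0 → (3 ≤ e12 ∧ 3 ≤ e13 ∧ Zf e24 ∧ Zf e34) ∨
      (3 ≤ e24 ∧ 3 ≤ e34 ∧ Zf e12 ∧ Zf e13)) := by
  set q : R.Face → Bool × Bool := fun f => (decide (f ∈ A), decide (f ∈ B)) with hq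
  have hA := R.cut_q q A {(true, true), (true, false)} (by
    intro f
    by_cases h1 : f ∈ A <;> by_cases h2 : f ∈ B <;> simp [hq, h1, h2])
  have hB := R.cut_q q B {(true, true), (false, true)} (by
    intro f
    by_cases h1 : f ∈ A <;> by_cases h2 : f ∈ B <;> simp [hq, h1, h2])
  have h1 := R.cut_q q (A ∩ B) {(true, true)} (by
    intro f
    by_cases h1 : f ∈ A <;> by_cases h2 : f ∈ B <;> simp [hq, h1, h2])
  have h2 := R.cut_q q (A \ B) {(true, false)} (by
    intro f
    by_cases h1 : f ∈ A <;> by_cases h2 : f ∈ B <;> simp [hq, h1, h2])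
  have h3 := R.cut_q q (B \ A) {(false, true)} (by
    intro f
    by_cases h1 : f ∈ A <;> by_cases h2 : f ∈ B <;> simp [hq, h1, h2])
  have h4 := R.cut_q q (A ∪ B) {(true, true), (true, false), (false, true)} (by
    intro f
    by_cases h1 : f ∈ A <;> by_cases h2 : f ∈ B <;> simp [hq, h1, h2])
  have c1 : ({(true, true), (true, false)} : Finset (Bool × Bool))ᶜ =
    {(false, true), (false, false)} := by decide
  have c2 : ({(true, true), (false, true)} : Finset (Bool × Bool))ᶜ =
    {(true, false), (false, false)} := by decide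
  have c3 : ({(true, true)} : Finset (Bool × Bool))ᶜ =
    {(true, false), (false, true), (false, false)} := by decide
  have c4 : ({(true, false)} : Finset (Bool × Bool))ᶜ =
    {(true, true), (false, true), (false, false)} := by decide
  have c5 : ({(false, true)} : Finset (Bool × Bool))ᶜ =
    {(true, true), (true, false), (false, false)} := by decide
  have c6 : ({(true, true), (true, false), (false, true)} : Finset (Bool × Bool))ᶜ =
    {(false, false)} := by decide
  have s1 := R.eN_symm q (true, true) (true, false)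
  have s2 := R.eN_symm q (true, true) (false, true)
  have s3 := R.eN_symm q (true, false) (false, true)
  have n12 : ((true, true) : Bool × Bool) ≠ (true, false) := by decide
  have n13 : ((true, true) : Bool × Bool) ≠ (false, true) := by decide
  have n14 : ((true, true) : Bool × Bool) ≠ (false, false) := by decide
  have n23 : ((true, false) : Bool × Bool) ≠ (false, true) := by decide
  have n24 : ((true, false) : Bool × Bool) ≠ (false, false) := by decide
  have n34 : ((false, true) : Bool × Bool) ≠ (false, false) := by decide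
  have hall : ∀ m : Bool × Bool, m = (true, true) ∨ m = (true, false) ∨ m = (false, true) ∨
    m = (false, false) := by decide
  have hall2 : ∀ m : Bool × Bool, m = (true, false) ∨ m = (true, true) ∨ m = (false, false) ∨
    m = (false, true) := by decide
  have t1 := R.cross0 hG hd q n12 n13 n14 n23 n24 n34 hall
  have t2 := R.cross1 hG hd q n12 n13 n14 n23 n24 n34 hall
  have t3 := R.cross1 hG hd q n12.symm n24 n23 n14 n13 n34.symm hall2
  have s4 := R.eN_symm q (true, false) (true, true)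
  have s5 := R.eN_symm q (false, false) (false, true)
  refine ⟨R.eN q (true, true) (true, false), R.eN q (true, true) (false, true),
    R.eN q (true, true) (false, false), R.eN q (true, false) (false, true),
    R.eN q (true, false) (false, false), R.eN q (false, true) (false, false), ?_, ?_, ?_, ?_, ?_,
    ?_, ?_, ?_, ?_⟩
  · rw [hA, c1, sum_pair n12, sum_pair n34, sum_pair n34]
    ring
  · rw [hB, c2, sum_pair n13, sum_pair n24, sum_pair n24, ← s3]
    ring
  · rw [h1, c3, sum_singleton, sum_insert (by decide), sum_pair n34]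
    ring
  · rw [h2, c4, sum_singleton, sum_insert (by decide), sum_pair n34, ← s1]
    ring
  · rw [h3, c5, sum_singleton, sum_insert (by decide), sum_pair n24, ← s2, ← s3]
    ring
  · rw [h4, c6, sum_insert (by decide), sum_pair n23, sum_singleton, sum_singleton, sum_singleton]
    ring
  · intro h
    exact t1 (by omega) (by omega)
  · intro h5 h6
    rcases t2 h5 h6 with ⟨w1, w2, w3, w4⟩ | ⟨w1, w2, w3, w4⟩
    · exact Or.inl ⟨w1, w2, w3, w4⟩
    · exact Or.inr ⟨w1, w2, w3, w4⟩
  · intro h5 h6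
    rcases t3 h5 h6 with ⟨w1, w2, w3, w4⟩ | ⟨w1, w2, w3, w4⟩
    · rw [← s1] at w1
      rw [s5] at w4
      exact Or.inl ⟨w1, w2, w3, w4⟩
    · rw [← s1] at w3
      rw [s5] at w2
      exact Or.inr ⟨w1, w2, w3, w4⟩

end Pool.Agent.Sub392
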