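import Pool.Agent.Work.MP_392c8e_co.Regions

/-!
# Six odd faces: not all ten splittings are bad
-/

namespace Pool.Agent.Sub392

open Finset

variable {V : Type} [Fintype V] [DecidableEq V] {G : SimpleGraph V} [DecidableRel G.Adj]

/-- The turn at the head of a dart between two regions. -/
theorem Rot.turn (R : Rot G) (hd : ∀ v, G.degree v ≤ 3) (q : R.Face → Fin 6)
    (huniq : ∀ a b : G.Dart, q (R.face a) = q (R.face b) →
      q (R.face a.symm) = q (R.face b.symm) → q (R.face a) ≠ q (R.face a.symm) → a = b)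
    {x y z : G.Dart} (hx : q (R.face x) ≠ q (R.face x.symm)) (hy : y = R.next x)
    (hz : z = R.rot y) :
    q (R.face z) ≠ q (R.face x) ∧ q (R.face z) ≠ q (R.face x.symm) ∧ R.rot z = x.symm ∧
      z.fst = x.snd ∧ R.face y = R.face x ∧ R.face z = R.face y.symm := by
  have fy : R.face y = R.face x := by rw [hy, R.face_next]
  have fz : R.face z = R.face y.symm := by rw [hz, R.face_rot]
  have ry : R.rot x.symm = y := by rw [hy, R.rot_eq, SimpleGraph.Dart.symm_symm]
  have vy : y.fst = x.snd := by rw [hy, R.fst_next]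
  have vz : z.fst = x.snd := by rw [hz, R.fst_rot, vy]
  have vx : x.symm.fst = x.snd := rfl
  have hne : x.fst ≠ x.snd := x.adj.ne
  have hxy : x.symm ≠ y := by
    intro h
    apply hx
    rw [h, fy]
  have hB : q (R.face z) ≠ q (R.face x.symm) := by
    intro h
    have h1 := huniq y x (congrArg q fy) (by rw [← fz]; exact h) (by rw [fy, ← fz, h]; exact hx)
    apply hne
    rw [← vy, h1]
  have hxz : x.symm ≠ z := by
    intro h
    exact hB (by rw [h])
  have hyz : y ≠ z := by
    intro h
    have h1 : R.rot y = y := by rw [← hz]; exact h.symm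
    have h2 := R.cyc y x.symm (vy.trans vx.symm)
    exact hxy (h2.eq_of_left h1).symm
  have hD : ({d : G.Dart | d.fst = x.snd} : Finset G.Dart) = {x.symm, y, z} := by
    symm
    apply eq_of_subset_of_card_le
    · intro d hd
      simp only [mem_insert, mem_singleton] at hd
      rcases hd with rfl | rfl | rfl
      · simp
      · simpa using vy
      · simpa using vz
    · rw [G.dart_fst_fiber_card_eq_degree x.snd, card_insert_of_notMem (by simp [hxy, hxz]),
        card_insert_of_notMem (by simp [hyz]), card_singleton]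
      exact hd _
  have hrz : R.rot z = x.symm := by
    have h1 : R.rot z ∈ ({d : G.Dart | d.fst = x.snd} : Finset G.Dart) := by
      simp only [mem_filter, mem_univ, true_and]
      rw [R.fst_rot, vz]
    rw [hD] at h1
    simp only [mem_insert, mem_singleton] at h1
    rcases h1 with h | h | h
    · exact h
    · exact absurd (R.rot.injective (h.trans ry.symm)).symm hxz
    · exact absurd (R.rot.injective (h.trans hz)).symm hyz
  refine ⟨?_, hB, hrz, vz, fy, fz⟩
  intro h
  have h1 : R.face z.symm = R.face x.symm := by rw [← R.face_rot, hrz]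
  have h2 := huniq z x h (congrArg q h1) (by rw [h1, h]; exact hx)
  apply hne
  rw [← vz, h2]

namespace Ten

variable {R : Rot G} {L : Lab R 6}

theorem false (X : Ten R L) (hG : G.CliqueFree 3) (hc : G.Connected) (hd : ∀ v, G.degree v ≤ 3)
    (h2 : ∀ S : Finset R.Face, #(S ∩ R.odd) = 2 → 8 ≤ R.cut S) : False := by
  choose q hq using X.no_rest hG hc hd h2
  have hqi : ∀ f i, q f = i ↔ dep (X.c f) i ≠ 0 := by
    intro f i
    constructor
    · rintro rfl
      exact hq f
    · intro h
      exact dep_uniq (hq f) h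
  have hcl : ∀ i, R.cut (R.Cls q {i}) = 5 := by
    intro i
    have : R.Cls q {i} = X.B i 2 := by
      ext f
      rw [R.mem_Cls, mem_singleton, hqi, X.dep_iff]
    rw [this]
    exact X.B_eq hG i (by norm_num)
  have hqo : ∀ i, q (L.o i) = i := fun i => (hqi _ _).2 (X.dep_o i)
  have hle : ∀ i j, i ≠ j → R.eN q i j ≤ 1 := by
    intro i j hij
    have h1 := R.cut_two q hij
    have h3 : #(R.Cls q {i, j} ∩ R.odd) = 2 := by
      rw [L.card_t]
      have : L.t (R.Cls q {i, j}) = {i, j} := by
        ext k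
        rw [L.mem_t, R.mem_Cls, hqo]
      rw [this, card_pair hij]
    have h4 := h2 _ h3
    rw [hcl, hcl] at h1
    omega
  have hone : ∀ i j, i ≠ j → R.eN q i j = 1 := by
    intro i j hij
    have h1 : ∑ k ∈ ({i} : Finset (Fin 6))ᶜ, R.eN q i k = 5 := by
      rw [← hcl i, R.cut_Cls, sum_singleton]
    have h3 : ∑ k ∈ ({i} : Finset (Fin 6))ᶜ, R.eN q i k = ∑ k ∈ ({i} : Finset (Fin 6))ᶜ, 1 := by
      rw [h1, sum_const, card_compl, card_singleton, Fintype.card_fin]
      rfl
    exact (sum_eq_sum_iff_of_le fun k hk => hle i k (by simpa using Ne.symm (by simpa using hk))).1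
      h3 j (by simpa using Ne.symm hij)
  have hex : ∀ i j, i ≠ j → ∃ d, R.cl q i j = {d} := fun i j hij => card_eq_one.1 (hone i j hij)
  have huniq : ∀ a b : G.Dart, q (R.face a) = q (R.face b) →
      q (R.face a.symm) = q (R.face b.symm) → q (R.face a) ≠ q (R.face a.symm) → a = b := by
    intro a b h3 h4 h5
    obtain ⟨d, hd⟩ := hex _ _ h5
    have ha : a ∈ R.cl q (q (R.face a)) (q (R.face a.symm)) := (R.mem_cl q).2 ⟨rfl, rfl⟩
    have hb : b ∈ R.cl q (q (R.face a)) (q (R.face a.symm)) := (R.mem_cl q).2 ⟨h3.symm, h4.symm⟩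
    rw [hd, mem_singleton] at ha hb
    rw [ha, hb]
  have hdart : ∀ i j, ∃ d : G.Dart, i ≠ j → q (R.face d) = i ∧ q (R.face d.symm) = j := by
    intro i j
    by_cases hij : i = j
    · obtain ⟨d, _⟩ := hex 0 1 (by decide)
      exact ⟨d, fun h => absurd hij h⟩
    · obtain ⟨d, hd⟩ := hex i j hij
      have : d ∈ R.cl q i j := by rw [hd]; exact mem_singleton_self d
      exact ⟨d, fun _ => (R.mem_cl q).1 this⟩
  choose D hD using hdart
  set T : Fin 6 → Fin 6 → Fin 6 := fun i j => q (R.face (R.next (D i j)).symm) with hT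
  have hDu : ∀ i j (a : G.Dart), i ≠ j → q (R.face a) = i → q (R.face a.symm) = j →
      D i j = a := by
    intro i j a hij h3 h4
    obtain ⟨h5, h6⟩ := hD i j hij
    exact huniq _ _ (h5.trans h3.symm) (h6.trans h4.symm) (by rw [h5, h6]; exact hij)
  -- the turn at the head of the dart between the regions `i` and `j`
  have hturn : ∀ i j, i ≠ j → ∃ z : G.Dart, T i j ≠ i ∧ T i j ≠ j ∧ R.rot z = (D i j).symm ∧
      z.fst = (D i j).snd ∧ q (R.face z) = T i j ∧ D j (T i j) = z.symm := by
    intro i j hij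
    obtain ⟨h5, h6⟩ := hD i j hij
    obtain ⟨t1, t2, t3, t4, t5, t6⟩ := R.turn hd q huniq (x := D i j) (by rw [h5, h6]; exact hij)
      rfl rfl
    set z := R.rot (R.next (D i j)) with hz
    have h7 : q (R.face z) = T i j := by rw [t6]
    rw [h7, h5] at t1
    rw [h7, h6] at t2
    refine ⟨z, t1, t2, t3, t4, h7, ?_⟩
    apply hDu _ _ _ (Ne.symm t2)
    · rw [← R.face_rot, t3, h6]
    · rw [SimpleGraph.Dart.symm_symm]
      exact h7
  refine no_mts T ?_ ?_ ?_
  · intro i j hij
    obtain ⟨z, t1, t2, _⟩ := hturn i j hij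
    exact ⟨t1, t2⟩
  · intro i j hij
    obtain ⟨z, t1, t2, t3, t4, t5, t6⟩ := hturn i j hij
    obtain ⟨h5, h6⟩ := hD i j hij
    have : R.next (D j (T i j)) = (D i j).symm := by
      rw [t6, ← R.rot_eq]
      exact t3
    show q (R.face (R.next (D j (T i j))).symm) = i
    rw [this, SimpleGraph.Dart.symm_symm]
    exact h5
  · intro i j hij h
    obtain ⟨z, t1, t2, t3, t4, t5, t6⟩ := hturn i j hij
    obtain ⟨h5, h6⟩ := hD i j hij
    obtain ⟨z', s1, s2, s3, s4, s5, s6⟩ := hturn (T i j) j t2
    rw [h] at s1 s2 s5 s6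
    have e1 : D j i = (D i j).symm := hDu _ _ _ (Ne.symm hij) h6
      (by rw [SimpleGraph.Dart.symm_symm]; exact h5)
    have e2 : z' = D i j := by
      have := s6.symm.trans e1
      simpa using congrArg SimpleGraph.Dart.symm this
    have e3 : D (T i j) j = z := by
      apply hDu _ _ _ t2 t5
      rw [← R.face_rot, t3, h6]
    have e4 : z = (D i j).symm := by
      apply SimpleGraph.Dart.ext
      apply Prod.ext
      · exact t4
      · show z.snd = (D i j).fst
        rw [← e2, s4, e3]
    rw [e4, h6] at t5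
    exact t2 t5.symm

end Ten

theorem Rot.no_ten (R : Rot G) (hG : G.CliqueFree 3) (hc : G.Connected)
    (hd : ∀ v, G.degree v ≤ 3) (hO : #R.odd = 6)
    (h2 : ∀ S : Finset R.Face, #(S ∩ R.odd) = 2 → 8 ≤ R.cut S)
    (h3 : ∀ X, X ⊆ R.odd → #X = 3 → ∃ S : Finset R.Face, S ∩ R.odd = X ∧ R.cut S ≤ 9) :
    False := by
  obtain ⟨L⟩ := Lab.nonempty (R := R) hO
  have h4 : ∀ s : Fin 10, ∃ S : Finset R.Face, L.t S = tab s ∧ R.cut S ≤ 9 := by
    intro s
    obtain ⟨S, hS, hcut⟩ := h3 ((tab s).image L.o) (by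
      intro f hf
      obtain ⟨i, _, rfl⟩ := mem_image.1 hf
      exact (L.mem _).2 ⟨i, rfl⟩) (by rw [card_image_of_injective _ L.inj, tab_card])
    refine ⟨S, ?_, hcut⟩
    rw [← L.image_t] at hS
    exact (image_injective L.inj) hS
  choose Z hZ hcut using h4
  exact Ten.false ⟨Z, hZ, hcut⟩ hG hc hd h2

end Pool.Agent.Sub392
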