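import Pool.Agent.Work.MP_392c8e_co.Split
import Pool.Agent.Work.MP_392c8e_co.NoTen

/-!
# At most six odd faces
-/

namespace Pool.Agent.Sub392

open Finset

variable {V : Type} [Fintype V] [DecidableEq V] {G : SimpleGraph V} [DecidableRel G.Adj]

theorem Rot.exists_split (R : Rot G) (hG : G.CliqueFree 3) (hc : G.Connected)
    (hd : ∀ v, G.degree v ≤ 3) (h6 : #R.odd ≤ 6) : ∃ X, R.Split X := by
  have he := R.even_odd
  obtain ⟨k, hk⟩ := he
  have h1 : #R.odd = 0 ∨ #R.odd = 2 ∨ #R.odd = 4 ∨ #R.odd = 6 := by omega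
  rcases h1 with h | h | h | h
  · exact ⟨∅, R.split_zero h⟩
  · exact R.split_two h
  · exact R.split_four hG h
  · exact R.split_six hG hc hd h fun hO h2 h3 => R.no_ten hG hc hd hO h2 h3

theorem Rot.six (R : Rot G) (hP : R.Plane) (hG : G.CliqueFree 3)
    (hd : ∀ v, G.degree v ≤ 3) (h6 : #R.odd ≤ 6) :
    ∃ c : V → ℕ, (∀ v, c v < 11) ∧
      ∀ u v, G.Adj u v → 4 ≤ |(c u : ℤ) - c v| ∧ |(c u : ℤ) - c v| ≤ 7 := by
  obtain ⟨X, hX⟩ := R.exists_split hG hP.1 hd h6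
  exact R.colour_of_split hP hG h6 hX

end Pool.Agent.Sub392
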