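import Pool.Agent.Work.MP_392c8e_co.Labels

/-!
# Splittings of the odd faces when there is a bad pair
-/

namespace Pool.Agent.Sub392

open Finset

variable {V : Type} [Fintype V] [DecidableEq V] {G : SimpleGraph V} [DecidableRel G.Adj]
variable {R : Rot G} {n : ℕ}

/-- change of labels -/
def Lab.perm (L : Lab R n) (g : Equiv.Perm (Fin n)) : Lab R n where
  o := fun i => L.o (g i)
  inj := fun _ _ h => g.injective (L.inj h)
  mem := by
    intro f
    rw [L.mem]
    constructor
    · rintro ⟨i, rfl⟩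
      exact ⟨g.symm i, by simp⟩
    · rintro ⟨i, rfl⟩
      exact ⟨g i, rfl⟩

theorem Lab.t_perm (L : Lab R n) (g : Equiv.Perm (Fin n)) (S : Finset R.Face) :
    ((L.perm g).t S).image g = L.t S := by
  ext i
  simp only [mem_image, Lab.mem_t, Lab.perm]
  constructor
  · rintro ⟨j, hj, rfl⟩
    exact hj
  · intro h
    exact ⟨g.symm i, by simpa using h, by simp⟩

theorem Lab.bad_perm (L : Lab R n) (g : Equiv.Perm (Fin n)) {T : Finset (Fin n)} {k : ℕ}
    (h : L.Bad (T.image g) k) : (L.perm g).Bad T k := by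
  obtain ⟨S, hS, hk⟩ := h
  refine ⟨S, ?_, hk⟩
  rw [← L.t_perm g] at hS
  exact image_injective g.injective hS

theorem exists_perm (i j k : Fin 6) (hij : i ≠ j) (hik : i ≠ k) (hjk : j ≠ k) :
    ∃ g : Equiv.Perm (Fin 6), g 0 = i ∧ g 1 = j ∧ g 2 = k := by
  obtain ⟨g1, a1⟩ : ∃ g1 : Equiv.Perm (Fin 6), g1 0 = i :=
    ⟨Equiv.swap 0 i, Equiv.swap_apply_left _ _⟩
  obtain ⟨g2, b1, b2⟩ : ∃ g2 : Equiv.Perm (Fin 6), g2 0 = i ∧ g2 1 = j := by
    refine ⟨g1 * Equiv.swap 1 (g1.symm j), ?_, ?_⟩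
    · rw [Equiv.Perm.mul_apply, Equiv.swap_apply_of_ne_of_ne, a1]
      · decide
      · intro h
        apply hij
        rw [← a1, h, Equiv.apply_symm_apply]
    · rw [Equiv.Perm.mul_apply, Equiv.swap_apply_left, Equiv.apply_symm_apply]
  refine ⟨g2 * Equiv.swap 2 (g2.symm k), ?_, ?_, ?_⟩
  · rw [Equiv.Perm.mul_apply, Equiv.swap_apply_of_ne_of_ne, b1]
    · decide
    · intro h
      apply hik
      rw [← b1, h, Equiv.apply_symm_apply]
  · rw [Equiv.Perm.mul_apply, Equiv.swap_apply_of_ne_of_ne, b2]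
    · decide
    · intro h
      apply hjk
      rw [← b2, h, Equiv.apply_symm_apply]
  · rw [Equiv.Perm.mul_apply, Equiv.swap_apply_left, Equiv.apply_symm_apply]

/-- A good splitting of the six odd faces. -/
def Lab.Good (L : Lab R 6) (X : Finset (Fin 6)) : Prop :=
  #X = 3 ∧ (∀ P, #P = 2 → (P ⊆ X ∨ P ⊆ Xᶜ) → ¬ L.Bad P 6) ∧ ¬ L.Bad X 9

theorem Lab.good_of (L : Lab R 6) {a b c d e f : Fin 6}
    (hX : ∀ P : Finset (Fin 6), #P = 2 → (P ⊆ {a, b, c} ∨ P ⊆ ({a, b, c} : Finset (Fin 6))ᶜ) →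
      P = {a, b} ∨ P = {a, c} ∨ P = {b, c} ∨ P = {d, e} ∨ P = {d, f} ∨ P = {e, f})
    (h3 : #({a, b, c} : Finset (Fin 6)) = 3)
    (h1 : ¬ L.Bad {a, b} 6) (h2 : ¬ L.Bad {a, c} 6) (h4 : ¬ L.Bad {b, c} 6)
    (h5 : ¬ L.Bad {d, e} 6) (h6 : ¬ L.Bad {d, f} 6) (h7 : ¬ L.Bad {e, f} 6)
    (h8 : ¬ L.Bad {a, b, c} 9) : L.Good {a, b, c} := by
  refine ⟨h3, ?_, h8⟩
  intro P hP hs
  rcases hX P hP hs with rfl | rfl | rfl | rfl | rfl | rfl <;> assumption

/-- Two bad pairs with a common element. -/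
theorem Lab.case1 (L : Lab R 6) (hG : G.CliqueFree 3) (hc : G.Connected)
    (hd : ∀ v, G.degree v ≤ 3) (h01 : L.Bad {0, 1} 6) (h02 : L.Bad {0, 2} 6) :
    ∃ X, L.Good X := by
  have c5 : L.Bad {0, 1, 2} 5 := by
    have h := L.B1 hG hd h01 h02 (by decide) (by decide) (by decide) (by decide)
    rwa [show ({0, 1} ∪ {0, 2} : Finset (Fin 6)) = {0, 1, 2} by decide] at h
  have n12 : ¬ L.Bad {1, 2} 6 := fun h =>
    L.A1 hG h01 h02 h (by decide) (by decide) (by decide) (by decide)
  have n03 : ¬ L.Bad {0, 3} 6 := fun h =>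
    L.B2 hG hc hd (L.B1 hG hd h01 h (by decide) (by decide) (by decide) (by decide)) c5
      (by decide) (by decide) (by decide) (by decide) (by decide) (by decide) (by decide)
      (by decide)
  have n04 : ¬ L.Bad {0, 4} 6 := fun h =>
    L.B2 hG hc hd (L.B1 hG hd h01 h (by decide) (by decide) (by decide) (by decide)) c5
      (by decide) (by decide) (by decide) (by decide) (by decide) (by decide) (by decide)
      (by decide)
  have n05 : ¬ L.Bad {0, 5} 6 := fun h =>
    L.B2 hG hc hd (L.B1 hG hd h01 h (by decide) (by decide) (by decide) (by decide)) c5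
      (by decide) (by decide) (by decide) (by decide) (by decide) (by decide) (by decide)
      (by decide)
  have n13 : ¬ L.Bad {1, 3} 6 := fun h =>
    L.B2 hG hc hd (L.B1 hG hd h01 h (by decide) (by decide) (by decide) (by decide)) c5
      (by decide) (by decide) (by decide) (by decide) (by decide) (by decide) (by decide)
      (by decide)
  have n14 : ¬ L.Bad {1, 4} 6 := fun h =>
    L.B2 hG hc hd (L.B1 hG hd h01 h (by decide) (by decide) (by decide) (by decide)) c5
      (by decide) (by decide) (by decide) (by decide) (by decide) (by decide) (by decide)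
      (by decide)
  have n15 : ¬ L.Bad {1, 5} 6 := fun h =>
    L.B2 hG hc hd (L.B1 hG hd h01 h (by decide) (by decide) (by decide) (by decide)) c5
      (by decide) (by decide) (by decide) (by decide) (by decide) (by decide) (by decide)
      (by decide)
  have n23 : ¬ L.Bad {2, 3} 6 := fun h =>
    L.B2 hG hc hd (L.B1 hG hd h02 h (by decide) (by decide) (by decide) (by decide)) c5
      (by decide) (by decide) (by decide) (by decide) (by decide) (by decide) (by decide)
      (by decide)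
  have n24 : ¬ L.Bad {2, 4} 6 := fun h =>
    L.B2 hG hc hd (L.B1 hG hd h02 h (by decide) (by decide) (by decide) (by decide)) c5
      (by decide) (by decide) (by decide) (by decide) (by decide) (by decide) (by decide)
      (by decide)
  have n25 : ¬ L.Bad {2, 5} 6 := fun h =>
    L.B2 hG hc hd (L.B1 hG hd h02 h (by decide) (by decide) (by decide) (by decide)) c5
      (by decide) (by decide) (by decide) (by decide) (by decide) (by decide) (by decide)
      (by decide)
  have e12 : ∀ a b : Fin 6, ({0, 1, 2} : Finset (Fin 6)) \ {0, a, b} = {1, 2} →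
      ({0, a, b} : Finset (Fin 6)) \ {0, 1, 2} = {a, b} → ¬ L.Bad {a, b} 6 →
      Odd #({0, a, b} : Finset (Fin 6)) → Odd #(({0, 1, 2} : Finset (Fin 6)) ∩ {0, a, b}) →
      Even #({a, b} : Finset (Fin 6)) →
      Odd #(({0, 1, 2} : Finset (Fin 6)) ∪ {0, a, b}) → ¬ L.Bad {0, a, b} 9 := by
    intro a b h1 h2 h3 h4 h5 h6 h7 h8
    exact L.B3 hG hd c5 h8 (by decide) h4 h5 (by rw [h1]; decide) (by rw [h1]; exact n12)
      (by rw [h2]; exact h6) (by rw [h2]; exact h3) h7
  by_cases n34 : L.Bad {3, 4} 6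
  · by_cases n35 : L.Bad {3, 5} 6
    · have n45 : ¬ L.Bad {4, 5} 6 := fun h =>
        L.A1 hG n34 n35 h (by decide) (by decide) (by decide) (by decide)
      exact ⟨_, L.good_of (a := 0) (b := 4) (c := 5) (d := 1) (e := 2) (f := 3) (by decide)
        (by decide) n04 n05 n45 n12 n13 n23
        (e12 4 5 (by decide) (by decide) n45 (by decide) (by decide) (by decide) (by decide))⟩
    · exact ⟨_, L.good_of (a := 0) (b := 3) (c := 5) (d := 1) (e := 2) (f := 4) (by decide)
        (by decide) n03 n05 n35 n12 n14 n24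
        (e12 3 5 (by decide) (by decide) n35 (by decide) (by decide) (by decide) (by decide))⟩
  · exact ⟨_, L.good_of (a := 0) (b := 3) (c := 4) (d := 1) (e := 2) (f := 5) (by decide)
      (by decide) n03 n04 n34 n12 n15 n25
      (e12 3 4 (by decide) (by decide) n34 (by decide) (by decide) (by decide) (by decide))⟩

/-- The bad pairs are disjoint. -/
theorem Lab.case2 (L : Lab R 6) (hG : G.CliqueFree 3) (h01 : L.Bad {0, 1} 6)
    (hm : ∀ P Q : Finset (Fin 6), #P = 2 → #Q = 2 → #(P ∩ Q) = 1 → L.Bad P 6 → ¬ L.Bad Q 6) :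
    ∃ X, L.Good X := by
  have n02 : ¬ L.Bad {0, 2} 6 := hm _ _ (by decide) (by decide) (by decide) h01
  have n03 : ¬ L.Bad {0, 3} 6 := hm _ _ (by decide) (by decide) (by decide) h01
  have n04 : ¬ L.Bad {0, 4} 6 := hm _ _ (by decide) (by decide) (by decide) h01
  have n05 : ¬ L.Bad {0, 5} 6 := hm _ _ (by decide) (by decide) (by decide) h01
  have n12 : ¬ L.Bad {1, 2} 6 := hm _ _ (by decide) (by decide) (by decide) h01
  have n13 : ¬ L.Bad {1, 3} 6 := hm _ _ (by decide) (by decide) (by decide) h01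
  have n14 : ¬ L.Bad {1, 4} 6 := hm _ _ (by decide) (by decide) (by decide) h01
  have n15 : ¬ L.Bad {1, 5} 6 := hm _ _ (by decide) (by decide) (by decide) h01
  have key : ∀ a b c d : Fin 6, ¬ L.Bad {a, b} 6 → ¬ L.Bad {c, d} 6 →
      ({0, a, b} : Finset (Fin 6)) \ ({0, 1} ∪ {0, c, d}) = {a, b} →
      ({0, c, d} : Finset (Fin 6)) \ ({0, 1} ∪ {0, a, b}) = {c, d} →
      Odd #(({0, 1} : Finset (Fin 6)) ∩ {0, a, b} ∩ {0, c, d}) →
      Odd #(({0, 1} : Finset (Fin 6)) \ ({0, a, b} ∪ {0, c, d})) →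
      Even #({a, b} : Finset (Fin 6)) → Even #({c, d} : Finset (Fin 6)) →
      ¬ L.Bad {0, a, b} 9 ∨ ¬ L.Bad {0, c, d} 9 := by
    intro a b c d h1 h2 h3 h4 h5 h6 h7 h8
    by_contra hcon
    push Not at hcon
    exact L.A2 hG h01 hcon.1 hcon.2 h5 h6 (by rw [h3]; exact h7) (by rw [h3]; exact h1)
      (by rw [h4]; exact h8) (by rw [h4]; exact h2)
  by_cases h : L.Bad {2, 3} 6 ∨ L.Bad {4, 5} 6
  · have n24 : ¬ L.Bad {2, 4} 6 := by
      rcases h with h | h
      · exact hm _ _ (by decide) (by decide) (by decide) h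
      · exact hm _ _ (by decide) (by decide) (by decide) h
    have n35 : ¬ L.Bad {3, 5} 6 := by
      rcases h with h | h
      · exact hm _ _ (by decide) (by decide) (by decide) h
      · exact hm _ _ (by decide) (by decide) (by decide) h
    rcases key 2 4 3 5 n24 n35 (by decide) (by decide) (by decide) (by decide) (by decide)
      (by decide) with h9 | h9
    · exact ⟨_, L.good_of (a := 0) (b := 2) (c := 4) (d := 1) (e := 3) (f := 5) (by decide)
        (by decide) n02 n04 n24 n13 n15 n35 h9⟩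
    · exact ⟨_, L.good_of (a := 0) (b := 3) (c := 5) (d := 1) (e := 2) (f := 4) (by decide)
        (by decide) n03 n05 n35 n12 n14 n24 h9⟩
  · push Not at h
    rcases key 2 3 4 5 h.1 h.2 (by decide) (by decide) (by decide) (by decide) (by decide)
      (by decide) with h9 | h9
    · exact ⟨_, L.good_of (a := 0) (b := 2) (c := 3) (d := 1) (e := 4) (f := 5) (by decide)
        (by decide) n02 n03 h.1 n14 n15 h.2 h9⟩
    · exact ⟨_, L.good_of (a := 0) (b := 4) (c := 5) (d := 1) (e := 2) (f := 3) (by decide)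
        (by decide) n04 n05 h.2 n12 n13 h.1 h9⟩

/-- If there is a bad pair, there is a good splitting. -/
theorem Lab.good (L : Lab R 6) (hG : G.CliqueFree 3) (hc : G.Connected)
    (hd : ∀ v, G.degree v ≤ 3) {P : Finset (Fin 6)} (hP : #P = 2) (hb : L.Bad P 6) :
    ∃ (L' : Lab R 6) (X : Finset (Fin 6)), L'.Good X := by
  by_cases h : ∃ P Q : Finset (Fin 6), #P = 2 ∧ #Q = 2 ∧ #(P ∩ Q) = 1 ∧ L.Bad P 6 ∧ L.Bad Q 6
  · obtain ⟨P, Q, h1, h2, h3, h4, h5⟩ := h
    obtain ⟨i, hi⟩ := card_eq_one.1 h3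
    have hiP : i ∈ P ∧ i ∈ Q := by
      rw [← mem_inter, hi]
      exact mem_singleton_self i
    obtain ⟨j, hj⟩ : ∃ j, P.erase i = {j} := card_eq_one.1 (by rw [card_erase_of_mem hiP.1, h1])
    obtain ⟨k, hk⟩ : ∃ k, Q.erase i = {k} := card_eq_one.1 (by rw [card_erase_of_mem hiP.2, h2])
    have hP' : P = {i, j} := by rw [← insert_erase hiP.1, hj]
    have hQ' : Q = {i, k} := by rw [← insert_erase hiP.2, hk]
    have hij : i ≠ j := by
      have : j ∈ P.erase i := by rw [hj]; exact mem_singleton_self j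
      exact (mem_erase.1 this).1.symm
    have hik : i ≠ k := by
      have : k ∈ Q.erase i := by rw [hk]; exact mem_singleton_self k
      exact (mem_erase.1 this).1.symm
    have hjk : j ≠ k := by
      rintro rfl
      rw [hP', hQ', inter_self, card_pair hij] at h3
      exact absurd h3 (by decide)
    obtain ⟨g, g0, g1, g2⟩ := exists_perm i j k hij hik hjk
    have t1 : (L.perm g).Bad {0, 1} 6 := L.bad_perm g (by
      rw [image_insert, image_singleton, g0, g1, ← hP']
      exact h4)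
    have t2 : (L.perm g).Bad {0, 2} 6 := L.bad_perm g (by
      rw [image_insert, image_singleton, g0, g2, ← hQ']
      exact h5)
    exact ⟨_, (L.perm g).case1 hG hc hd t1 t2⟩
  · push Not at h
    obtain ⟨i, j, hij, rfl⟩ := card_eq_two.1 hP
    have hex : ∀ i j : Fin 6, ∃ k : Fin 6, i ≠ k ∧ j ≠ k := by decide
    obtain ⟨k, hk⟩ := hex i j
    obtain ⟨g, g0, g1, _⟩ := exists_perm i j k hij hk.1 hk.2
    have t1 : (L.perm g).Bad {0, 1} 6 := L.bad_perm g (by
      rw [image_insert, image_singleton, g0, g1]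
      exact hb)
    refine ⟨_, (L.perm g).case2 hG t1 ?_⟩
    intro P Q h1 h2 h3 h4 h5
    have hb' : ∀ {T}, (L.perm g).Bad T 6 → L.Bad (T.image g) 6 := by
      rintro T ⟨S, rfl, hk⟩
      exact ⟨S, (L.t_perm g S).symm, hk⟩
    refine h (P.image g) (Q.image g) ?_ ?_ ?_ (hb' h4) (hb' h5)
    · rw [card_image_of_injective _ g.injective, h1]
    · rw [card_image_of_injective _ g.injective, h2]
    · rw [← image_inter _ _ g.injective, card_image_of_injective _ g.injective, h3]

end Pool.Agent.Sub392
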