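import Pool.Agent.Work.MP_392c8e_co.Exact
import Pool.Agent.Work.MP_974d84_co.MHoffman

/-!
# From charges of the faces to circular colourings
-/

namespace Pool.Agent.Sub392

open Finset

variable {V : Type} [Fintype V] [DecidableEq V] {G : SimpleGraph V} [DecidableRel G.Adj]

/-- the difference of the numbers of upward darts on the two sides -/
noncomputable def Rot.sg (R : Rot G) (f : R.Face) : ℤ :=
  ∑ e : Up G, ((if R.face e.1 = f then 1 else 0) - (if R.face e.1.symm = f then 1 else 0))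

theorem Rot.size_eq (R : Rot G) (f : R.Face) : (R.size f : ℤ) =
    ∑ e : Up G, ((if R.face e.1 = f then 1 else 0) + (if R.face e.1.symm = f then 1 else 0)) := by
  rw [Rot.size, card_filter, Nat.cast_sum, sum_dart]
  push_cast
  rfl

theorem Rot.sg_mod (R : Rot G) (f : R.Face) : (2 : ℤ) ∣ (R.size f : ℤ) - R.sg f := by
  rw [R.size_eq, Rot.sg, ← sum_sub_distrib]
  refine dvd_sum fun e _ => ?_
  split_ifs <;> norm_num

theorem Rot.cut_eq (R : Rot G) (S : Finset R.Face) : (R.cut S : ℤ) =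
    ∑ e : Up G, ((if R.face e.1 ∈ S ∧ R.face e.1.symm ∉ S then 1 else 0) +
      (if R.face e.1.symm ∈ S ∧ R.face e.1 ∉ S then 1 else 0)) := by
  rw [Rot.cut, card_filter, Nat.cast_sum, sum_dart]
  push_cast
  simp only [SimpleGraph.Dart.symm_symm]

theorem Rot.sum_sg (R : Rot G) (S : Finset R.Face) : ∑ f ∈ S, R.sg f =
    ∑ e : Up G, ((if R.face e.1 ∈ S ∧ R.face e.1.symm ∉ S then 1 else 0) -
      (if R.face e.1.symm ∈ S ∧ R.face e.1 ∉ S then 1 else 0)) := by
  simp only [Rot.sg]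
  rw [sum_comm]
  refine sum_congr rfl fun e _ => ?_
  rw [sum_sub_distrib, sum_ite_eq, sum_ite_eq]
  by_cases h1 : R.face e.1 ∈ S <;> by_cases h2 : R.face e.1.symm ∈ S <;> simp [h1, h2]

theorem cast_cases {z : ℤ} (h4 : 4 ≤ z) (h7 : z ≤ 7) : ((z : ZMod 11) = 4 ∨ (z : ZMod 11) = 5 ∨
    (z : ZMod 11) = 6 ∨ (z : ZMod 11) = 7) := by
  interval_cases z <;> decide

theorem neg_cases {a : ZMod 11} (h : a = 4 ∨ a = 5 ∨ a = 6 ∨ a = 7) :
    -a = 4 ∨ -a = 5 ∨ -a = 6 ∨ -a = 7 := by
  revert a; decide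

theorem val_cases {a b : ZMod 11} (h : b - a = 4 ∨ b - a = 5 ∨ b - a = 6 ∨ b - a = 7) :
    4 ≤ |(a.val : ℤ) - b.val| ∧ |(a.val : ℤ) - b.val| ≤ 7 := by
  revert a b; decide

/-- **Charges give colourings.**  If the faces have integral charges `e` with the parity of their
lengths and total charge `0`, and `11 |e(S)| ≤ 3 cut(S)` for all sets `S` of faces, then there is a
colouring of the vertices by `0, …, 10` with differences between `4` and `7` along the edges. -/
theorem Rot.colouring (R : Rot G) (hP : R.Plane) (e : R.Face → ℤ)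
    (he : ∀ f, (2 : ℤ) ∣ e f - R.size f) (hs : ∑ f, e f = 0)
    (hcut : ∀ S : Finset R.Face, 11 * ∑ f ∈ S, e f ≤ 3 * (R.cut S : ℤ)) :
    ∃ c : V → ℕ, (∀ v, c v < 11) ∧
      ∀ u v, G.Adj u v → 4 ≤ |(c u : ℤ) - c v| ∧ |(c u : ℤ) - c v| ≤ 7 := by
  classical
  have hn : ∀ f, ∃ n : ℤ, e f + R.sg f = 2 * n := by
    intro f
    obtain ⟨a, ha⟩ := he f
    obtain ⟨b, hb⟩ := R.sg_mod f
    exact ⟨a - b + R.size f, by linarith⟩
  choose n hn using hn
  have htot : ∑ f, R.sg f = 0 := by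
    rw [R.sum_sg univ]
    simp
  obtain ⟨y, hy, hyD⟩ := MP974d84.hoffmanE (V := R.Face) (E := Up G) (fun a => R.face a.1)
    (fun a => R.face a.1.symm) (fun _ => 4) (fun _ => 7) (fun _ => by norm_num)
    (fun f => 11 * n f) (by
      have h1 : 2 * ∑ f, n f = 0 := by
        rw [mul_sum, ← sum_congr rfl fun f _ => hn f, sum_add_distrib, hs, htot, add_zero]
      rw [← mul_sum]
      have : ∑ f, n f = 0 := by linarith
      rw [this, mul_zero]) (by
      intro Z
      have h1 : 2 * ∑ f ∈ Z, n f = ∑ f ∈ Z, e f + ∑ f ∈ Z, R.sg f := by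
        rw [mul_sum, ← sum_congr rfl fun f _ => hn f, sum_add_distrib]
      have h2 := hcut Z
      have h3 : ∑ a : Up G, MP974d84.cap (fun a : Up G => R.face a.1) (fun a => R.face a.1.symm)
          (fun _ => 4) (fun _ => 7) Z a =
          7 * ∑ a : Up G, (if R.face a.1 ∈ Z ∧ R.face a.1.symm ∉ Z then (1 : ℤ) else 0) -
          4 * ∑ a : Up G, (if R.face a.1.symm ∈ Z ∧ R.face a.1 ∉ Z then (1 : ℤ) else 0) := by
        rw [mul_sum, mul_sum, ← sum_sub_distrib]
        refine sum_congr rfl fun a _ => ?_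
        unfold MP974d84.cap
        by_cases h1 : R.face a.1 ∈ Z <;> by_cases h2 : R.face a.1.symm ∈ Z <;> simp [h1, h2]
      rw [h3, ← mul_sum]
      rw [R.cut_eq, sum_add_distrib] at h2
      rw [R.sum_sg, sum_sub_distrib] at h1
      linarith)
  set x : G.Dart → ZMod 11 := fun d =>
    if h : (Fintype.equivFin V d.fst : ℕ) < Fintype.equivFin V d.snd then ((y ⟨d, h⟩ : ℤ) : ZMod 11)
    else -((y ⟨d.symm, (up_or d).resolve_left h⟩ : ℤ) : ZMod 11) with hxdef
  have hx1 : ∀ a : Up G, x a.1 = ((y a : ℤ) : ZMod 11) := by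
    intro a
    rw [hxdef]
    simp only
    rw [dif_pos a.2]
    rfl
  have hx2 : ∀ a : Up G, x a.1.symm = -((y a : ℤ) : ZMod 11) := by
    intro a
    have ha := a.2
    rw [hxdef]
    simp only
    rw [dif_neg (by
      intro h
      have h' : (Fintype.equivFin V a.1.snd : ℕ) < Fintype.equivFin V a.1.fst := h
      omega)]
    congr 3
  have hx : ∀ d, x d.symm = -x d := by
    intro d
    rcases up_or d with h | h
    · rw [hx2 ⟨d, h⟩, hx1 ⟨d, h⟩]
    · have := hx2 ⟨d.symm, h⟩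
      simp only [SimpleGraph.Dart.symm_symm] at this
      rw [this, hx1 ⟨d.symm, h⟩, neg_neg]
  have hex : ∃ p : V → ZMod 11, ∀ d, x d = p d.snd - p d.fst := by
    have : Fact (Nat.Prime 11) := ⟨by norm_num⟩
    refine R.exact hP x hx ?_
    intro f
    rw [sum_filter, sum_dart]
    have h1 := congrArg (Int.cast : ℤ → ZMod 11) (hyD f)
    have h11 : (11 : ZMod 11) = 0 := rfl
    simp only [MP974d84.D] at h1
    push_cast at h1
    rw [h11, zero_mul] at h1
    refine Eq.trans ?_ h1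
    refine sum_congr rfl fun a _ => ?_
    rw [hx1, hx2]
    split_ifs <;> simp
  obtain ⟨p, hp⟩ := hex
  refine ⟨fun v => (p v).val, fun v => ZMod.val_lt _, fun u v huv => val_cases ?_⟩
  have hd : x ⟨(u, v), huv⟩ = p v - p u := hp ⟨(u, v), huv⟩
  rw [← hd]
  rcases up_or (⟨(u, v), huv⟩ : G.Dart) with h | h
  · have h1 := hx1 ⟨_, h⟩
    simp only at h1
    rw [h1]
    exact cast_cases (hy _).1 (hy _).2
  · have h2 := hx2 ⟨_, h⟩
    simp only [SimpleGraph.Dart.symm_symm] at h2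
    rw [h2]
    exact neg_cases (cast_cases (hy _).1 (hy _).2)

end Pool.Agent.Sub392
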