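import Mathlib

/-!
# Plane graphs given by rotations

A finite simple graph drawn on the sphere is described by the cyclic order of the edges around each
vertex.  The faces are the cycles of the face permutation; the drawing is on the sphere if Euler's
formula holds.
-/

namespace Pool.Agent.Sub392

open Finset

/-- A rotation of a graph: a permutation of its darts (oriented edges) whose cycles are the sets of
all darts leaving a vertex. -/
structure Rot {V : Type} (G : SimpleGraph V) where
  rot : Equiv.Perm G.Dart
  fst_rot : ∀ d, (rot d).fst = d.fst
  cyc : ∀ d d' : G.Dart, d.fst = d'.fst → rot.SameCycle d d'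

variable {V : Type} {G : SimpleGraph V}

/-- Reversal of darts. -/
def flip (G : SimpleGraph V) : Equiv.Perm G.Dart where
  toFun := SimpleGraph.Dart.symm
  invFun := SimpleGraph.Dart.symm
  left_inv := SimpleGraph.Dart.symm_symm
  right_inv := SimpleGraph.Dart.symm_symm

/-- The face permutation: the dart `u → v` is followed by the dart that follows `v → u` in the
rotation at `v`. -/
def Rot.next (R : Rot G) : Equiv.Perm G.Dart := (flip G).trans R.rot

/-- The faces: the cycles of the face permutation. -/
def Rot.Face (R : Rot G) : Type := Quotient (Equiv.Perm.SameCycle.setoid R.next)

/-- The face on a fixed side of a dart. -/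
def Rot.face (R : Rot G) (d : G.Dart) : R.Face := Quotient.mk _ d

noncomputable instance (R : Rot G) : DecidableEq R.Face := Classical.decEq _

noncomputable instance [Fintype V] [DecidableRel G.Adj] [DecidableEq V] (R : Rot G) :
    Fintype R.Face := by
  classical
  exact Fintype.ofSurjective R.face Quotient.mk_surjective

variable [Fintype V] [DecidableEq V] [DecidableRel G.Adj]

/-- The length of a face (an edge with both sides in the face is counted twice). -/
noncomputable def Rot.size (R : Rot G) (f : R.Face) : ℕ := #{d : G.Dart | R.face d = f}

/-- The number of edges with exactly one side in the set `S` of faces. -/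
noncomputable def Rot.cut (R : Rot G) (S : Finset R.Face) : ℕ :=
  #{d : G.Dart | R.face d ∈ S ∧ R.face d.symm ∉ S}

/-- The drawing is on the sphere: the graph is connected and Euler's formula holds. -/
def Rot.Plane (R : Rot G) : Prop :=
  G.Connected ∧ Fintype.card V + Fintype.card R.Face = #G.edgeFinset + 2

end Pool.Agent.Sub392
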