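import Pool.Agent.Work.MP_392c8e_co.Facts

/-!
# Six classes of faces with one edge between any two of them

They would give a Mendelsohn triple system of order six.
-/

namespace Pool.Agent.Sub392

open Finset

/-- the map with `0 ↦ 0` and given values at the other places -/
def V5 (s1 s2 s3 s4 s5 : Fin 6) : Fin 6 → Fin 6 := ![0, s1, s2, s3, s4, s5]

/-- a permutation of five points without cycles of length two is a cycle of length five -/
def Leaf5 (s1 s2 s3 s4 s5 : Fin 6) : Prop :=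
    (∀ a : Fin 6, a ≠ 0 → V5 s1 s2 s3 s4 s5 (V5 s1 s2 s3 s4 s5 a) ≠ a) →
    V5 s1 s2 s3 s4 s5 (V5 s1 s2 s3 s4 s5 (V5 s1 s2 s3 s4 s5 (V5 s1 s2 s3 s4 s5
      (V5 s1 s2 s3 s4 s5 1)))) = 1 ∧
    ∀ x : Fin 6, x = 0 ∨ x = 1 ∨ x = V5 s1 s2 s3 s4 s5 1 ∨
      x = V5 s1 s2 s3 s4 s5 (V5 s1 s2 s3 s4 s5 1) ∨
      x = V5 s1 s2 s3 s4 s5 (V5 s1 s2 s3 s4 s5 (V5 s1 s2 s3 s4 s5 1)) ∨
      x = V5 s1 s2 s3 s4 s5 (V5 s1 s2 s3 s4 s5 (V5 s1 s2 s3 s4 s5 (V5 s1 s2 s3 s4 s5 1)))

instance (s1 s2 s3 s4 s5 : Fin 6) : Decidable (Leaf5 s1 s2 s3 s4 s5) := by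
  unfold Leaf5
  infer_instance

set_option maxRecDepth 10000 in
theorem five_cycle : ∀ s1 : Fin 6, (s1 ≠ 0 ∧ s1 ≠ 1) → ∀ s2 : Fin 6, (s2 ≠ 0 ∧ s2 ≠ 2 ∧ s2 ≠ s1) →
    ∀ s3 : Fin 6, (s3 ≠ 0 ∧ s3 ≠ 3 ∧ s3 ≠ s1 ∧ s3 ≠ s2) →
    ∀ s4 : Fin 6, (s4 ≠ 0 ∧ s4 ≠ 4 ∧ s4 ≠ s1 ∧ s4 ≠ s2 ∧ s4 ≠ s3) →
    ∀ s5 : Fin 6, (s5 ≠ 0 ∧ s5 ≠ 5 ∧ s5 ≠ s1 ∧ s5 ≠ s2 ∧ s5 ≠ s3 ∧ s5 ≠ s4) →
    Leaf5 s1 s2 s3 s4 s5 := by
  decide +kernel

theorem mts_aux {L : Fin 6 → Fin 6 → Fin 6} (h1 : ∀ i j, i ≠ j → L i j ≠ i)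
    (h2 : ∀ i j, i ≠ j → L i j ≠ j) (h3 : ∀ i j, i ≠ j → L j (L i j) = i)
    {a b c d e : Fin 6} (ha : a ≠ 0) (hc0 : c ≠ 0) (hd0 : d ≠ 0) (he0 : e ≠ 0)
    (hac : a ≠ c) (hbc : b ≠ c) (hab : L a 0 = b)
    (hcd : L c 0 = d) (hea : L e 0 = a)
    (hall : ∀ x, x = 0 ∨ x = a ∨ x = b ∨ x = c ∨ x = d ∨ x = e) :
    L a b = c ∧ L b c = a := by
  have hca : L c a = b := by
    rcases hall (L c a) with h | h | h | h | h | h
    · exfalso
      have := h3 c a hac.symm
      rw [h, hab] at this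
      exact hbc this
    · exact absurd h (h2 c a hac.symm)
    · exact h
    · exact absurd h (h1 c a hac.symm)
    · exfalso
      have k1 := h3 c a hac.symm
      rw [h] at k1
      have k2 : L d c = a := by
        have := h3 a d (by
          rintro rfl
          exact h2 c a hac.symm h)
        rwa [k1] at this
      have k3 := h3 c 0 hc0
      rw [hcd] at k3
      have k4 := h3 0 d hd0.symm
      rw [k3, k2] at k4
      exact ha k4
    · exfalso
      have k1 := h3 c a hac.symm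
      rw [h] at k1
      have k3 := h3 e 0 he0
      rw [hea] at k3
      have k4 := h3 0 a ha.symm
      rw [k3, k1] at k4
      exact hc0 k4
  have k1 := h3 c a hac.symm
  rw [hca] at k1
  refine ⟨k1, ?_⟩
  have k2 := h3 a b (by
    rintro rfl
    exact h2 c a hac.symm hca)
  rwa [k1] at k2

/-- There is no pure Mendelsohn triple system of order six. -/
theorem no_mts {L : Fin 6 → Fin 6 → Fin 6} (h1 : ∀ i j, i ≠ j → L i j ≠ i)
    (h2 : ∀ i j, i ≠ j → L i j ≠ j) (h3 : ∀ i j, i ≠ j → L j (L i j) = i)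
    (h4 : ∀ i j, i ≠ j → L i j ≠ L j i) : False := by
  obtain ⟨S, hSd⟩ : ∃ S, V5 (L 1 0) (L 2 0) (L 3 0) (L 4 0) (L 5 0) = S := ⟨_, rfl⟩
  have hS : ∀ a : Fin 6, a ≠ 0 → S a = L a 0 := by
    intro a ha
    rw [← hSd]
    fin_cases a
    · exact absurd rfl ha
    all_goals rfl
  have hinj : ∀ a b : Fin 6, a ≠ 0 → b ≠ 0 → L a 0 = L b 0 → a = b := by
    intro a b ha hb h
    have k1 := h3 a 0 ha
    have k2 := h3 b 0 hb
    rw [h, k2] at k1
    exact k1.symm
  have h2c : ∀ a : Fin 6, a ≠ 0 → L (L a 0) 0 ≠ a := by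
    intro a ha h
    have k2 := h3 (L a 0) 0 (h2 a 0 ha)
    rw [h] at k2
    exact h4 0 a ha.symm k2
  have hne : ∀ a b : Fin 6, a ≠ 0 → b ≠ 0 → a ≠ b → L a 0 ≠ L b 0 :=
    fun a b ha hb hab h => hab (hinj a b ha hb h)
  have hq := five_cycle (L 1 0) ⟨h2 _ _ (by decide), h1 _ _ (by decide)⟩
    (L 2 0) ⟨h2 _ _ (by decide), h1 _ _ (by decide), hne _ _ (by decide) (by decide) (by decide)⟩
    (L 3 0) ⟨h2 _ _ (by decide), h1 _ _ (by decide), hne _ _ (by decide) (by decide) (by decide),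
      hne _ _ (by decide) (by decide) (by decide)⟩
    (L 4 0) ⟨h2 _ _ (by decide), h1 _ _ (by decide), hne _ _ (by decide) (by decide) (by decide),
      hne _ _ (by decide) (by decide) (by decide), hne _ _ (by decide) (by decide) (by decide)⟩
    (L 5 0) ⟨h2 _ _ (by decide), h1 _ _ (by decide), hne _ _ (by decide) (by decide) (by decide),
      hne _ _ (by decide) (by decide) (by decide), hne _ _ (by decide) (by decide) (by decide),
      hne _ _ (by decide) (by decide) (by decide)⟩ (by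
    intro a ha
    rw [hSd, hS a ha, hS _ (h2 a 0 ha)]
    exact h2c a ha)
  rw [hSd, hS 1 (by decide)] at hq
  obtain ⟨q1, q2⟩ := hq
  obtain ⟨b, hb⟩ : ∃ b, L 1 0 = b := ⟨_, rfl⟩
  have hb0 : b ≠ 0 := by rw [← hb]; exact h2 _ _ (by decide)
  rw [hb, hS _ hb0] at q1 q2
  obtain ⟨c, hc⟩ : ∃ c, L b 0 = c := ⟨_, rfl⟩
  have hc0 : c ≠ 0 := by rw [← hc]; exact h2 _ _ hb0
  rw [hc, hS _ hc0] at q1 q2
  obtain ⟨d, hd⟩ : ∃ d, L c 0 = d := ⟨_, rfl⟩
  have hd0 : d ≠ 0 := by rw [← hd]; exact h2 _ _ hc0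
  rw [hd, hS _ hd0] at q1 q2
  obtain ⟨e, he⟩ : ∃ e, L d 0 = e := ⟨_, rfl⟩
  have he0 : e ≠ 0 := by rw [← he]; exact h2 _ _ hd0
  rw [he, hS _ he0] at q1
  rw [he] at q2
  have hac : (1 : Fin 6) ≠ c := by
    rintro rfl
    rw [← hb] at hc
    exact h2c 1 (by decide) hc
  have hbd : b ≠ d := by
    rintro rfl
    rw [← hc] at hd
    exact h2c b hb0 hd
  have hbc : b ≠ c := by
    rw [← hc]
    exact (h1 b 0 hb0).symm
  have hcd : c ≠ d := by
    rw [← hd]
    exact (h1 c 0 hc0).symm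
  have k1 := mts_aux h1 h2 h3 (by decide) hc0 hd0 he0 hac hbc hb hd q1 q2
  have k2 := mts_aux h1 h2 h3 (a := b) (b := c) (c := d) (d := e) (e := 1) hb0 hd0 he0
    (by decide) hbd hcd hc he hb
    (fun x => by rcases q2 x with h | h | h | h | h | h <;> simp [h])
  -- `L b c = 1` and `L b c = d`
  have k3 : d = 1 := k2.1.symm.trans k1.2
  have k4 : c = e := hinj c e hc0 he0 (by rw [hd, q1, k3])
  have k5 : d = b := hinj d b hd0 hb0 (by rw [he, hc, k4])
  exact hbd k5.symm

variable {V : Type} [Fintype V] [DecidableEq V] {G : SimpleGraph V} [DecidableRel G.Adj]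

/-- Around a vertex which sees three classes. -/
theorem Rot.third (R : Rot G) (hd : ∀ v, G.degree v ≤ 3) {κ : Type} [DecidableEq κ]
    (q : R.Face → κ) {i j : κ} (hij : i ≠ j) {y : G.Dart} (hy : R.cl q i j = {y}) :
    q (R.face (R.rot (R.rot y))) ≠ i ∧ q (R.face (R.rot (R.rot y))) ≠ j ∧
      R.rot (R.rot (R.rot y)) = y := by
  have hym : q (R.face y) = i ∧ q (R.face y.symm) = j := by
    rw [← R.mem_cl, hy]
    exact mem_singleton_self y
  have h0 : ¬ Even (dgA (R.cl q i j) y.fst) := by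
    rw [hy, dgA, filter_singleton, filter_singleton, if_pos rfl,
      if_neg (fun h => y.adj.ne h.symm), card_singleton, card_empty]
    decide
  have h1 : R.Sees q y.fst i ∧ R.Sees q y.fst j ∧ ∃ k, k ≠ i ∧ k ≠ j ∧ R.Sees q y.fst k := by
    by_contra h
    exact h0 (R.dg_even q hij h)
  obtain ⟨_, _, k, hki, hkj, z, hz, hzk⟩ := h1
  have hry : q (R.face (R.rot y)) = j := by rw [R.face_rot]; exact hym.2
  have hyr : y ≠ R.rot y := by
    intro h
    rw [← h] at hry
    exact hij (hym.1.symm.trans hry)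
  have hyz : y ≠ z := by
    rintro rfl
    exact hki (hzk.symm.trans hym.1)
  have hrz : R.rot y ≠ z := by
    intro h
    rw [h] at hry
    exact hkj (hzk.symm.trans hry)
  have hD : ({d : G.Dart | d.fst = y.fst} : Finset G.Dart) = {y, R.rot y, z} := by
    symm
    apply eq_of_subset_of_card_le
    · intro d hd
      simp only [mem_insert, mem_singleton] at hd
      rcases hd with rfl | rfl | rfl
      · simp
      · simp [R.fst_rot]
      · simpa using hz
    · rw [G.dart_fst_fiber_card_eq_degree, card_insert_of_notMem (by simp [hyr, hyz]),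
        card_insert_of_notMem (by simp [hrz]), card_singleton]
      exact hd _
  have hmem : ∀ d : G.Dart, d.fst = y.fst → d = y ∨ d = R.rot y ∨ d = z := by
    intro d hd
    have := (Finset.ext_iff.1 hD d).1 (by simpa using hd)
    simpa using this
  have hcyc : ∀ a b : G.Dart, a.fst = y.fst → b.fst = y.fst → R.rot.SameCycle a b :=
    fun a b ha hb => R.cyc a b (ha.trans hb.symm)
  have f1 : (R.rot y).fst = y.fst := R.fst_rot y
  have f2 : (R.rot (R.rot y)).fst = y.fst := (R.fst_rot _).trans f1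
  have hrr : R.rot (R.rot y) = z := by
    rcases hmem _ f2 with h | h | h
    · exfalso
      have hh : ∀ d, (fun d => (d = y ∨ d = R.rot y)) (R.rot d) =
          (fun d => (d = y ∨ d = R.rot y)) d := by
        intro d
        simp only [eq_iff_iff]
        constructor
        · rintro (h' | h')
          · right
            exact R.rot.injective (h'.trans h.symm)
          · left
            exact R.rot.injective h'
        · rintro (rfl | rfl)
          · right; rfl
          · left; exact h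
      have := sameCycle_inv (h := fun d => (d = y ∨ d = R.rot y)) hh (hcyc y z rfl hz)
      simp only [true_or, eq_iff_iff, true_iff] at this
      rcases this with h' | h'
      · exact hyz h'.symm
      · exact hrz h'.symm
    · exfalso
      exact hyr.symm (R.rot.injective h)
    · exact h
  rw [hrr]
  refine ⟨by rw [hzk]; exact hki, by rw [hzk]; exact hkj, ?_⟩
  rcases hmem _ ((R.fst_rot z).trans hz) with h | h | h
  · exact h
  · exact absurd (R.rot.injective h).symm hyz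
  · exfalso
    exact hyz ((hcyc z y hz rfl).eq_of_left h).symm

theorem Rot.no_k6 (R : Rot G) (hd : ∀ v, G.degree v ≤ 3) (q : R.Face → Fin 6)
    (h : ∀ i j, i ≠ j → R.eN q i j = 1) : False := by
  have h' : ∀ i j : Fin 6, ∃ x : G.Dart, i ≠ j → R.cl q i j = {x} := by
    intro i j
    by_cases hij : i = j
    · obtain ⟨x, _⟩ := card_eq_one.1 (h 0 1 (by decide))
      exact ⟨x, fun h => absurd hij h⟩
    · obtain ⟨x, hx⟩ := card_eq_one.1 (h i j hij)
      exact ⟨x, fun _ => hx⟩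
  choose x hx using h'
  have hm : ∀ i j, i ≠ j → q (R.face (x i j)) = i ∧ q (R.face (x i j).symm) = j := by
    intro i j hij
    rw [← R.mem_cl, hx i j hij]
    exact mem_singleton_self _
  have hu : ∀ i j, i ≠ j → ∀ y : G.Dart, q (R.face y) = i → q (R.face y.symm) = j → y = x i j := by
    intro i j hij y h1 h2
    have : y ∈ R.cl q i j := R.mem_cl q |>.2 ⟨h1, h2⟩
    rw [hx i j hij] at this
    exact mem_singleton.1 this
  have h3 : ∀ i j, i ≠ j → _ := fun i j hij => R.third hd q hij (hx i j hij)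
  have hr : ∀ i j, i ≠ j → q (R.face (R.rot (x i j))) = j := by
    intro i j hij
    rw [R.face_rot]
    exact (hm i j hij).2
  -- the next dart at the vertex
  have hnext : ∀ i j, i ≠ j → R.rot (x i j) = x j (q (R.face (R.rot (R.rot (x i j))))) := by
    intro i j hij
    refine hu _ _ (h3 i j hij).2.1.symm _ (hr i j hij) ?_
    rw [← R.face_rot]
  refine no_mts (L := fun i j => q (R.face (R.rot (R.rot (x i j))))) (fun i j hij => (h3 i j hij).1)
    (fun i j hij => (h3 i j hij).2.1) ?_ ?_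
  · intro i j hij
    show q (R.face (R.rot (R.rot (x j (q (R.face (R.rot (R.rot (x i j))))))))) = i
    rw [← hnext i j hij, (h3 i j hij).2.2]
    exact (hm i j hij).1
  · intro i j hij he
    replace he : q (R.face (R.rot (R.rot (x i j)))) = q (R.face (R.rot (R.rot (x j i)))) := he
    have e1 : x j i = (x i j).symm := by
      symm
      refine hu j i hij.symm _ (hm i j hij).2 ?_
      rw [SimpleGraph.Dart.symm_symm]
      exact (hm i j hij).1
    obtain ⟨k, hk⟩ : ∃ k, q (R.face (R.rot (R.rot (x i j)))) = k := ⟨_, rfl⟩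
    have hkj : k ≠ j := by rw [← hk]; exact (h3 i j hij).2.1
    have a1 : R.rot (x i j) = x j k := by rw [hnext i j hij, hk]
    have a2 : R.rot (R.rot (x j i)) = x k j := by
      have b1 : R.rot (x j i) = x i k := by rw [hnext j i hij.symm, ← he, hk]
      have b2 : q (R.face (R.rot (R.rot (x i k)))) = j := by
        rw [← b1, (h3 j i hij.symm).2.2]
        exact (hm j i hij.symm).1
      have hik : i ≠ k := by rw [← hk]; exact (h3 i j hij).1.symm
      rw [b1, hnext i k hik, b2]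
    have a3 : x k j = (x j k).symm := by
      symm
      refine hu k j hkj _ (hm j k hkj.symm).2 ?_
      rw [SimpleGraph.Dart.symm_symm]
      exact (hm j k hkj.symm).1
    have c1 : (x j k).fst = (x i j).fst := by rw [← a1, R.fst_rot]
    have c2 : (x j k).snd = (x i j).snd := by
      have d1 : (x k j).fst = (x j k).snd := by rw [a3]; rfl
      have d2 : (x j i).fst = (x i j).snd := by rw [e1]; rfl
      rw [← d1, ← d2, ← a2, R.fst_rot, R.fst_rot]
    have c3 : x j k = x i j := by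
      apply SimpleGraph.Dart.ext
      exact Prod.ext c1 c2
    have c4 := (hm j k hkj.symm).1
    rw [c3, (hm i j hij).1] at c4
    exact hij c4

end Pool.Agent.Sub392
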