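import Pool.Agent.Work.MP_392c8e_co.Cross

/-!
# Labels of the odd faces
-/

namespace Pool.Agent.Sub392

open Finset

variable {V : Type} [Fintype V] [DecidableEq V] {G : SimpleGraph V} [DecidableRel G.Adj]

/-- Labels of the odd faces. -/
structure Lab (R : Rot G) (n : ℕ) where
  o : Fin n → R.Face
  inj : Function.Injective o
  mem : ∀ f, f ∈ R.odd ↔ ∃ i, o i = f

variable {R : Rot G} {n : ℕ}

theorem Lab.nonempty (h : #R.odd = n) : Nonempty (Lab R n) := by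
  let e := (Finset.equivFinOfCardEq h).symm
  refine ⟨⟨fun i => (e i).1, ?_, ?_⟩⟩
  · intro i j hij
    exact e.injective (Subtype.ext hij)
  · intro f
    constructor
    · intro hf
      exact ⟨e.symm ⟨f, hf⟩, by simp⟩
    · rintro ⟨i, rfl⟩
      exact (e i).2

/-- The labels of the odd faces in a set. -/
noncomputable def Lab.t (L : Lab R n) (S : Finset R.Face) : Finset (Fin n) := {i | L.o i ∈ S}

theorem Lab.mem_t (L : Lab R n) (S : Finset R.Face) (i : Fin n) : i ∈ L.t S ↔ L.o i ∈ S := by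
  simp [Lab.t]

theorem Lab.t_inter (L : Lab R n) (A B : Finset R.Face) : L.t (A ∩ B) = L.t A ∩ L.t B := by
  ext i
  simp [Lab.mem_t]

theorem Lab.t_union (L : Lab R n) (A B : Finset R.Face) : L.t (A ∪ B) = L.t A ∪ L.t B := by
  ext i
  simp [Lab.mem_t]

theorem Lab.t_sdiff (L : Lab R n) (A B : Finset R.Face) : L.t (A \ B) = L.t A \ L.t B := by
  ext i
  simp [Lab.mem_t]

theorem Lab.t_compl (L : Lab R n) (A : Finset R.Face) : L.t Aᶜ = (L.t A)ᶜ := by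
  ext i
  simp [Lab.mem_t]

theorem Lab.image_t (L : Lab R n) (S : Finset R.Face) : (L.t S).image L.o = S ∩ R.odd := by
  ext f
  rw [mem_image, mem_inter]
  constructor
  · rintro ⟨i, hi, rfl⟩
    exact ⟨(L.mem_t S i).1 hi, (L.mem _).2 ⟨i, rfl⟩⟩
  · rintro ⟨h1, h2⟩
    obtain ⟨i, rfl⟩ := (L.mem f).1 h2
    exact ⟨i, (L.mem_t S i).2 h1, rfl⟩

theorem Lab.card_t (L : Lab R n) (S : Finset R.Face) : #(S ∩ R.odd) = #(L.t S) := by
  rw [← L.image_t, card_image_of_injective _ L.inj]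

/-- Some set of faces with the odd faces `T` has a cut of at most `k` edges. -/
def Lab.Bad (L : Lab R n) (T : Finset (Fin n)) (k : ℕ) : Prop := ∃ S, L.t S = T ∧ R.cut S ≤ k

theorem Lab.five (L : Lab R n) (hG : G.CliqueFree 3) {S : Finset R.Face} (h : Odd #(L.t S)) :
    5 ≤ R.cut S ∧ Odd (R.cut S) := by
  rw [← L.card_t] at h
  exact R.five_le hG h

theorem Lab.four (L : Lab R n) (hG : G.CliqueFree 3) (hc : G.Connected) {S : Finset R.Face}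
    (h0 : Even #(L.t S)) (h : L.t S ≠ ∅) (h' : L.t S ≠ univ) : 4 ≤ R.cut S ∧ Even (R.cut S) := by
  constructor
  · apply R.four_le_cut hG hc
    · rintro rfl
      apply h
      ext i
      simp [Lab.mem_t]
    · rintro rfl
      apply h'
      ext i
      simp [Lab.mem_t]
  · have h1 := R.cut_parity S
    rw [L.card_t] at h1
    rw [Nat.even_iff] at *
    omega

theorem Lab.eight (L : Lab R n) {S : Finset R.Face} {T : Finset (Fin n)} (hT : L.t S = T)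
    (h0 : Even #T) (h : ¬ L.Bad T 6) : 8 ≤ R.cut S ∧ Even (R.cut S) := by
  have h1 := R.cut_parity S
  rw [L.card_t, hT] at h1
  have h2 : ¬ R.cut S ≤ 6 := fun h3 => h ⟨S, hT, h3⟩
  rw [Nat.even_iff] at *
  omega

theorem Lab.B1 (L : Lab R n) (hG : G.CliqueFree 3) (hd : ∀ v, G.degree v ≤ 3)
    {P Q : Finset (Fin n)} (hP : L.Bad P 6) (hQ : L.Bad Q 6) (h1 : Odd #(P ∩ Q))
    (h2 : Odd #(P \ Q)) (h3 : Odd #(Q \ P)) (h4 : Odd #(P ∪ Q)) : L.Bad (P ∪ Q) 5 := by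
  obtain ⟨A, rfl, hA⟩ := hP
  obtain ⟨B, rfl, hB⟩ := hQ
  rw [← L.t_inter] at h1
  rw [← L.t_sdiff] at h2 h3
  rw [← L.t_union] at h4
  have c1 := L.five hG h1
  have c2 := L.five hG h2
  have c3 := L.five hG h3
  have c4 := L.five hG h4
  refine ⟨A ∪ B, L.t_union A B, ?_⟩
  obtain ⟨e12, e13, e14, e23, e24, e34, hcA, hcB, hc1, hc2, hc3, hc4, k0, k1, k2⟩ :=
    R.cross hG hd A B
  simp only [Zf, Nat.odd_iff] at *
  by_cases hX : e14 + e23 = 0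
  · have := k0 hX
    omega
  by_cases hX1 : e14 = 1 ∧ e23 = 0
  · have := k1 hX1.1 hX1.2
    omega
  by_cases hX2 : e23 = 1 ∧ e14 = 0
  · have := k2 hX2.1 hX2.2
    omega
  omega

theorem Lab.B2 (L : Lab R n) (hG : G.CliqueFree 3) (hc : G.Connected)
    (hd : ∀ v, G.degree v ≤ 3)
    {P Q : Finset (Fin n)} (hP : L.Bad P 5) (hQ : L.Bad Q 5) (h5 : Odd #P) (h6 : Odd #Q)
    (h1 : Even #(P ∩ Q)) (h1' : P ∩ Q ≠ ∅) (h2 : Odd #(P \ Q)) (h3 : Odd #(Q \ P))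
    (h4 : Even #(P ∪ Q)) (h4' : P ∪ Q ≠ univ) : False := by
  obtain ⟨A, rfl, hA⟩ := hP
  obtain ⟨B, rfl, hB⟩ := hQ
  have h1'' : L.t A ∩ L.t B ≠ univ := fun h => h4' (by
    rw [eq_univ_iff_forall] at h ⊢
    exact fun i => mem_union_left _ (mem_inter.1 (h i)).1)
  have h4'' : L.t A ∪ L.t B ≠ ∅ := fun h => h1' (by
    rw [union_eq_empty] at h
    rw [h.1, empty_inter])
  rw [← L.t_inter] at h1 h1' h1''
  rw [← L.t_sdiff] at h2 h3
  rw [← L.t_union] at h4 h4' h4''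
  have c1 := L.four hG hc h1 h1' h1''
  have c2 := L.five hG h2
  have c3 := L.five hG h3
  have c4 := L.four hG hc h4 h4'' h4'
  have c5 := L.five hG h5
  have c6 := L.five hG h6
  obtain ⟨e12, e13, e14, e23, e24, e34, hcA, hcB, hc1, hc2, hc3, hc4, k0, k1, k2⟩ :=
    R.cross hG hd A B
  simp only [Zf, Nat.odd_iff, Nat.even_iff] at *
  by_cases hX : e14 + e23 = 0
  · have := k0 hX
    omega
  by_cases hX1 : e14 = 1 ∧ e23 = 0
  · have := k1 hX1.1 hX1.2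
    omega
  by_cases hX2 : e23 = 1 ∧ e14 = 0
  · have := k2 hX2.1 hX2.2
    omega
  omega

theorem Lab.B3 (L : Lab R n) (hG : G.CliqueFree 3) (hd : ∀ v, G.degree v ≤ 3)
    {P Q : Finset (Fin n)} (hP : L.Bad P 5) (hQ : L.Bad Q 9) (h5 : Odd #P) (h6 : Odd #Q)
    (h1 : Odd #(P ∩ Q)) (h2 : Even #(P \ Q)) (h2' : ¬ L.Bad (P \ Q) 6) (h3 : Even #(Q \ P))
    (h3' : ¬ L.Bad (Q \ P) 6) (h4 : Odd #(P ∪ Q)) : False := by
  obtain ⟨A, rfl, hA⟩ := hP
  obtain ⟨B, rfl, hB⟩ := hQ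
  rw [← L.t_inter] at h1
  rw [← L.t_union] at h4
  have c1 := L.five hG h1
  have c2 := L.eight (L.t_sdiff A B) h2 h2'
  have c3 := L.eight (L.t_sdiff B A) h3 h3'
  have c4 := L.five hG h4
  have c5 := L.five hG h5
  have c6 := L.five hG h6
  obtain ⟨e12, e13, e14, e23, e24, e34, hcA, hcB, hc1, hc2, hc3, hc4, k0, k1, k2⟩ :=
    R.cross hG hd A B
  simp only [Zf, Nat.odd_iff, Nat.even_iff] at *
  by_cases hX : e14 + e23 = 0
  · have := k0 hX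
    omega
  by_cases hX1 : e14 = 1 ∧ e23 = 0
  · have := k1 hX1.1 hX1.2
    omega
  by_cases hX2 : e23 = 1 ∧ e14 = 0
  · have := k2 hX2.1 hX2.2
    omega
  omega

theorem Lab.A1 (L : Lab R n) (hG : G.CliqueFree 3) {P Q T : Finset (Fin n)} (hP : L.Bad P 6)
    (hQ : L.Bad Q 6) (hT : L.Bad T 6) (h1 : Odd #((P ∩ Q) \ T)) (h2 : Odd #((P ∩ T) \ Q))
    (h3 : Odd #((Q ∩ T) \ P)) (h4 : Odd #(P ∪ Q ∪ T)) : False := by
  obtain ⟨A, rfl, hA⟩ := hP
  obtain ⟨B, rfl, hB⟩ := hQ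
  obtain ⟨C, rfl, hC⟩ := hT
  rw [← L.t_inter, ← L.t_sdiff] at h1 h2 h3
  rw [← L.t_union, ← L.t_union] at h4
  have c1 := L.five hG h1
  have c2 := L.five hG h2
  have c3 := L.five hG h3
  have c4 := L.five hG h4
  have := R.three_sets' A B C
  omega

theorem Lab.A1' (L : Lab R n) (hG : G.CliqueFree 3) {P Q T : Finset (Fin n)} (hP : L.Bad P 6)
    (hQ : L.Bad Q 6) (hT : L.Bad T 6) (h1 : Odd #(P ∩ Q ∩ T)) (h2 : Odd #(P \ (Q ∪ T)))
    (h3 : Odd #(Q \ (P ∪ T))) (h4 : Odd #(T \ (P ∪ Q))) : False := by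
  obtain ⟨A, rfl, hA⟩ := hP
  obtain ⟨B, rfl, hB⟩ := hQ
  obtain ⟨C, rfl, hC⟩ := hT
  rw [← L.t_inter, ← L.t_inter] at h1
  rw [← L.t_union, ← L.t_sdiff] at h2 h3 h4
  have c1 := L.five hG h1
  have c2 := L.five hG h2
  have c3 := L.five hG h3
  have c4 := L.five hG h4
  have := R.three_sets A B C
  omega

theorem Lab.A2 (L : Lab R n) (hG : G.CliqueFree 3) {P Q T : Finset (Fin n)} (hP : L.Bad P 6)
    (hQ : L.Bad Q 9) (hT : L.Bad T 9) (h1 : Odd #(P ∩ Q ∩ T)) (h2 : Odd #(P \ (Q ∪ T)))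
    (h3 : Even #(Q \ (P ∪ T))) (h3' : ¬ L.Bad (Q \ (P ∪ T)) 6) (h4 : Even #(T \ (P ∪ Q)))
    (h4' : ¬ L.Bad (T \ (P ∪ Q)) 6) : False := by
  obtain ⟨A, rfl, hA⟩ := hP
  obtain ⟨B, rfl, hB⟩ := hQ
  obtain ⟨C, rfl, hC⟩ := hT
  have c3 := L.eight (S := B \ (A ∪ C)) (by rw [L.t_sdiff, L.t_union]) h3 h3'
  have c4 := L.eight (S := C \ (A ∪ B)) (by rw [L.t_sdiff, L.t_union]) h4 h4'
  rw [← L.t_inter, ← L.t_inter] at h1
  rw [← L.t_union, ← L.t_sdiff] at h2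
  have c1 := L.five hG h1
  have c2 := L.five hG h2
  have := R.three_sets A B C
  omega

end Pool.Agent.Sub392
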