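import Mathlib

/-!
# No Mendelsohn triple system on six points whose links are five-cycles
-/

namespace Pool.Agent.Sub392

open Equiv

/-- Ordered pairs of different points. -/
abbrev P6 : Type := {p : Fin 6 × Fin 6 // p.1 ≠ p.2}

/-- Exchange of the two points. -/
def al6 : Perm P6 where
  toFun p := ⟨(p.1.2, p.1.1), p.2.symm⟩
  invFun p := ⟨(p.1.2, p.1.1), p.2.symm⟩
  left_inv _ := rfl
  right_inv _ := rfl

theorem five_iter : ∀ f : Fin 5 → Fin 5, (∀ a b, f a = f b → a = b) → (∀ a, f a ≠ a) →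
    (∀ a, f (f a) ≠ a) → ∀ a, f (f (f (f (f a)))) = a := by
  decide +kernel

theorem sign_al6 : Perm.sign al6 = -1 := by
  decide +kernel

theorem no_mts (L : Fin 6 → Fin 6 → Fin 6) (h1 : ∀ i j, i ≠ j → L i j ≠ i ∧ L i j ≠ j)
    (h2 : ∀ i j, i ≠ j → L j (L i j) = i) (h3 : ∀ i j, i ≠ j → L (L i j) j ≠ i) : False := by
  have h4 : ∀ j k, j ≠ k → L (L j k) j = k := by
    intro j k hjk
    have a1 := h2 j k hjk
    have a2 := h2 k (L j k) (h1 j k hjk).2.symm
    rw [a1] at a2
    exact a2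
  let φ : Perm P6 :=
    { toFun := fun p => ⟨(p.1.2, L p.1.1 p.1.2), (h1 _ _ p.2).2.symm⟩
      invFun := fun p => ⟨(L p.1.1 p.1.2, p.1.1), (h1 _ _ p.2).1⟩
      left_inv := by
        rintro ⟨⟨i, j⟩, hij⟩
        apply Subtype.ext
        simp only at hij ⊢
        rw [h2 i j hij]
      right_inv := by
        rintro ⟨⟨i, j⟩, hij⟩
        apply Subtype.ext
        simp only at hij ⊢
        rw [h4 i j hij] }
  have hφ : φ ^ 3 = 1 := by
    ext p : 1
    obtain ⟨⟨i, j⟩, hij⟩ := p
    apply Subtype.ext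
    show (L j (L i j), L (L i j) (L j (L i j))) = (i, j)
    simp only at hij
    rw [h2 i j hij, h4 i j hij]
  have hs : Perm.sign φ = 1 := by
    have a1 : Perm.sign φ ^ 3 = 1 := by rw [← map_pow, hφ, map_one]
    rcases Int.units_eq_one_or (Perm.sign φ) with h | h
    · exact h
    · rw [h] at a1
      exact absurd a1 (by decide)
  set τ : Perm P6 := al6 * φ with hτ
  have hτa : ∀ i j (h : i ≠ j), τ ⟨(i, j), h⟩ = ⟨(L i j, j), (h1 i j h).2⟩ := by
    intro i j h
    rfl
  have hτ5 : τ ^ 5 = 1 := by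
    ext p : 1
    obtain ⟨⟨i, j⟩, hij⟩ := p
    simp only at hij
    let e := finSuccAboveEquiv j
    let f : Fin 5 → Fin 5 := fun a => e.symm ⟨L (e a).1 j, (h1 _ _ (e a).2).2⟩
    have hf : ∀ a, (e (f a)).1 = L (e a).1 j := by
      intro a
      show (e (e.symm _)).1 = _
      rw [Equiv.apply_symm_apply]
    have hinj : ∀ a b, f a = f b → a = b := by
      intro a b hab
      have a1 : L (e a).1 j = L (e b).1 j := by rw [← hf, ← hf, hab]
      have a2 : τ ⟨((e a).1, j), (e a).2⟩ = τ ⟨((e b).1, j), (e b).2⟩ := by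
        rw [hτa, hτa]
        apply Subtype.ext
        show (L (e a).1 j, j) = (L (e b).1 j, j)
        rw [a1]
      have a3 := congrArg (fun p : P6 => p.1.1) (τ.injective a2)
      exact e.injective (Subtype.ext a3)
    have hfix : ∀ a, f a ≠ a := by
      intro a ha
      have := hf a
      rw [ha] at this
      exact (h1 _ _ (e a).2).1 this.symm
    have hfix2 : ∀ a, f (f a) ≠ a := by
      intro a ha
      have a1 := hf (f a)
      rw [ha, hf a] at a1
      exact h3 _ _ (e a).2 a1.symm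
    have h5 := five_iter f hinj hfix hfix2
    have hst : ∀ a, τ ⟨((e a).1, j), (e a).2⟩ = ⟨((e (f a)).1, j), (e (f a)).2⟩ := by
      intro a
      rw [hτa]
      apply Subtype.ext
      show (L (e a).1 j, j) = ((e (f a)).1, j)
      rw [hf]
    obtain ⟨a, ha⟩ := e.surjective ⟨i, hij⟩
    have hp : (⟨(i, j), hij⟩ : P6) = ⟨((e a).1, j), (e a).2⟩ := by
      apply Subtype.ext
      show (i, j) = ((e a).1, j)
      rw [ha]
    rw [hp]
    show τ (τ (τ (τ (τ _)))) = _
    rw [hst, hst, hst, hst, hst]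
    apply Subtype.ext
    show ((e (f (f (f (f (f a)))))).1, j) = ((e a).1, j)
    rw [h5]
  have ht : Perm.sign τ = 1 := by
    have a1 : Perm.sign τ ^ 5 = 1 := by rw [← map_pow, hτ5, map_one]
    rcases Int.units_eq_one_or (Perm.sign τ) with h | h
    · exact h
    · rw [h] at a1
      exact absurd a1 (by decide)
  rw [hτ, map_mul, hs, sign_al6] at ht
  exact absurd ht (by decide)

end Pool.Agent.Sub392
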