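import Pool.Agent.Work.MP_392c8e_co.Labels
import Pool.Agent.Work.MP_392c8e_co.Mts

/-!
# Six odd faces, all splittings bad: the faces fall into six regions
-/

namespace Pool.Agent.Sub392

open Finset

/-- The ten splittings of six points: the side that contains `0`. -/
def tab : Fin 10 → Finset (Fin 6) :=
  ![{0, 1, 2}, {0, 1, 3}, {0, 1, 4}, {0, 1, 5}, {0, 2, 3}, {0, 2, 4}, {0, 2, 5}, {0, 3, 4},
    {0, 3, 5}, {0, 4, 5}]

/-- The cell of a point. -/
def xc (i : Fin 6) : Fin 10 → Bool := fun s => decide (i ∈ tab s)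

theorem tab_card : ∀ s, #(tab s) = 3 := by decide

theorem xc_dist : ∀ i j, i ≠ j → hammingDist (xc i) (xc j) = 6 := by decide +kernel

theorem cnt : ∀ N : Finset (Fin 6), 4 ≤ #N →
    3 * #N < ∑ s, min #(N.filter fun i => xc i s = true) #(N.filter fun i => xc i s = false) := by
  decide +kernel

/-- The depth of a cell in the ball of radius three around a point. -/
def dep (a : Fin 10 → Bool) (i : Fin 6) : ℕ := 3 - hammingDist a (xc i)

theorem dep_uniq {a : Fin 10 → Bool} {i j : Fin 6} (hi : dep a i ≠ 0) (hj : dep a j ≠ 0) :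
    i = j := by
  by_contra hij
  have h1 := xc_dist i j hij
  have h2 := hammingDist_triangle (xc i) a (xc j)
  rw [hammingDist_comm (xc i) a] at h2
  unfold dep at hi hj
  omega

/-- absolute difference -/
def df (m n : ℕ) : ℕ := (m - n) + (n - m)

theorem moat (a b : Fin 10 → Bool) : ∑ i, df (dep a i) (dep b i) ≤ hammingDist a b := by
  have t1 : ∀ i, hammingDist a (xc i) ≤ hammingDist a b + hammingDist b (xc i) := fun i =>
    hammingDist_triangle _ _ _
  have t2 : ∀ i, hammingDist b (xc i) ≤ hammingDist a b + hammingDist a (xc i) := fun i => by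
    rw [hammingDist_comm a b]
    exact hammingDist_triangle _ _ _
  by_cases ha : ∃ i, dep a i ≠ 0
  · obtain ⟨i, hi⟩ := ha
    have ha' : ∀ j, j ≠ i → dep a j = 0 := fun j hj => by
      by_contra h
      exact hj (dep_uniq h hi)
    by_cases hb : ∃ j, dep b j ≠ 0
    · obtain ⟨j, hj⟩ := hb
      have hb' : ∀ k, k ≠ j → dep b k = 0 := fun k hk => by
        by_contra h
        exact hk (dep_uniq h hj)
      by_cases hij : i = j
      · subst hij
        rw [sum_eq_single i]
        · have := t1 i
          have := t2 i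
          unfold df dep
          omega
        · intro k _ hk
          rw [ha' k hk, hb' k hk]
          rfl
        · simp
      · have h3 : ∑ k, df (dep a k) (dep b k) = df (dep a i) (dep b i) + df (dep a j) (dep b j) := by
          rw [← sum_pair (f := fun k => df (dep a k) (dep b k)) hij]
          symm
          apply sum_subset (subset_univ _)
          intro k _ hk
          simp only [mem_insert, mem_singleton, not_or] at hk
          rw [ha' k hk.1, hb' k hk.2]
          rfl
        rw [h3, hb' i hij, ha' j (Ne.symm hij)]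
        have h4 := xc_dist i j hij
        have h5 := hammingDist_triangle (xc i) a (xc j)
        have h6 := t1 j
        rw [hammingDist_comm (xc i) a] at h5
        unfold df dep at *
        omega
    · push Not at hb
      rw [sum_eq_single i]
      · have h1 := t2 i
        have h2 := hb i
        have h3 := hi
        unfold df dep at *
        omega
      · intro k _ hk
        rw [ha' k hk, hb k]
        rfl
      · simp
  · push Not at ha
    by_cases hb : ∃ j, dep b j ≠ 0
    · obtain ⟨j, hj⟩ := hb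
      have hb' : ∀ k, k ≠ j → dep b k = 0 := fun k hk => by
        by_contra h
        exact hk (dep_uniq h hj)
      rw [sum_eq_single j]
      · have h1 := t1 j
        have h2 := ha j
        have h3 := hj
        unfold df dep at *
        omega
      · intro k _ hk
        rw [hb' k hk, ha k]
        rfl
      · simp
    · push Not at hb
      rw [sum_eq_zero]
      · exact Nat.zero_le _
      · intro k _
        rw [ha k, hb k]
        rfl

/-- In the tight case a cell in no ball has only neighbours in its own cell or at distance three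
from its own. -/
theorem tight {a b : Fin 10 → Bool} (h : ∑ i, df (dep a i) (dep b i) = hammingDist a b)
    (ha : ∀ i, dep a i = 0) : a = b ∨ ∃ i, dep b i ≠ 0 ∧ hammingDist a (xc i) = 3 := by
  by_cases hb : ∃ j, dep b j ≠ 0
  · obtain ⟨j, hj⟩ := hb
    right
    refine ⟨j, hj, ?_⟩
    have hb' : ∀ k, k ≠ j → dep b k = 0 := fun k hk => by
      by_contra h
      exact hk (dep_uniq h hj)
    rw [sum_eq_single j] at h
    · have h1 : hammingDist a (xc j) ≤ hammingDist a b + hammingDist b (xc j) :=
        hammingDist_triangle _ _ _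
      have h2 := ha j
      unfold df dep at *
      omega
    · intro k _ hk
      rw [hb' k hk, ha k]
      rfl
    · simp
  · push Not at hb
    left
    rw [sum_eq_zero] at h
    · exact hammingDist_eq_zero.1 h.symm
    · intro k _
      rw [ha k, hb k]
      rfl

theorem df_range (m n : ℕ) : ∑ r ∈ range 3, (if m ≤ r ↔ n ≤ r then 0 else 1) =
    df (3 - m) (3 - n) := by
  rw [sum_range_succ, sum_range_succ, sum_range_succ, sum_range_zero, zero_add]
  unfold df
  by_cases h0 : m ≤ 0 <;> by_cases h1 : m ≤ 1 <;> by_cases h2 : m ≤ 2 <;>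
  by_cases k0 : n ≤ 0 <;> by_cases k1 : n ≤ 1 <;> by_cases k2 : n ≤ 2 <;>
  simp only [h0, h1, h2, k0, k1, k2, iff_self, iff_false, iff_true, not_true,
    if_true, if_false] <;> omega

variable {V : Type} [Fintype V] [DecidableEq V] {G : SimpleGraph V} [DecidableRel G.Adj]

theorem Rot.cut_iff (R : Rot G) (S : Finset R.Face) : R.cut S = ∑ e : Up G,
    (if R.face e.1 ∈ S ↔ R.face e.1.symm ∈ S then 0 else 1) := by
  rw [R.cut_up]
  refine sum_congr rfl fun e _ => ?_
  by_cases h1 : R.face e.1 ∈ S <;> by_cases h2 : R.face e.1.symm ∈ S <;> simp [h1, h2]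

/-- The sets of a bad configuration. -/
structure Ten (R : Rot G) (L : Lab R 6) where
  Z : Fin 10 → Finset R.Face
  hZ : ∀ s, L.t (Z s) = tab s
  cut_le : ∀ s, R.cut (Z s) ≤ 9

namespace Ten

variable {R : Rot G} {L : Lab R 6} (X : Ten R L)

/-- The cell of a face. -/
noncomputable def c (f : R.Face) : Fin 10 → Bool := fun s => decide (f ∈ X.Z s)

theorem c_o (i : Fin 6) : X.c (L.o i) = xc i := by
  funext s
  unfold c xc
  rw [← X.hZ s]
  simp only [L.mem_t]

/-- The balls. -/
noncomputable def B (i : Fin 6) (r : ℕ) : Finset R.Face :=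
  {f | hammingDist (X.c f) (xc i) ≤ r}

theorem mem_B {i : Fin 6} {r : ℕ} {f : R.Face} :
    f ∈ X.B i r ↔ hammingDist (X.c f) (xc i) ≤ r := by
  simp [B]

theorem t_B (i : Fin 6) {r : ℕ} (hr : r < 3) : L.t (X.B i r) = {i} := by
  ext j
  rw [L.mem_t, X.mem_B, X.c_o, mem_singleton]
  constructor
  · intro h
    by_contra hji
    have := xc_dist j i hji
    omega
  · rintro rfl
    rw [hammingDist_self]
    exact Nat.zero_le _

theorem sum_Z : ∑ s, R.cut (X.Z s) =
    ∑ e : Up G, hammingDist (X.c (R.face e.1)) (X.c (R.face e.1.symm)) := by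
  simp only [R.cut_iff]
  rw [sum_comm]
  refine sum_congr rfl fun e _ => ?_
  unfold hammingDist
  rw [card_filter]
  refine sum_congr rfl fun s _ => ?_
  unfold c
  by_cases h1 : R.face e.1 ∈ X.Z s <;> by_cases h2 : R.face e.1.symm ∈ X.Z s <;> simp [h1, h2]

theorem sum_B : ∑ i, ∑ r ∈ range 3, R.cut (X.B i r) =
    ∑ e : Up G, ∑ i, df (dep (X.c (R.face e.1)) i) (dep (X.c (R.face e.1.symm)) i) := by
  simp only [R.cut_iff]
  have h1 : ∀ i, ∑ r ∈ range 3, ∑ e : Up G,
      (if R.face e.1 ∈ X.B i r ↔ R.face e.1.symm ∈ X.B i r then 0 else 1) =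
      ∑ e : Up G, df (dep (X.c (R.face e.1)) i) (dep (X.c (R.face e.1.symm)) i) := by
    intro i
    rw [sum_comm]
    refine sum_congr rfl fun e _ => ?_
    simp only [X.mem_B]
    exact df_range _ _
  simp only [h1]
  exact sum_comm

theorem sum_Z_le : ∑ s, R.cut (X.Z s) ≤ 90 := by
  calc ∑ s, R.cut (X.Z s) ≤ ∑ _s : Fin 10, 9 := sum_le_sum fun s _ => X.cut_le s
    _ = 90 := by simp

theorem five_B (hG : G.CliqueFree 3) (i : Fin 6) {r : ℕ} (hr : r < 3) : 5 ≤ R.cut (X.B i r) := by
  have h : Odd #(L.t (X.B i r)) := by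
    rw [X.t_B i hr, card_singleton]
    exact odd_one
  exact (L.five hG h).1

theorem B_eq (hG : G.CliqueFree 3) (i : Fin 6) {r : ℕ} (hr : r < 3) : R.cut (X.B i r) = 5 := by
  have h1 : ∑ i, ∑ r ∈ range 3, R.cut (X.B i r) ≤ ∑ s, R.cut (X.Z s) := by
    rw [X.sum_B, X.sum_Z]
    exact sum_le_sum fun e _ => moat _ _
  have h2 := X.sum_Z_le
  have h3 : ∑ i : Fin 6, ∑ r ∈ range 3, 5 ≤ ∑ i, ∑ r ∈ range 3, R.cut (X.B i r) :=
    sum_le_sum fun i _ => sum_le_sum fun r hr => X.five_B hG i (mem_range.1 hr)
  have h4 : ∑ i : Fin 6, ∑ r ∈ range 3, 5 = 90 := by simp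
  have h5 : ∑ i : Fin 6, ∑ r ∈ range 3, 5 = ∑ i, ∑ r ∈ range 3, R.cut (X.B i r) := by omega
  have h6 := (sum_eq_sum_iff_of_le (fun i _ => sum_le_sum fun r hr =>
    X.five_B hG i (mem_range.1 hr))).1 h5 i (mem_univ i)
  have h7 := (sum_eq_sum_iff_of_le (fun r hr => X.five_B hG i (mem_range.1 hr))).1 h6 r
    (mem_range.2 hr)
  exact h7.symm

theorem tight_up (hG : G.CliqueFree 3) (e : Up G) :
    ∑ i, df (dep (X.c (R.face e.1)) i) (dep (X.c (R.face e.1.symm)) i) =
      hammingDist (X.c (R.face e.1)) (X.c (R.face e.1.symm)) := by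
  have h1 : ∑ e : Up G, ∑ i, df (dep (X.c (R.face e.1)) i) (dep (X.c (R.face e.1.symm)) i) =
      ∑ e : Up G, hammingDist (X.c (R.face e.1)) (X.c (R.face e.1.symm)) := by
    apply le_antisymm (sum_le_sum fun e _ => moat _ _)
    rw [← X.sum_B, ← X.sum_Z]
    have h3 : ∑ i : Fin 6, ∑ r ∈ range 3, 5 ≤ ∑ i, ∑ r ∈ range 3, R.cut (X.B i r) :=
      sum_le_sum fun i _ => sum_le_sum fun r hr => X.five_B hG i (mem_range.1 hr)
    have h4 : ∑ i : Fin 6, ∑ r ∈ range 3, 5 = 90 := by simp
    have h2 := X.sum_Z_le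
    omega
  exact (sum_eq_sum_iff_of_le (fun e _ => moat _ _)).1 h1 e (mem_univ e)

theorem df_comm (m n : ℕ) : df m n = df n m := add_comm _ _

theorem tight_dart (hG : G.CliqueFree 3) (d : G.Dart) :
    ∑ i, df (dep (X.c (R.face d)) i) (dep (X.c (R.face d.symm)) i) =
      hammingDist (X.c (R.face d)) (X.c (R.face d.symm)) := by
  rcases up_or d with h | h
  · exact X.tight_up hG ⟨d, h⟩
  · have h1 := X.tight_up hG ⟨d.symm, h⟩
    simp only [SimpleGraph.Dart.symm_symm] at h1
    rw [hammingDist_comm, ← h1]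
    exact sum_congr rfl fun i _ => df_comm _ _

end Ten

end Pool.Agent.Sub392
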