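import Pool.Agent.Work.MP_392c8e_co.Moat

/-!
# Six odd faces, all splittings bad: every face lies in one of the six regions
-/

namespace Pool.Agent.Sub392

open Finset

variable {V : Type} [Fintype V] [DecidableEq V] {G : SimpleGraph V} [DecidableRel G.Adj]

section

variable {κ : Type} [DecidableEq κ] [Fintype κ]

/-- The faces of some classes. -/
noncomputable def Rot.Cls (R : Rot G) (q : R.Face → κ) (T : Finset κ) : Finset R.Face :=
  {f | q f ∈ T}

omit [Fintype κ] in
theorem Rot.mem_Cls (R : Rot G) (q : R.Face → κ) {T : Finset κ} {f : R.Face} :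
    f ∈ R.Cls q T ↔ q f ∈ T := by
  simp [Rot.Cls]

theorem Rot.cut_Cls (R : Rot G) (q : R.Face → κ) (T : Finset κ) :
    R.cut (R.Cls q T) = ∑ i ∈ T, ∑ j ∈ Tᶜ, R.eN q i j :=
  R.cut_q q _ T fun _ => R.mem_Cls q

theorem Rot.cut_insert (R : Rot G) (q : R.Face → κ) {T : Finset κ} {k : κ} (hk : k ∉ T) :
    R.cut (R.Cls q (insert k T)) + 2 * ∑ x ∈ T, R.eN q k x =
      R.cut (R.Cls q T) + R.cut (R.Cls q {k}) := by
  rw [R.cut_Cls, R.cut_Cls, R.cut_Cls, sum_insert hk, sum_singleton]
  have h1 : Tᶜ = insert k (insert k T)ᶜ := by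
    ext x
    simp only [mem_compl, mem_insert]
    constructor
    · intro h
      by_cases h' : x = k
      · exact Or.inl h'
      · right
        rintro (h2 | h2)
        · exact h' h2
        · exact h h2
    · rintro (rfl | h) h2
      · exact hk h2
      · exact h (Or.inr h2)
  have h2 : ({k} : Finset κ)ᶜ = T ∪ (insert k T)ᶜ := by
    ext x
    simp only [mem_compl, mem_insert, mem_singleton, mem_union]
    constructor
    · intro h
      by_cases h' : x ∈ T
      · exact Or.inl h'
      · right
        rintro (h2 | h2)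
        · exact h h2
        · exact h' h2
    · rintro (h | h) rfl
      · exact hk h
      · exact h (Or.inl rfl)
  have h3 : Disjoint T (insert k T)ᶜ := by
    rw [disjoint_left]
    intro x hx hx'
    rw [mem_compl] at hx'
    exact hx' (mem_insert_of_mem hx)
  have h4 : k ∉ (insert k T)ᶜ := by simp
  have h5 : ∑ i ∈ T, ∑ j ∈ Tᶜ, R.eN q i j =
      ∑ i ∈ T, R.eN q k i + ∑ i ∈ T, ∑ j ∈ (insert k T)ᶜ, R.eN q i j := by
    rw [← sum_add_distrib]
    refine sum_congr rfl fun i _ => ?_
    rw [h1, sum_insert h4, R.eN_symm q i k]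
  rw [h5, h2, sum_union h3]
  omega

theorem Rot.cut_two (R : Rot G) (q : R.Face → κ) {i j : κ} (hij : i ≠ j) :
    R.cut (R.Cls q {i, j}) + 2 * R.eN q i j = R.cut (R.Cls q {i}) + R.cut (R.Cls q {j}) := by
  have h := R.cut_insert q (T := {j}) (k := i) (by simpa using hij)
  rw [sum_singleton] at h
  omega

theorem Rot.cut_three (R : Rot G) (q : R.Face → κ) {i j k : κ} (hij : i ≠ j) (hik : i ≠ k)
    (hjk : j ≠ k) :
    R.cut (R.Cls q {i, j, k}) + 2 * (R.eN q i j + R.eN q i k + R.eN q j k) =
      R.cut (R.Cls q {i}) + R.cut (R.Cls q {j}) + R.cut (R.Cls q {k}) := by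
  have h := R.cut_insert q (T := {j, k}) (k := i) (by simp [hij, hik])
  rw [sum_pair hjk] at h
  have h' := R.cut_two q hjk
  omega

end

namespace Ten

variable {R : Rot G} {L : Lab R 6} (X : Ten R L)

open Classical in
/-- The classes: the six regions, the cell of `u`, and the other faces. -/
noncomputable def qu (u : R.Face) (f : R.Face) : Option (Option (Fin 6)) :=
  if h : ∃ i, dep (X.c f) i ≠ 0 then some (some h.choose)
  else if X.c f = X.c u then some none else none

theorem qu_reg {u f : R.Face} {i : Fin 6} :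
    X.qu u f = some (some i) ↔ dep (X.c f) i ≠ 0 := by
  unfold qu
  split_ifs with h h'
  · rw [Option.some.injEq, Option.some.injEq]
    constructor
    · rintro rfl
      exact h.choose_spec
    · intro h2
      exact dep_uniq h.choose_spec h2
  · simp only [Option.some.injEq, reduceCtorEq, false_iff, not_not]
    push Not at h
    exact h i
  · simp only [false_iff, not_not]
    push Not at h
    exact h i

theorem qu_cell {u f : R.Face} (hu : ∀ i, dep (X.c u) i = 0) :
    X.qu u f = some none ↔ X.c f = X.c u := by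
  unfold qu
  split_ifs with h h'
  · simp only [Option.some.injEq, reduceCtorEq, false_iff]
    intro h2
    obtain ⟨i, hi⟩ := h
    rw [h2] at hi
    exact hi (hu i)
  · simp [h']
  · simp [h']

theorem qu_none {u f : R.Face} :
    X.qu u f = none ↔ (∀ i, dep (X.c f) i = 0) ∧ X.c f ≠ X.c u := by
  unfold qu
  split_ifs with h h'
  · simp only [ne_eq, false_iff, not_and]
    intro h2
    obtain ⟨i, hi⟩ := h
    exact absurd (h2 i) hi
  · simp [h']
  · push Not at h
    simp only [true_iff]
    exact ⟨h, h'⟩

theorem dep_iff (f : R.Face) (i : Fin 6) : dep (X.c f) i ≠ 0 ↔ f ∈ X.B i 2 := by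
  rw [X.mem_B]
  unfold dep
  omega

theorem Cls_reg (u : R.Face) (i : Fin 6) : R.Cls (X.qu u) {some (some i)} = X.B i 2 := by
  ext f
  rw [R.mem_Cls, mem_singleton, X.qu_reg, X.dep_iff]

theorem dep_o (i : Fin 6) : dep (X.c (L.o i)) i ≠ 0 := by
  rw [X.c_o]
  unfold dep
  rw [hammingDist_self]
  decide

theorem dep_o_iff (i j : Fin 6) : dep (X.c (L.o i)) j ≠ 0 ↔ i = j := by
  constructor
  · intro h
    exact dep_uniq (X.dep_o i) h
  · rintro rfl
    exact X.dep_o i

/-- The cell of a face outside the regions: edges only to the regions. -/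
theorem eN_cell_none (hG : G.CliqueFree 3) {u : R.Face} (hu : ∀ i, dep (X.c u) i = 0) :
    R.eN (X.qu u) (some none) none = 0 := by
  rw [Rot.eN, card_eq_zero]
  rw [eq_empty_iff_forall_notMem]
  intro d hd
  rw [R.mem_cl, X.qu_cell hu, X.qu_none] at hd
  obtain ⟨h1, h2, h3⟩ := hd
  have h4 := X.tight_dart hG d
  rw [h1] at h4
  rcases tight h4 hu with h | ⟨i, hi, _⟩
  · exact h3 h.symm
  · exact hi (h2 i)

theorem dist_three (hG : G.CliqueFree 3) {u : R.Face} (hu : ∀ i, dep (X.c u) i = 0) {i : Fin 6}
    (h : R.eN (X.qu u) (some none) (some (some i)) ≠ 0) : hammingDist (X.c u) (xc i) = 3 := by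
  rw [Rot.eN] at h
  obtain ⟨d, hd⟩ := card_ne_zero.1 h
  rw [R.mem_cl, X.qu_cell hu, X.qu_reg] at hd
  obtain ⟨h1, h2⟩ := hd
  have h4 := X.tight_dart hG d
  rw [h1] at h4
  rcases tight h4 hu with h | ⟨j, hj, h5⟩
  · rw [← h] at h2
    exact absurd (hu i) h2
  · rw [dep_uniq h2 hj]
    exact h5

/-- At most three regions are adjacent to the cell. -/
theorem card_N (hG : G.CliqueFree 3) {u : R.Face} (hu : ∀ i, dep (X.c u) i = 0)
    (N : Finset (Fin 6)) (hN : ∀ i ∈ N, R.eN (X.qu u) (some none) (some (some i)) ≠ 0) :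
    #N ≤ 3 := by
  by_contra hlt
  have h1 := cnt N (by omega)
  have h2 : ∑ i ∈ N, hammingDist (X.c u) (xc i) = 3 * #N := by
    rw [sum_congr rfl fun i hi => X.dist_three hG hu (hN i hi)]
    simp [mul_comm]
  have h3 : ∑ i ∈ N, hammingDist (X.c u) (xc i) =
      ∑ s, #(N.filter fun i => X.c u s ≠ xc i s) := by
    unfold hammingDist
    simp only [card_filter]
    exact sum_comm
  have h4 : ∑ s, min #(N.filter fun i => xc i s = true) #(N.filter fun i => xc i s = false) ≤
      ∑ s, #(N.filter fun i => X.c u s ≠ xc i s) := by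
    refine sum_le_sum fun s _ => ?_
    cases hs : X.c u s
    · refine (min_le_left _ _).trans (card_le_card ?_)
      intro i
      simp only [mem_filter]
      rintro ⟨h5, h6⟩
      exact ⟨h5, by rw [h6]; decide⟩
    · refine (min_le_right _ _).trans (card_le_card ?_)
      intro i
      simp only [mem_filter]
      rintro ⟨h5, h6⟩
      exact ⟨h5, by rw [h6]; decide⟩
  omega

theorem t_Cls (u : R.Face) (T : Finset (Option (Option (Fin 6)))) :
    L.t (R.Cls (X.qu u) T) = univ.filter fun i : Fin 6 => some (some i) ∈ T := by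
  ext i
  rw [L.mem_t, R.mem_Cls, X.qu_reg.2 (X.dep_o i)]
  simp

theorem key (hG : G.CliqueFree 3) (hd : ∀ v, G.degree v ≤ 3) {u : R.Face}
    (hu : ∀ i, dep (X.c u) i = 0) {i : Fin 6}
    (h1 : R.eN (X.qu u) (some none) (some (some i)) = 2)
    (h2 : ∀ j, j ≠ i → R.eN (X.qu u) (some none) (some (some j)) ≠ 0 →
      R.eN (X.qu u) (some (some i)) (some (some j)) = 0) : False := by
  have h3 := R.eN_zero_or hG (X.qu u) (i := some none) (j := some (some i)) (by simp) (by
    intro v
    apply R.dg_even (X.qu u) (by simp)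
    rintro ⟨s1, s2, k, hk1, hk2, s3⟩
    have h4 := R.sees3 hd (X.qu u) (by simp) hk1.symm hk2.symm s1 s2 s3
    rcases k with _ | _ | j
    · exact h4.2.1 (X.eN_cell_none hG hu)
    · exact hk1 rfl
    · have hji : j ≠ i := by
        rintro rfl
        exact hk2 rfl
      exact h4.2.2 (h2 j hji h4.2.1))
  omega

theorem no_rest (hG : G.CliqueFree 3) (hc : G.Connected) (hd : ∀ v, G.degree v ≤ 3)
    (h2 : ∀ S : Finset R.Face, #(S ∩ R.odd) = 2 → 8 ≤ R.cut S) (u : R.Face) :
    ∃ i, dep (X.c u) i ≠ 0 := by
  by_contra hu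
  push Not at hu
  set q := X.qu u with hq
  set μ : Fin 6 → ℕ := fun i => R.eN q (some none) (some (some i)) with hμ
  have hreg : ∀ i, R.cut (R.Cls q {some (some i)}) = 5 := by
    intro i
    rw [hq, X.Cls_reg]
    exact X.B_eq hG i (by norm_num)
  have hqu : q u = some none := (X.qu_cell hu).2 rfl
  have hqo : ∀ i, q (L.o i) = some (some i) := fun i => X.qu_reg.2 (X.dep_o i)
  have hU4 : 4 ≤ R.cut (R.Cls q {some none}) := by
    apply R.four_le_cut hG hc
    · intro h
      have : u ∈ R.Cls q {some none} := by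
        rw [R.mem_Cls, mem_singleton]
        exact hqu
      rw [h] at this
      simp at this
    · intro h
      have : L.o 0 ∈ R.Cls q {some none} := by
        rw [h]
        exact mem_univ _
      rw [R.mem_Cls, mem_singleton, hqo] at this
      simp at this
  have hUe : Even (R.cut (R.Cls q {some none})) := by
    have h1 := R.cut_parity (R.Cls q {some none})
    rw [L.card_t, hq, X.t_Cls] at h1
    simpa using h1
  have hsum : R.cut (R.Cls q {some none}) = ∑ i, μ i := by
    rw [R.cut_Cls, sum_singleton]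
    have h1 : ({some none} : Finset (Option (Option (Fin 6))))ᶜ =
        insert none (univ.image fun i => some (some i)) := by decide
    rw [h1, sum_insert (by simp), hq, X.eN_cell_none hG hu, zero_add, sum_image]
    intro a _ b _ hab
    simpa using hab
  have ha : ∀ i, 2 * μ i ≤ R.cut (R.Cls q {some none}) := by
    intro i
    have h1 := R.cut_two q (i := some none) (j := some (some i)) (by simp)
    have h3 : Odd #(L.t (R.Cls q {some none, some (some i)})) := by
      have : L.t (R.Cls q {some none, some (some i)}) = {i} := by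
        rw [hq, X.t_Cls]
        ext j
        simp
      rw [this, card_singleton]
      exact odd_one
    have h4 := (L.five hG h3).1
    rw [hreg] at h1
    show 2 * R.eN q (some none) (some (some i)) ≤ _
    omega
  have hb : ∀ i j, i ≠ j → 2 * (μ i + μ j + R.eN q (some (some i)) (some (some j))) ≤
      R.cut (R.Cls q {some none}) + 2 := by
    intro i j hij
    have h1 := R.cut_three q (i := some none) (j := some (some i)) (k := some (some j)) (by simp)
      (by simp) (by simpa using hij)
    have h3 : #(R.Cls q {some none, some (some i), some (some j)} ∩ R.odd) = 2 := by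
      rw [L.card_t]
      have : L.t (R.Cls q {some none, some (some i), some (some j)}) = {i, j} := by
        rw [hq, X.t_Cls]
        ext k
        simp
      rw [this, card_pair hij]
    have h4 := h2 _ h3
    rw [hreg, hreg] at h1
    show 2 * (R.eN q (some none) (some (some i)) + R.eN q (some none) (some (some j)) + _) ≤ _
    omega
  set N : Finset (Fin 6) := {i | μ i ≠ 0} with hN
  have hN0 : ∀ i, i ∉ N → μ i = 0 := by
    intro i hi
    by_contra h
    exact hi (by simp [hN, h])
  have hN1 : ∀ i ∈ N, μ i ≠ 0 := by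
    intro i hi
    simpa [hN] using hi
  have hsum' : R.cut (R.Cls q {some none}) = ∑ i ∈ N, μ i := by
    rw [hsum]
    symm
    exact sum_subset (subset_univ _) fun i _ hi => hN0 i hi
  have hcard : #N ≤ 3 := X.card_N hG hu N hN1
  have hsymm : ∀ i j, R.eN q (some (some i)) (some (some j)) =
    R.eN q (some (some j)) (some (some i)) := fun i j => R.eN_symm q _ _
  obtain ⟨m, hm⟩ := hUe
  interval_cases hk : #N
  · rw [card_eq_zero.1 hk, sum_empty] at hsum'
    omega
  · obtain ⟨i, hi⟩ := card_eq_one.1 hk
    rw [hi, sum_singleton] at hsum'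
    have := ha i
    omega
  · obtain ⟨i, j, hij, hi⟩ := card_eq_two.1 hk
    rw [hi, sum_pair hij] at hsum'
    have := hb i j hij
    omega
  · obtain ⟨i, j, k, hij, hik, hjk, hi⟩ := card_eq_three.1 hk
    rw [hi, sum_insert (by simp [hij, hik]), sum_pair hjk] at hsum'
    have a1 := ha i
    have a2 := ha j
    have a3 := ha k
    have b1 := hb i j hij
    have b2 := hb i k hik
    have b3 := hb j k hjk
    have hmem : ∀ l, μ l ≠ 0 → l = i ∨ l = j ∨ l = k := by
      intro l hl
      have : l ∈ N := by
        by_contra h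
        exact hl (hN0 l h)
      rw [hi] at this
      simpa using this
    have hc3 : (μ i = 2 ∧ R.eN q (some (some i)) (some (some j)) = 0 ∧
        R.eN q (some (some i)) (some (some k)) = 0) ∨
        (μ j = 2 ∧ R.eN q (some (some i)) (some (some j)) = 0 ∧
        R.eN q (some (some j)) (some (some k)) = 0) ∨
        (μ k = 2 ∧ R.eN q (some (some i)) (some (some k)) = 0 ∧
        R.eN q (some (some j)) (some (some k)) = 0) := by omega
    rcases hc3 with ⟨e1, e2, e3⟩ | ⟨e1, e2, e3⟩ | ⟨e1, e2, e3⟩
    · refine X.key hG hd hu e1 fun l hl hl0 => ?_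
      rcases hmem l hl0 with rfl | rfl | rfl
      · exact absurd rfl hl
      · exact e2
      · exact e3
    · refine X.key hG hd hu e1 fun l hl hl0 => ?_
      rcases hmem l hl0 with rfl | rfl | rfl
      · exact (hsymm _ _).trans e2
      · exact absurd rfl hl
      · exact e3
    · refine X.key hG hd hu e1 fun l hl hl0 => ?_
      rcases hmem l hl0 with rfl | rfl | rfl
      · exact (hsymm _ _).trans e2
      · exact (hsymm _ _).trans e3
      · exact absurd rfl hl

end Ten

end Pool.Agent.Sub392
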