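import Pool.Agent.Work.MP_392c8e_co.Cases

/-!
# Splittings of the odd faces and colourings
-/

namespace Pool.Agent.Sub392

open Finset

variable {V : Type} [Fintype V] [DecidableEq V] {G : SimpleGraph V} [DecidableRel G.Adj]

/-- A splitting of the odd faces into two halves, with large cuts. -/
def Rot.Split (R : Rot G) (X : Finset R.Face) : Prop :=
  X ⊆ R.odd ∧ 2 * #X = #R.odd ∧
  (∀ S : Finset R.Face, (S ∩ R.odd ⊆ X ∨ S ∩ R.odd ⊆ R.odd \ X) → #(S ∩ R.odd) = 2 →
    8 ≤ R.cut S) ∧
  (∀ S : Finset R.Face, S ∩ R.odd = X → #X = 3 → 11 ≤ R.cut S)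

theorem Rot.colour_of_split (R : Rot G) (hP : R.Plane) (hG : G.CliqueFree 3)
    (h6 : #R.odd ≤ 6) {X : Finset R.Face} (hX : R.Split X) :
    ∃ c : V → ℕ, (∀ v, c v < 11) ∧
      ∀ u v, G.Adj u v → 4 ≤ |(c u : ℤ) - c v| ∧ |(c u : ℤ) - c v| ≤ 7 := by
  obtain ⟨hs, hc, h8, h11⟩ := hX
  have hY : #(R.odd \ X) = #X := by
    have := card_sdiff_add_card_eq_card hs
    omega
  set e : R.Face → ℤ := fun f => (if f ∈ X then 1 else 0) - (if f ∈ R.odd \ X then 1 else 0)
    with he
  have hsum : ∀ S : Finset R.Face, ∑ f ∈ S, e f = (#(S ∩ X) : ℤ) - #(S ∩ (R.odd \ X)) := by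
    intro S
    rw [he, sum_sub_distrib, sum_boole, sum_boole, filter_mem_eq_inter, filter_mem_eq_inter]
  refine R.colouring hP e ?_ ?_ ?_
  · intro f
    have hodd : f ∈ R.odd ↔ Odd (R.size f) := by simp [Rot.odd]
    by_cases h1 : f ∈ X
    · have h2 : Odd (R.size f) := hodd.1 (hs h1)
      have h3 : e f = 1 := by simp [he, h1]
      rw [h3]
      obtain ⟨k, hk⟩ := h2
      rw [hk]
      push_cast
      exact ⟨-k, by ring⟩
    · by_cases h4 : f ∈ R.odd
      · have h3 : e f = -1 := by simp [he, h1, h4]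
        rw [h3]
        obtain ⟨k, hk⟩ := hodd.1 h4
        rw [hk]
        push_cast
        exact ⟨-k - 1, by ring⟩
      · have h3 : e f = 0 := by simp [he, h1, h4]
        rw [h3]
        rw [hodd, Nat.not_odd_iff_even] at h4
        obtain ⟨k, hk⟩ := h4
        rw [hk]
        push_cast
        exact ⟨-k, by ring⟩
  · rw [hsum, univ_inter, univ_inter, hY, sub_self]
  · intro S
    rw [hsum]
    have ha : #(S ∩ X) + #(S ∩ (R.odd \ X)) = #(S ∩ R.odd) := by
      rw [← card_union_of_disjoint]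
      · congr 1
        ext f
        simp only [mem_union, mem_inter, mem_sdiff]
        constructor
        · rintro (⟨h1, h2⟩ | ⟨h1, h2, _⟩)
          · exact ⟨h1, hs h2⟩
          · exact ⟨h1, h2⟩
        · rintro ⟨h1, h2⟩
          by_cases h3 : f ∈ X
          · exact Or.inl ⟨h1, h3⟩
          · exact Or.inr ⟨h1, h2, h3⟩
      · rw [disjoint_left]
        intro f h1 h2
        exact (mem_sdiff.1 (mem_inter.1 h2).2).2 (mem_inter.1 h1).2
    have h1 : #(S ∩ X) ≤ #X := card_le_card inter_subset_right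
    have h2 : #(S ∩ (R.odd \ X)) ≤ #X := by
      rw [← hY]
      exact card_le_card inter_subset_right
    have h5 : Odd #(S ∩ R.odd) → 5 ≤ R.cut S := fun h => (R.five_le hG h).1
    rw [Nat.odd_iff] at h5
    have k20 : #(S ∩ X) = 2 → #(S ∩ (R.odd \ X)) = 0 → 8 ≤ R.cut S := by
      intro h3 h4
      refine h8 S (Or.inl ?_) (by omega)
      rw [card_eq_zero] at h4
      intro f hf
      by_contra h6
      have : f ∈ S ∩ (R.odd \ X) :=
        mem_inter.2 ⟨(mem_inter.1 hf).1, mem_sdiff.2 ⟨(mem_inter.1 hf).2, h6⟩⟩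
      rw [h4] at this
      exact notMem_empty _ this
    have k31 : #(S ∩ X) = 3 → #(S ∩ (R.odd \ X)) = 1 → 8 ≤ R.cut S := by
      intro h3 h4
      have h7 : #X = 3 := by omega
      have h9 : S ∩ X = X := eq_of_subset_of_card_le inter_subset_right (by omega)
      have h10 : #(Sᶜ ∩ R.odd) = 2 := by
        have : #(S ∩ R.odd) + #(Sᶜ ∩ R.odd) = #R.odd := by
          rw [← card_union_of_disjoint]
          · congr 1
            ext f
            simp only [mem_union, mem_inter, mem_compl]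
            tauto
          · rw [disjoint_left]
            intro f h1 h2
            exact (mem_compl.1 (mem_inter.1 h2).1) (mem_inter.1 h1).1
        omega
      rw [← R.cut_compl]
      refine h8 Sᶜ (Or.inr ?_) h10
      intro f hf
      rw [mem_inter, mem_compl] at hf
      rw [mem_sdiff]
      refine ⟨hf.2, fun h => hf.1 ?_⟩
      rw [← h9] at h
      exact (mem_inter.1 h).1
    have k30 : #(S ∩ X) = 3 → #(S ∩ (R.odd \ X)) = 0 → 11 ≤ R.cut S := by
      intro h3 h4
      have h7 : #X = 3 := by omega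
      have h9 : S ∩ X = X := eq_of_subset_of_card_le inter_subset_right (by omega)
      refine h11 S ?_ h7
      symm
      apply eq_of_subset_of_card_le
      · intro f hf
        rw [mem_inter]
        refine ⟨?_, hs hf⟩
        rw [← h9] at hf
        exact (mem_inter.1 hf).1
      · omega
    have hXc : #X ≤ 3 := by omega
    by_cases h3 : #(S ∩ X) ≤ #(S ∩ (R.odd \ X))
    · omega
    · have h01 : #(S ∩ X) = 3 ∧ #(S ∩ (R.odd \ X)) = 0 ∨ #(S ∩ X) = 3 ∧ #(S ∩ (R.odd \ X)) = 1 ∨
        #(S ∩ X) = 2 ∧ #(S ∩ (R.odd \ X)) = 0 ∨ #(S ∩ X) = #(S ∩ (R.odd \ X)) + 1 := by omega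
      rcases h01 with ⟨h, h'⟩ | ⟨h, h'⟩ | ⟨h, h'⟩ | h
      · have := k30 h h'
        omega
      · have := k31 h h'
        omega
      · have := k20 h h'
        omega
      · have := h5 (by omega)
        omega

/-- No odd face. -/
theorem Rot.split_zero (R : Rot G) (h : #R.odd = 0) : R.Split ∅ := by
  refine ⟨empty_subset _, by simp [h], ?_, ?_⟩
  · intro S _ h2
    have : #(S ∩ R.odd) ≤ #R.odd := card_le_card inter_subset_right
    omega
  · intro S _ h2
    exact absurd h2 (by simp)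

/-- Two odd faces. -/
theorem Rot.split_two (R : Rot G) (h : #R.odd = 2) : ∃ X, R.Split X := by
  obtain ⟨x, hx⟩ : R.odd.Nonempty := card_pos.1 (by omega)
  refine ⟨{x}, singleton_subset_iff.2 hx, by simp [h], ?_, ?_⟩
  · intro S h1 h2
    rcases h1 with h1 | h1
    · have := card_le_card h1
      rw [card_singleton] at this
      omega
    · have := card_le_card h1
      rw [card_sdiff_of_subset (singleton_subset_iff.2 hx), card_singleton] at this
      omega
  · intro S _ h2
    rw [card_singleton] at h2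
    omega

theorem Lab.bad_compl {R : Rot G} {n : ℕ} (L : Lab R n) {T : Finset (Fin n)} {k : ℕ}
    (h : L.Bad Tᶜ k) : L.Bad T k := by
  obtain ⟨S, hS, hk⟩ := h
  refine ⟨Sᶜ, ?_, ?_⟩
  · rw [L.t_compl, hS, compl_compl]
  · rwa [R.cut_compl]

theorem Lab.split_four {R : Rot G} (L : Lab R 4) {T : Finset (Fin 4)} (hT : #T = 2)
    (h : ¬ L.Bad T 6) : R.Split (T.image L.o) := by
  have h0 : #R.odd = 4 := by
    rw [← univ_inter R.odd, L.card_t]
    simp [Lab.t]
  have hsub : T.image L.o ⊆ R.odd := by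
    intro f hf
    obtain ⟨i, _, rfl⟩ := mem_image.1 hf
    exact (L.mem _).2 ⟨i, rfl⟩
  have hcT : #(T.image L.o) = 2 := by rw [card_image_of_injective _ L.inj, hT]
  refine ⟨hsub, by omega, ?_, ?_⟩
  · intro S h1 h2
    rcases h1 with h1 | h1
    · rw [← L.image_t, image_subset_image_iff L.inj] at h1
      rw [L.card_t] at h2
      have h3 : L.t S = T := eq_of_subset_of_card_le h1 (by omega)
      exact (L.eight h3 (by rw [hT]; decide) h).1
    · have h3 : L.t Sᶜ = T := by
        rw [L.t_compl]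
        have h4 : L.t S ⊆ Tᶜ := by
          intro i hi
          rw [mem_compl]
          intro hiT
          have h5 : L.o i ∈ S ∩ R.odd := mem_inter.2 ⟨(L.mem_t S i).1 hi, (L.mem _).2 ⟨i, rfl⟩⟩
          exact (mem_sdiff.1 (h1 h5)).2 (mem_image_of_mem _ hiT)
        have h6 : L.t S = Tᶜ := by
          apply eq_of_subset_of_card_le h4
          rw [card_compl, Fintype.card_fin, hT, ← L.card_t, h2]
        rw [h6, compl_compl]
      rw [← R.cut_compl]
      exact (L.eight h3 (by rw [hT]; decide) h).1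
  · intro S _ h2
    omega

/-- Four odd faces. -/
theorem Rot.split_four (R : Rot G) (hG : G.CliqueFree 3) (h : #R.odd = 4) : ∃ X, R.Split X := by
  obtain ⟨L⟩ := Lab.nonempty h
  by_cases h1 : L.Bad {0, 1} 6
  · by_cases h2 : L.Bad {0, 2} 6
    · have h3 : ¬ L.Bad {0, 3} 6 := fun h3 =>
        L.A1' hG h1 h2 h3 (by decide) (by decide) (by decide) (by decide)
      exact ⟨_, L.split_four (by decide) h3⟩
    · exact ⟨_, L.split_four (by decide) h2⟩
  · exact ⟨_, L.split_four (by decide) h1⟩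

theorem Lab.split_six {R : Rot G} (L : Lab R 6) (hG : G.CliqueFree 3) {T : Finset (Fin 6)}
    (h : L.Good T) : R.Split (T.image L.o) := by
  obtain ⟨hT, hp, ht⟩ := h
  have h0 : #R.odd = 6 := by
    rw [← univ_inter R.odd, L.card_t]
    simp [Lab.t]
  have hsub : T.image L.o ⊆ R.odd := by
    intro f hf
    obtain ⟨i, _, rfl⟩ := mem_image.1 hf
    exact (L.mem _).2 ⟨i, rfl⟩
  have hcT : #(T.image L.o) = 3 := by rw [card_image_of_injective _ L.inj, hT]
  refine ⟨hsub, by omega, ?_, ?_⟩
  · intro S h1 h2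
    rw [L.card_t] at h2
    refine (L.eight rfl (by rw [h2]; decide) (hp _ h2 ?_)).1
    rcases h1 with h1 | h1
    · left
      rwa [← L.image_t, image_subset_image_iff L.inj] at h1
    · right
      intro i hi
      rw [mem_compl]
      intro hiT
      have h5 : L.o i ∈ S ∩ R.odd := mem_inter.2 ⟨(L.mem_t S i).1 hi, (L.mem _).2 ⟨i, rfl⟩⟩
      exact (mem_sdiff.1 (h1 h5)).2 (mem_image_of_mem _ hiT)
  · intro S h1 _
    have h3 : L.t S = T := by
      rw [← L.image_t] at h1
      exact image_injective L.inj h1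
    have h4 : ¬ R.cut S ≤ 9 := fun h5 => ht ⟨S, h3, h5⟩
    have h5 := (L.five hG (S := S) (by rw [h3, hT]; decide)).2
    rw [Nat.odd_iff] at h5
    omega

/-- The remaining case: six odd faces, no bad pair. -/
def Rot.NoTen (R : Rot G) : Prop :=
  #R.odd = 6 → (∀ S : Finset R.Face, #(S ∩ R.odd) = 2 → 8 ≤ R.cut S) →
  (∀ X, X ⊆ R.odd → #X = 3 → ∃ S : Finset R.Face, S ∩ R.odd = X ∧ R.cut S ≤ 9) → False

/-- Six odd faces. -/
theorem Rot.split_six (R : Rot G) (hG : G.CliqueFree 3) (hc : G.Connected)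
    (hd : ∀ v, G.degree v ≤ 3) (h : #R.odd = 6) (hE : R.NoTen) : ∃ X, R.Split X := by
  obtain ⟨L⟩ := Lab.nonempty h
  by_cases h1 : ∃ P : Finset (Fin 6), #P = 2 ∧ L.Bad P 6
  · obtain ⟨P, hP, hb⟩ := h1
    obtain ⟨L', X, hX⟩ := L.good hG hc hd hP hb
    exact ⟨_, L'.split_six hG hX⟩
  · push Not at h1
    have h2 : ∀ S : Finset R.Face, #(S ∩ R.odd) = 2 → 8 ≤ R.cut S := by
      intro S hS
      rw [L.card_t] at hS
      exact (L.eight rfl (by rw [hS]; decide) (h1 _ hS)).1
    by_contra h3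
    push Not at h3
    refine hE h h2 ?_
    intro X hX hX3
    by_contra h4
    push Not at h4
    refine h3 X ⟨hX, by omega, fun S _ hS => h2 S hS, ?_⟩
    intro S hS _
    have h5 := h4 S hS
    have h6 := (R.five_le hG (S := S) (by rw [hS, hX3]; decide)).2
    rw [Nat.odd_iff] at h6
    omega

end Pool.Agent.Sub392
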